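import Pool.Agent.Hhelper97.Sph.Growth

/-!
# The adjunction identity for the weighted moments
-/

open MeasureTheory Matrix Polynomial
open scoped ENNReal ComplexConjugate

namespace Sph

variable {n : ℕ}

/-- `tr (A X)`. -/
noncomputable def trM (X : Matrix (Fin n) (Fin n) ℂ) (A : Fin n × Fin n → ℂ) : ℂ :=
  (mat A * X).trace

lemma trM_eq (X : Matrix (Fin n) (Fin n) ℂ) (A : Fin n × Fin n → ℂ) :
    trM X A = ∑ i, ∑ j, A (i, j) * X j i := by
  unfold trM
  rw [Matrix.trace]
  refine Finset.sum_congr rfl fun i _ => ?_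
  rw [Matrix.diag_apply, Matrix.mul_apply]
  rfl

lemma PG_trM (X : Matrix (Fin n) (Fin n) ℂ) : PG (trM X) := by
  have : trM X = fun A : Fin n × Fin n → ℂ => ∑ i, ∑ j, A (i, j) * X j i := by
    ext A; exact trM_eq X A
  rw [this]
  exact PG.sum _ fun i _ => PG.sum _ fun j _ => (PG.coord (i, j)).mul (PG.const _)

lemma trM_add (X Y : Matrix (Fin n) (Fin n) ℂ) (A : Fin n × Fin n → ℂ) :
    trM (X + Y) A = trM X A + trM Y A := by
  unfold trM
  rw [Matrix.mul_add, Matrix.trace_add]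

lemma trM_smul (c : ℂ) (X : Matrix (Fin n) (Fin n) ℂ) (A : Fin n × Fin n → ℂ) :
    trM (c • X) A = c * trM X A := by
  unfold trM
  rw [Matrix.mul_smul, Matrix.trace_smul, smul_eq_mul]

/-- Integrals of `N`-th powers of affine functions of `ζ` are polynomials in `ζ`. -/
theorem exists_poly (a : ℂ) (ha : -1 < a.re) {p q r : (Fin n × Fin n → ℂ) → ℂ}
    (hp : PG p) (hq : PG q) (hr : PG r) (N : ℕ) :
    ∃ P : ℂ[X], ∀ ζ : ℂ, ∫ A, W a A * ((p A + ζ * q A) ^ N * r A) ∂(G (Fin n × Fin n)) =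
      P.eval ζ := by
  refine ⟨∑ k ∈ Finset.range (N + 1), C (∫ A, W a A * (p A ^ k * q A ^ (N - k) * (N.choose k) * r A)
    ∂(G (Fin n × Fin n))) * X ^ (N - k), fun ζ => ?_⟩
  rw [eval_finsetSum]
  simp only [eval_mul, eval_C, eval_pow, eval_X]
  simp_rw [← integral_mul_const]
  rw [← integral_finsetSum]
  · refine integral_congr_ae (Filter.Eventually.of_forall fun A => ?_)
    simp only
    rw [add_pow, Finset.sum_mul, Finset.mul_sum]
    refine Finset.sum_congr rfl fun k _ => ?_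
    rw [mul_pow]
    ring
  · intro k _
    exact (((((hp.pow k).mul (hq.pow (N - k))).mul (PG.const _)).mul hr).integrable_W a ha).mul_const _

/-- The weighted mixed moments `E_a [tr(AX)^N conj(tr(AY)^N)]`. -/
noncomputable def Phi (a : ℂ) (N : ℕ) (X Y : Matrix (Fin n) (Fin n) ℂ) : ℂ :=
  ∫ A, W a A * (trM X A ^ N * conj (trM Y A) ^ N) ∂(G (Fin n × Fin n))

/-- The adjunction property of a matrix. -/
def Cl (a : ℂ) (N : ℕ) (g : Matrix (Fin n) (Fin n) ℂ) : Prop :=
  ∀ X Y, Phi a N (g * X) Y = Phi a N X (gᴴ * Y)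

lemma Cl_mul {a : ℂ} {N : ℕ} {g h : Matrix (Fin n) (Fin n) ℂ} (hg : Cl a N g) (hh : Cl a N h) :
    Cl a N (g * h) := by
  intro X Y
  rw [Matrix.mul_assoc, hg, hh, ← Matrix.mul_assoc, Matrix.conjTranspose_mul]

lemma Cl_one (a : ℂ) (N : ℕ) : Cl a N (1 : Matrix (Fin n) (Fin n) ℂ) := by
  intro X Y
  simp

lemma Cl_unitary (a : ℂ) (N : ℕ) (U : Matrix (Fin n) (Fin n) ℂ) (hU : U * Uᴴ = 1) :
    Cl a N U := by
  intro X Y
  have hU' : Uᴴ * U = 1 := mul_eq_one_comm.mp hU
  unfold Phi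
  have h1 := (rmul_measurePreserving (m := n) U hU)
  have h2 : ∫ A, W a A * (trM X A ^ N * conj (trM (Uᴴ * Y) A) ^ N) ∂(G (Fin n × Fin n)) =
      ∫ A, (fun A => W a A * (trM X A ^ N * conj (trM (Uᴴ * Y) A) ^ N)) (rmulL U A)
        ∂(G (Fin n × Fin n)) := by
    nth_rewrite 1 [← h1.map_eq]
    rw [integral_map h1.measurable.aemeasurable]
    exact ((measurable_W a).mul (((PG_trM X).pow N).mul ((PG_trM (Uᴴ * Y)).conj.pow N)).meas).aestronglyMeasurable
  rw [h2]
  refine integral_congr_ae (Filter.Eventually.of_forall fun A => ?_)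
  simp only
  rw [W_mul_unitary_right a U hU]
  unfold trM
  rw [mat_rmulL, Matrix.mul_assoc, Matrix.mul_assoc, ← Matrix.mul_assoc U Uᴴ Y, hU, Matrix.one_mul]

/-- Transfer along a polynomial parameter. -/
lemma Cl_of_infinite {a : ℂ} (ha : -1 < a.re) {N : ℕ} (g₀ g₁ : Matrix (Fin n) (Fin n) ℂ)
    (hinf : Set.Infinite {ζ : ℂ | ∀ X Y : Matrix (Fin n) (Fin n) ℂ,
      Phi a N ((g₀ + ζ • g₁) * X) Y = Phi a N X ((g₀ + ζ • g₁)ᴴ * Y)}) (ζ : ℂ) :
    Cl a N (g₀ + ζ • g₁) := by
  intro X Y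
  obtain ⟨P, hP⟩ := exists_poly a ha (PG_trM (g₀ * X)) (PG_trM (g₁ * X)) ((PG_trM Y).conj.pow N) N
  obtain ⟨Q, hQ⟩ := exists_poly a ha (PG_trM (g₀ᴴ * Y)).conj (PG_trM (g₁ᴴ * Y)).conj
    ((PG_trM X).pow N) N
  have h1 : ∀ ζ : ℂ, Phi a N ((g₀ + ζ • g₁) * X) Y = P.eval ζ := by
    intro ζ
    rw [← hP]
    unfold Phi
    refine integral_congr_ae (Filter.Eventually.of_forall fun A => ?_)
    simp only
    rw [Matrix.add_mul, trM_add, Matrix.smul_mul, trM_smul]
  have h2 : ∀ ζ : ℂ, Phi a N X ((g₀ + ζ • g₁)ᴴ * Y) = Q.eval ζ := by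
    intro ζ
    rw [← hQ]
    unfold Phi
    refine integral_congr_ae (Filter.Eventually.of_forall fun A => ?_)
    simp only
    rw [Matrix.conjTranspose_add, Matrix.conjTranspose_smul, Matrix.add_mul, trM_add,
      Matrix.smul_mul, trM_smul, map_add, map_mul]
    simp only [RCLike.star_def, Complex.conj_conj]
    ring
  have h3 : P = Q := by
    refine Polynomial.eq_of_infinite_eval_eq P Q (hinf.mono fun ζ hζ => ?_)
    simp only [Set.mem_ofPred_eq]
    rw [← h1, ← h2]
    exact hζ X Y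
  rw [h1, h2, h3]

lemma Cl_diag_one {a : ℂ} (ha : -1 < a.re) (N : ℕ) (i : Fin n) (d : ℂ) :
    Cl a N (Matrix.diagonal (Pi.single i d + Pi.single i (-1) + 1)) := by
  have h : ∀ d : ℂ, (Matrix.diagonal (Pi.single i d + Pi.single i (-1) + 1) :
      Matrix (Fin n) (Fin n) ℂ) = Matrix.diagonal (Pi.single i (-1) + 1) +
        d • Matrix.diagonal (Pi.single i 1) := by
    intro d
    rw [← Matrix.diagonal_smul, Matrix.diagonal_add]
    congr 1
    ext j
    simp only [Pi.add_apply, Pi.smul_apply, Pi.single_apply, Pi.one_apply, smul_eq_mul]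
    split_ifs <;> ring
  rw [h]
  refine Cl_of_infinite ha _ _ ?_ d
  have hinf : Set.Infinite (Metric.sphere (0 : ℂ) 1) := by
    refine (isPreconnected_sphere ?_ (0 : ℂ) 1).infinite_of_nontrivial ?_
    · rw [Complex.rank_real_complex]; norm_num
    · refine ⟨1, by simp, -1, by simp, ?_⟩
      norm_num
  refine hinf.mono fun ζ hζ => ?_
  simp only [Set.mem_ofPred_eq]
  rw [← h]
  intro X Y
  refine Cl_unitary a N _ ?_ X Y
  have hζ1 : ζ * conj ζ = 1 := by
    rw [Complex.mul_conj, Complex.normSq_eq_norm_sq]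
    have : ‖ζ‖ = 1 := by simpa using hζ
    rw [this]; simp
  rw [Matrix.diagonal_conjTranspose, Matrix.diagonal_mul_diagonal, ← Matrix.diagonal_one]
  congr 1
  ext j
  simp only [Pi.add_apply, Pi.star_apply, Pi.single_apply, Pi.one_apply]
  split_ifs
  · simp only [star_add, star_neg, star_one, RCLike.star_def]
    linear_combination hζ1
  · simp

lemma Cl_diagonal {a : ℂ} (ha : -1 < a.re) (N : ℕ) (d : Fin n → ℂ) :
    Cl a N (Matrix.diagonal d) := by
  classical
  have key : ∀ s : Finset (Fin n), Cl a N (Matrix.diagonal fun i => if i ∈ s then d i else 1) := by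
    intro s
    induction s using Finset.induction_on with
    | empty =>
      have h : (Matrix.diagonal fun i => if i ∈ (∅ : Finset (Fin n)) then d i else 1 :
          Matrix (Fin n) (Fin n) ℂ) = 1 := by
        simp only [Finset.notMem_empty, if_false]
        exact Matrix.diagonal_one
      rw [h]
      exact Cl_one a N
    | insert i s hi ih =>
      have h : (Matrix.diagonal fun j => if j ∈ insert i s then d j else 1 :
          Matrix (Fin n) (Fin n) ℂ) =
          Matrix.diagonal (Pi.single i (d i) + Pi.single i (-1) + 1) *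
            Matrix.diagonal fun j => if j ∈ s then d j else 1 := by
        rw [Matrix.diagonal_mul_diagonal]
        congr 1
        ext j
        simp only [Pi.add_apply, Pi.single_apply, Pi.one_apply, Finset.mem_insert]
        by_cases hj : j = i
        · subst hj
          simp [hi]
        · simp [hj]
      rw [h]
      exact Cl_mul (Cl_diag_one ha N i (d i)) ih
  simpa using key Finset.univ

/-- Unitary diagonalisation. -/
lemma herm_decomp (H : Matrix (Fin n) (Fin n) ℂ) (hH : H.IsHermitian) :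
    ∃ (U : Matrix (Fin n) (Fin n) ℂ) (d : Fin n → ℝ), U * Uᴴ = 1 ∧ Uᴴ * U = 1 ∧
      H = U * Matrix.diagonal (fun i => (d i : ℂ)) * Uᴴ := by
  refine ⟨(hH.eigenvectorUnitary : Matrix (Fin n) (Fin n) ℂ), hH.eigenvalues, ?_, ?_, ?_⟩
  · exact Unitary.mul_star_self_of_mem hH.eigenvectorUnitary.2
  · exact Unitary.star_mul_self_of_mem hH.eigenvectorUnitary.2
  · have h := hH.spectral_theorem
    rw [Unitary.conjStarAlgAut_apply] at h
    exact h

lemma Cl_hermitian {a : ℂ} (ha : -1 < a.re) (N : ℕ) (H : Matrix (Fin n) (Fin n) ℂ)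
    (hH : H.IsHermitian) : Cl a N H := by
  obtain ⟨U, d, h1, h2, h3⟩ := herm_decomp H hH
  rw [h3]
  refine Cl_mul (Cl_mul (Cl_unitary a N U h1) (Cl_diagonal ha N _)) (Cl_unitary a N Uᴴ ?_)
  rw [Matrix.conjTranspose_conjTranspose, h2]

lemma infinite_reals : Set.Infinite (Set.range fun x : ℝ => (x : ℂ)) :=
  Set.infinite_range_of_injective Complex.ofReal_injective

/-- Cartesian decomposition. -/
lemma cartesian (g : Matrix (Fin n) (Fin n) ℂ) :
    ∃ H K : Matrix (Fin n) (Fin n) ℂ, H.IsHermitian ∧ K.IsHermitian ∧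
      g = H + Complex.I • K := by
  refine ⟨(1 / 2 : ℂ) • (g + gᴴ), (-(Complex.I / 2) : ℂ) • (g - gᴴ), ?_, ?_, ?_⟩
  · unfold Matrix.IsHermitian
    rw [Matrix.conjTranspose_smul, Matrix.conjTranspose_add, Matrix.conjTranspose_conjTranspose,
      add_comm]
    congr 1
    simp
  · unfold Matrix.IsHermitian
    rw [Matrix.conjTranspose_smul, Matrix.conjTranspose_sub, Matrix.conjTranspose_conjTranspose,
      ← neg_sub g gᴴ, smul_neg, ← neg_smul]
    congr 1
    simp only [RCLike.star_def, map_neg, map_div₀, Complex.conj_I, Complex.conj_ofNat]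
    ring
  · rw [smul_smul]
    have : Complex.I * -(Complex.I / 2) = 1 / 2 := by
      have := Complex.I_mul_I
      linear_combination (-1 / 2 : ℂ) * this
    rw [this, ← smul_add]
    have h2 : g + gᴴ + (g - gᴴ) = (2 : ℂ) • g := by
      rw [two_smul]; abel
    rw [h2, smul_smul]
    norm_num

/-- The adjunction identity holds for every matrix. -/
theorem Cl_all {a : ℂ} (ha : -1 < a.re) (N : ℕ) (g : Matrix (Fin n) (Fin n) ℂ) : Cl a N g := by
  obtain ⟨H, K, hH, hK, rfl⟩ := cartesian g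
  refine Cl_of_infinite ha H K (infinite_reals.mono ?_) Complex.I
  rintro _ ⟨x, rfl⟩
  intro X Y
  refine Cl_hermitian ha N _ ?_ X Y
  unfold Matrix.IsHermitian at *
  rw [Matrix.conjTranspose_add, Matrix.conjTranspose_smul, hH, hK]
  simp

end Sph
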