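import Pool.Agent.Hhelper97.Sph.Unif

/-!
# Moments of the characteristic polynomial of the spherical ensemble
-/

open MeasureTheory Matrix Finset Filter Topology
open scoped ENNReal ComplexConjugate

namespace Sph

/-- `E |det(z I - A B⁻¹)|^γ` for independent `n × n` complex Ginibre matrices `A`, `B`,
where `|x|^γ = exp (γ log |x|)`. -/
noncomputable def sphericalMoment (n : ℕ) (z γ : ℂ) : ℂ :=
  ∫ p : (Fin n × Fin n → ℂ) × (Fin n × Fin n → ℂ),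
    Complex.exp (γ * ((Real.log ‖(z • (1 : Matrix (Fin n) (Fin n) ℂ) -
      mat p.1 * (mat p.2)⁻¹).det‖ : ℝ) : ℂ))
    ∂((G (Fin n × Fin n)).prod (G (Fin n × Fin n)))

lemma mp_integralC {α β : Type*} [MeasurableSpace α] [MeasurableSpace β] {μ : Measure α}
    {ν : Measure β} {f : α → β} (hf : MeasurePreserving f μ ν) {g : β → ℂ}
    (hg : AEStronglyMeasurable g ν) : ∫ x, (g ∘ f) x ∂μ = ∫ y, g y ∂ν := by
  rw [← hf.map_eq] at hg ⊢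
  rw [integral_map hf.measurable.aemeasurable hg]
  rfl

variable {n : ℕ}

lemma swapneg_measurePreserving : MeasurePreserving
    (fun p : (Fin n × Fin n → ℂ) × (Fin n × Fin n → ℂ) => (p.2, -p.1)) (GG n) (GG n) := by
  have h1 : MeasurePreserving (fun x : Fin n × Fin n → ℂ => -x)
      (G (Fin n × Fin n)) (G (Fin n × Fin n)) := by
    let L : (Fin n × Fin n → ℂ) →ₗ[ℝ] (Fin n × Fin n → ℂ) := -LinearMap.id
    exact G_measurePreserving L (fun x => by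
      change nsq (-x) = nsq x
      simp [nsq])
  have h2 : MeasurePreserving (Prod.map (fun x : Fin n × Fin n → ℂ => -x)
      (id : (Fin n × Fin n → ℂ) → (Fin n × Fin n → ℂ))) (GG n) (GG n) :=
    h1.prod (MeasurePreserving.id _)
  exact (Measure.measurePreserving_swap (μ := G (Fin n × Fin n))
    (ν := G (Fin n × Fin n))).comp h2

section ident

variable (n) (z a : ℂ)

/-- Almost sure identification of the integrand. -/
theorem integrand_ae : ∀ᵐ p ∂(GG n),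
    Complex.exp (2 * a * ((Real.log ‖(z • (1 : Matrix (Fin n) (Fin n) ℂ) -
      mat p.1 * (mat p.2)⁻¹).det‖ : ℝ) : ℂ)) =
    ((1 + ‖z‖ ^ 2 : ℝ) : ℂ) ^ ((n : ℂ) * a) *
      (((fun q : (Fin n × Fin n → ℂ) × (Fin n × Fin n → ℂ) =>
        W a ((z / ((Real.sqrt (1 + ‖z‖ ^ 2) : ℝ) : ℂ)) • q.1 +
          (((Real.sqrt (1 + ‖z‖ ^ 2))⁻¹ : ℝ) : ℂ) • q.2) * W (-a) q.1) ∘
        (fun p : (Fin n × Fin n → ℂ) × (Fin n × Fin n → ℂ) => (p.2, -p.1))) p) := by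
  set s : ℝ := Real.sqrt (1 + ‖z‖ ^ 2) with hs
  have hs0 : 0 < s := Real.sqrt_pos.mpr (by positivity)
  have hs2 : s ^ 2 = 1 + ‖z‖ ^ 2 := Real.sq_sqrt (by positivity)
  have hsc : (s : ℂ) ≠ 0 := by exact_mod_cast hs0.ne'
  have hnorm : ‖z / (s : ℂ)‖ ^ 2 + (s⁻¹) ^ 2 = 1 := by
    rw [norm_div, Complex.norm_real, Real.norm_of_nonneg hs0.le, div_pow, inv_pow, hs2]
    have : (1 + ‖z‖ ^ 2) ≠ 0 := by positivity
    field_simp
    ring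
  have hae1 : ∀ᵐ p ∂(GG n), (mat p.2).det ≠ 0 :=
    Measure.quasiMeasurePreserving_snd.ae (ae_det_ne_zero n)
  have hmp := (lin_measurePreserving (ι := Fin n × Fin n) (z / (s : ℂ)) s⁻¹ hnorm).comp
    swapneg_measurePreserving
  have hae2 := hmp.quasiMeasurePreserving.ae (ae_det_ne_zero n)
  filter_upwards [hae1, hae2] with p h1 h2
  simp only [Function.comp_apply] at h2 ⊢
  set X : Fin n × Fin n → ℂ := (z / (s : ℂ)) • p.2 + ((s⁻¹ : ℝ) : ℂ) • -p.1 with hX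
  have h3 : z • (1 : Matrix (Fin n) (Fin n) ℂ) - mat p.1 * (mat p.2)⁻¹ =
      mat ((s : ℂ) • X) * (mat p.2)⁻¹ := by
    have hB : mat p.2 * (mat p.2)⁻¹ = 1 := Matrix.mul_nonsing_inv _ (isUnit_iff_ne_zero.mpr h1)
    have h4 : mat ((s : ℂ) • X) = z • mat p.2 - mat p.1 := by
      ext i j
      simp only [mat, hX, Matrix.of_apply, Matrix.sub_apply, Matrix.smul_apply, Pi.add_apply,
        Pi.smul_apply, Pi.neg_apply, smul_eq_mul]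
      push_cast
      field_simp
      ring
    rw [h4, Matrix.sub_mul, Matrix.smul_mul, hB]
  have h5 : (mat ((s : ℂ) • X)).det ≠ 0 := by
    rw [mat_smul, det_smul]
    exact mul_ne_zero (pow_ne_zero _ hsc) h2
  have hx := norm_pos_iff.mpr h5
  have hy := norm_pos_iff.mpr h1
  have h6 : Complex.exp (2 * a * ((Real.log ‖(mat ((s : ℂ) • X) * (mat p.2)⁻¹).det‖ : ℝ) : ℂ)) =
      W a ((s : ℂ) • X) * W (-a) p.2 := by
    rw [det_mul, Matrix.det_nonsing_inv, Ring.inverse_eq_inv', norm_mul, norm_inv,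
      Real.log_mul hx.ne' (inv_ne_zero hy.ne'), Real.log_inv]
    unfold W
    rw [Complex.cpow_def_of_ne_zero (by exact_mod_cast hx.ne'),
      Complex.cpow_def_of_ne_zero (by exact_mod_cast hy.ne'), ← Complex.exp_add,
      ← Complex.ofReal_log hx.le, ← Complex.ofReal_log hy.le]
    congr 1
    push_cast
    ring
  have h8 : (s : ℂ) ^ (2 * ((n : ℂ) * a)) = ((1 + ‖z‖ ^ 2 : ℝ) : ℂ) ^ ((n : ℂ) * a) := by
    have h7 : ((1 + ‖z‖ ^ 2 : ℝ) : ℂ) ≠ 0 := by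
      have : (1 + ‖z‖ ^ 2 : ℝ) ≠ 0 := by positivity
      exact_mod_cast this
    rw [← hs2] at h7 ⊢
    rw [Complex.cpow_def_of_ne_zero h7, Complex.cpow_def_of_ne_zero hsc,
      ← Complex.ofReal_log (pow_nonneg hs0.le 2), ← Complex.ofReal_log hs0.le, Real.log_pow]
    congr 1
    push_cast
    ring
  rw [h3, h6, W_smul_pos a hs0, h8, mul_assoc]

end ident

theorem param_norm (z : ℂ) : ‖z / ((Real.sqrt (1 + ‖z‖ ^ 2) : ℝ) : ℂ)‖ ^ 2 +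
    ((Real.sqrt (1 + ‖z‖ ^ 2))⁻¹) ^ 2 = 1 := by
  have hs0 : 0 < Real.sqrt (1 + ‖z‖ ^ 2) := Real.sqrt_pos.mpr (by positivity)
  have hs2 : Real.sqrt (1 + ‖z‖ ^ 2) ^ 2 = 1 + ‖z‖ ^ 2 := Real.sq_sqrt (by positivity)
  rw [norm_div, Complex.norm_real, Real.norm_of_nonneg hs0.le, div_pow, inv_pow, hs2]
  have : (1 + ‖z‖ ^ 2) ≠ 0 := by positivity
  field_simp
  ring

theorem param_norm' (z : ℂ) : ‖z / ((Real.sqrt (1 + ‖z‖ ^ 2) : ℝ) : ℂ)‖ ^ 2 =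
    ‖z‖ ^ 2 / (1 + ‖z‖ ^ 2) := by
  have hs0 : 0 < Real.sqrt (1 + ‖z‖ ^ 2) := Real.sqrt_pos.mpr (by positivity)
  have hs2 : Real.sqrt (1 + ‖z‖ ^ 2) ^ 2 = 1 + ‖z‖ ^ 2 := Real.sq_sqrt (by positivity)
  rw [norm_div, Complex.norm_real, Real.norm_of_nonneg hs0.le, div_pow, hs2]

/-- The integrand of the spherical moment is integrable when `|Re γ| < 2`. -/
theorem spherical_integrable (n : ℕ) (z : ℂ) {a : ℂ} (ha : |a.re| < 1) :
    Integrable (fun p : (Fin n × Fin n → ℂ) × (Fin n × Fin n → ℂ) =>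
      Complex.exp (2 * a * ((Real.log ‖(z • (1 : Matrix (Fin n) (Fin n) ℂ) -
      mat p.1 * (mat p.2)⁻¹).det‖ : ℝ) : ℂ))) (GG n) := by
  obtain ⟨ha1, ha2⟩ := abs_lt.mp ha
  have hb1 : -1 < (-a).re := by rw [Complex.neg_re]; linarith
  have hint := integrable_TP (n := n) ha1 hb1
    (inv_pos.mpr (Real.sqrt_pos.mpr (by positivity : 0 < 1 + ‖z‖ ^ 2))) (param_norm z)
  have h1 := (swapneg_measurePreserving.integrable_comp hint.aestronglyMeasurable).mpr hint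
  exact (h1.const_mul _).congr ((integrand_ae n z a).mono fun p hp => hp.symm)

/-- The spherical moment in terms of the two-point function. -/
theorem sphericalMoment_eq (n : ℕ) (z : ℂ) {a : ℂ} (ha : |a.re| < 1) :
    sphericalMoment n z (2 * a) = ((1 + ‖z‖ ^ 2 : ℝ) : ℂ) ^ ((n : ℂ) * a) *
      Ph n a (-a) (‖z‖ ^ 2 / (1 + ‖z‖ ^ 2)) := by
  obtain ⟨ha1, ha2⟩ := abs_lt.mp ha
  have hb1 : -1 < (-a).re := by rw [Complex.neg_re]; linarith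
  have hpos : 0 < (Real.sqrt (1 + ‖z‖ ^ 2))⁻¹ :=
    inv_pos.mpr (Real.sqrt_pos.mpr (by positivity : 0 < 1 + ‖z‖ ^ 2))
  have hint := integrable_TP (n := n) ha1 hb1 hpos (param_norm z)
  unfold sphericalMoment
  rw [integral_congr_ae (integrand_ae n z a), integral_const_mul,
    mp_integralC swapneg_measurePreserving hint.aestronglyMeasurable]
  congr 1
  have h1 := hasSum_TP (n := n) ha1 hb1 hpos (param_norm z)
  rw [param_norm'] at h1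
  have ht : ‖z‖ ^ 2 / (1 + ‖z‖ ^ 2) < 1 := by
    rw [div_lt_one (by positivity)]; linarith
  exact h1.unique (hasSum_Ph ha1 hb1 _ (by positivity) ht)

/-- The predicted main term. -/
noncomputable def mainTerm (Gf : ℂ → ℂ) (n : ℕ) (z γ : ℂ) : ℂ :=
  (n : ℂ) ^ (γ ^ 2 / 4) * ((1 + ‖z‖ ^ 2 : ℝ) : ℂ) ^ (γ * n / 2 - γ ^ 2 / 4) /
    (Gf (1 - γ / 2) * Gf (1 + γ / 2))

/-- The ratio of the moment to the main term. -/
theorem ratio_eq (Gf : ℂ → ℂ) {n : ℕ} (hn : 1 ≤ n) (z : ℂ) {a : ℂ} (ha : |a.re| < 1) :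
    sphericalMoment n z (2 * a) / mainTerm Gf n z (2 * a) =
      (Z n a * Z n (-a) * (n : ℂ) ^ (-(a ^ 2)) * (Gf (1 + a) * Gf (1 - a))) *
      ((Ph n a (-a) (‖z‖ ^ 2 / (1 + ‖z‖ ^ 2)) / (Z n a * Z n (-a))) *
        ((1 + ‖z‖ ^ 2 : ℝ) : ℂ) ^ (a ^ 2)) := by
  obtain ⟨ha1, ha2⟩ := abs_lt.mp ha
  have hb1 : -1 < (-a).re := by rw [Complex.neg_re]; linarith
  have hZa := Z_ne_zero n a ha1
  have hZb := Z_ne_zero n (-a) hb1
  have hz : ((1 + ‖z‖ ^ 2 : ℝ) : ℂ) ≠ 0 := by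
    have : (1 + ‖z‖ ^ 2 : ℝ) ≠ 0 := by positivity
    exact_mod_cast this
  have hn0 : (n : ℂ) ≠ 0 := by exact_mod_cast (by omega : n ≠ 0)
  rw [sphericalMoment_eq n z ha, mainTerm, div_div_eq_mul_div]
  have e1 : (2 * a) ^ 2 / 4 = a ^ 2 := by ring
  have e2 : 2 * a * n / 2 - a ^ 2 = (n : ℂ) * a - a ^ 2 := by ring
  have e3 : 2 * a / 2 = a := by ring
  rw [e1, e2, e3, Complex.cpow_sub _ _ hz, Complex.cpow_neg]
  have h1 : ((1 + ‖z‖ ^ 2 : ℝ) : ℂ) ^ ((n : ℂ) * a) ≠ 0 :=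
    Complex.cpow_ne_zero_iff.mpr (Or.inl hz)
  have h2 : ((1 + ‖z‖ ^ 2 : ℝ) : ℂ) ^ (a ^ 2) ≠ 0 := Complex.cpow_ne_zero_iff.mpr (Or.inl hz)
  have h3 : (n : ℂ) ^ (a ^ 2) ≠ 0 := Complex.cpow_ne_zero_iff.mpr (Or.inl hn0)
  field_simp

/-- Uniform convergence of the second factor. -/
theorem factor_unif {K Γ : Set ℂ} (hK : IsCompact K) (hΓ : IsCompact Γ)
    (hΓs : ∀ a ∈ Γ, |a.re| < 1) :
    TendstoUniformlyOn (fun (n : ℕ) (p : ℂ × ℂ) =>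
      (Ph n p.2 (-p.2) (‖p.1‖ ^ 2 / (1 + ‖p.1‖ ^ 2)) / (Z n p.2 * Z n (-p.2))) *
        ((1 + ‖p.1‖ ^ 2 : ℝ) : ℂ) ^ (p.2 ^ 2)) (fun _ => 1) atTop (K ×ˢ Γ) := by
  obtain ⟨R, hR⟩ := hK.isBounded.exists_norm_le
  obtain ⟨A, hA⟩ := hΓ.isBounded.exists_norm_le
  rw [Metric.tendstoUniformlyOn_iff]
  intro ε hε
  set R' : ℝ := max R 0 with hR'
  have hR'0 : 0 ≤ R' := le_max_right _ _
  set t₀ : ℝ := R' ^ 2 / (1 + R' ^ 2) with ht₀
  have ht₀1 : t₀ < 1 := by rw [ht₀, div_lt_one (by positivity)]; linarith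
  set C : ℝ := Real.exp (Real.log (1 + R' ^ 2) * A ^ 2) with hC
  have hCpos : 0 < C := Real.exp_pos _
  filter_upwards [unif_conv A ht₀1 (div_pos hε hCpos)] with n hn
  rintro ⟨z, a⟩ ⟨hz, ha⟩
  simp only at hz ha ⊢
  have hzR : ‖z‖ ≤ R' := (hR z hz).trans (le_max_left _ _)
  have haA := hA a ha
  have hpos : (0 : ℝ) < 1 + ‖z‖ ^ 2 := by positivity
  have ht0 : 0 ≤ ‖z‖ ^ 2 / (1 + ‖z‖ ^ 2) := by positivity
  have htt : ‖z‖ ^ 2 / (1 + ‖z‖ ^ 2) ≤ t₀ := by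
    rw [ht₀, div_le_div_iff₀ hpos (by positivity)]
    have := pow_le_pow_left₀ (norm_nonneg z) hzR 2
    nlinarith
  have h1 := hn a (hΓs a ha) haA _ ht0 htt
  have hzc : ((1 + ‖z‖ ^ 2 : ℝ) : ℂ) ≠ 0 := by exact_mod_cast hpos.ne'
  have h2 : (1 - ((‖z‖ ^ 2 / (1 + ‖z‖ ^ 2) : ℝ) : ℂ)) ^ (a ^ 2) *
      ((1 + ‖z‖ ^ 2 : ℝ) : ℂ) ^ (a ^ 2) = 1 := by
    have h3 : (1 - ((‖z‖ ^ 2 / (1 + ‖z‖ ^ 2) : ℝ) : ℂ)) = (((1 + ‖z‖ ^ 2)⁻¹ : ℝ) : ℂ) := by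
      rw [← Complex.ofReal_one, ← Complex.ofReal_sub]
      congr 1
      field_simp
      ring
    rw [h3, Complex.ofReal_inv, Complex.inv_cpow _ _ (by
      rw [Complex.arg_ofReal_of_nonneg hpos.le]; exact Real.pi_pos.ne), inv_mul_cancel₀]
    exact Complex.cpow_ne_zero_iff.mpr (Or.inl hzc)
  rw [dist_comm, dist_eq_norm]
  have h4 : Ph n a (-a) (‖z‖ ^ 2 / (1 + ‖z‖ ^ 2)) / (Z n a * Z n (-a)) *
      ((1 + ‖z‖ ^ 2 : ℝ) : ℂ) ^ (a ^ 2) - 1 =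
      (Ph n a (-a) (‖z‖ ^ 2 / (1 + ‖z‖ ^ 2)) / (Z n a * Z n (-a)) -
        (1 - ((‖z‖ ^ 2 / (1 + ‖z‖ ^ 2) : ℝ) : ℂ)) ^ (a ^ 2)) *
        ((1 + ‖z‖ ^ 2 : ℝ) : ℂ) ^ (a ^ 2) := by
    rw [sub_mul, h2]
  rw [h4, norm_mul]
  have h5 : ‖((1 + ‖z‖ ^ 2 : ℝ) : ℂ) ^ (a ^ 2)‖ ≤ C := by
    rw [Complex.norm_cpow_eq_rpow_re_of_pos hpos, Real.rpow_def_of_pos hpos, hC]
    rw [Real.exp_le_exp]
    have h6 : 0 ≤ Real.log (1 + ‖z‖ ^ 2) := Real.log_nonneg (by linarith [sq_nonneg ‖z‖])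
    have h7 : Real.log (1 + ‖z‖ ^ 2) ≤ Real.log (1 + R' ^ 2) := by
      apply Real.log_le_log hpos
      have := pow_le_pow_left₀ (norm_nonneg z) hzR 2
      linarith
    have h8 : (a ^ 2).re ≤ A ^ 2 := by
      refine (Complex.re_le_norm _).trans ?_
      rw [norm_pow]
      exact pow_le_pow_left₀ (norm_nonneg _) haA 2
    calc Real.log (1 + ‖z‖ ^ 2) * (a ^ 2).re ≤ Real.log (1 + ‖z‖ ^ 2) * A ^ 2 := by gcongr
      _ ≤ _ := by gcongr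
  calc _ ≤ ‖Ph n a (-a) (‖z‖ ^ 2 / (1 + ‖z‖ ^ 2)) / (Z n a * Z n (-a)) -
        (1 - ((‖z‖ ^ 2 / (1 + ‖z‖ ^ 2) : ℝ) : ℂ)) ^ (a ^ 2)‖ * C := by gcongr
    _ < (ε / C) * C := mul_lt_mul_of_pos_right h1 hCpos
    _ = ε := div_mul_cancel₀ _ hCpos.ne'

end Sph
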