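import Mathlib

/-!
# The Barnes G-function: characterisation and uniqueness
-/

open Filter Topology

namespace Sph

/-- The defining properties of the Barnes `G`-function: it is the entire function with
`G 1 = 1` and `G (s + 1) = Γ(s) G(s)` which is positive on the positive real axis and satisfies
`(log G)''' ≥ 0` there. -/
structure IsBarnesG (G : ℂ → ℂ) : Prop where
  entire : Differentiable ℂ G
  one : G 1 = 1
  rec : ∀ s : ℂ, (∀ m : ℕ, s ≠ -(m : ℂ)) → G (s + 1) = Complex.Gamma s * G s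
  pos : ∀ x : ℝ, 0 < x → ∃ r : ℝ, 0 < r ∧ G x = (r : ℂ)
  convex : ∀ x : ℝ, 0 < x → 0 ≤ iteratedDeriv 3 (fun y : ℝ => Real.log (G y).re) x

namespace IsBarnesG

variable {G G' : ℂ → ℂ}

lemma re_pos (h : IsBarnesG G) {x : ℝ} (hx : 0 < x) : 0 < (G x).re := by
  obtain ⟨r, hr, h1⟩ := h.pos x hx
  rw [h1, Complex.ofReal_re]
  exact hr

lemma eq_re (h : IsBarnesG G) {x : ℝ} (hx : 0 < x) : G x = ((G x).re : ℂ) := by
  obtain ⟨r, hr, h1⟩ := h.pos x hx
  rw [h1, Complex.ofReal_re]

/-- `log G` on the positive axis. -/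
noncomputable def lg (G : ℂ → ℂ) (y : ℝ) : ℝ := Real.log (G y).re

lemma contDiff_re (h : IsBarnesG G) : ContDiff ℝ ⊤ fun y : ℝ => (G y).re := by
  have h1 : ContDiff ℂ ⊤ G := h.entire.contDiff
  have h2 : ContDiff ℝ ⊤ G := h1.restrict_scalars ℝ
  exact Complex.reCLM.contDiff.comp (h2.comp Complex.ofRealCLM.contDiff)

lemma contDiffOn_lg (h : IsBarnesG G) : ContDiffOn ℝ ⊤ (lg G) (Set.Ioi 0) := by
  intro x hx
  exact ((h.contDiff_re.contDiffAt).log (h.re_pos hx).ne').contDiffWithinAt

lemma lg_add_one (h : IsBarnesG G) {x : ℝ} (hx : 0 < x) :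
    lg G (x + 1) = Real.log (Real.Gamma x) + lg G x := by
  have h1 := h.rec x (by
    intro m hm
    have := congrArg Complex.re hm
    simp only [Complex.ofReal_re, Complex.neg_re, Complex.natCast_re] at this
    have : (0 : ℝ) ≤ m := m.cast_nonneg
    linarith)
  unfold lg
  have h2 : (G ((x + 1 : ℝ) : ℂ)).re = Real.Gamma x * (G x).re := by
    push_cast
    rw [h1, Complex.Gamma_ofReal, Complex.re_ofReal_mul]
  rw [h2, Real.log_mul (Real.Gamma_pos_of_pos hx).ne' (h.re_pos hx).ne']

lemma differentiableAt_lg (h : IsBarnesG G) {x : ℝ} (hx : 0 < x) : DifferentiableAt ℝ (lg G) x :=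
  ((h.contDiff_re.contDiffAt).log (h.re_pos hx).ne').differentiableAt (by simp)

lemma differentiableAt_logGamma {x : ℝ} (hx : 0 < x) :
    DifferentiableAt ℝ (fun y => Real.log (Real.Gamma y)) x := by
  refine DifferentiableAt.log (Real.differentiableAt_Gamma fun m => ?_)
    (Real.Gamma_pos_of_pos hx).ne'
  have : (0 : ℝ) ≤ m := m.cast_nonneg
  intro h; linarith

/-- The difference equation for the derivative. -/
lemma deriv_lg_add_one (h : IsBarnesG G) {x : ℝ} (hx : 0 < x) :
    deriv (lg G) (x + 1) = deriv (fun y => Real.log (Real.Gamma y)) x + deriv (lg G) x := by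
  have h1 : (fun y => lg G (y + 1)) =ᶠ[𝓝 x]
      (fun y => Real.log (Real.Gamma y)) + lg G := by
    filter_upwards [lt_mem_nhds hx] with y hy
    exact h.lg_add_one hy
  have h2 := h1.deriv_eq
  rw [deriv_comp_add_const, deriv_add (differentiableAt_logGamma hx) (h.differentiableAt_lg hx)]
    at h2
  exact h2

lemma deriv_logGamma_add_one {x : ℝ} (hx : 0 < x) :
    deriv (fun y => Real.log (Real.Gamma y)) (x + 1) =
      1 / x + deriv (fun y => Real.log (Real.Gamma y)) x := by
  have h1 : (fun y => Real.log (Real.Gamma (y + 1))) =ᶠ[𝓝 x]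
      Real.log + (fun y => Real.log (Real.Gamma y)) := by
    filter_upwards [lt_mem_nhds hx] with y hy
    simp only [Pi.add_apply]
    rw [Real.Gamma_add_one hy.ne', Real.log_mul hy.ne' (Real.Gamma_pos_of_pos hy).ne']
  have h2 := h1.deriv_eq
  rw [deriv_comp_add_const (f := fun y => Real.log (Real.Gamma y)),
    deriv_add (Real.differentiableAt_log hx.ne') (differentiableAt_logGamma hx),
    Real.deriv_log] at h2
  rw [h2, one_div]

lemma convexOn_deriv (h : IsBarnesG G) : ConvexOn ℝ (Set.Ioi 0) (deriv (lg G)) := by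
  have hc : ContDiffOn ℝ ⊤ (deriv (lg G)) (Set.Ioi 0) :=
    h.contDiffOn_lg.deriv_of_isOpen isOpen_Ioi (by simp)
  have hc2 : ContDiffOn ℝ ⊤ (deriv (deriv (lg G))) (Set.Ioi 0) :=
    hc.deriv_of_isOpen isOpen_Ioi (by simp)
  refine convexOn_of_deriv2_nonneg (convex_Ioi 0) hc.continuousOn ?_ ?_ ?_
  · rw [interior_Ioi]; exact hc.differentiableOn (by simp)
  · rw [interior_Ioi]; exact hc2.differentiableOn (by simp)
  · rw [interior_Ioi]
    intro x hx
    have h1 := h.convex x hx
    have h2 : iteratedDeriv 3 (fun y : ℝ => Real.log (G y).re) x =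
        deriv^[2] (deriv (lg G)) x := by
      rw [iteratedDeriv_eq_iterate]
      rfl
    rw [← h2]
    exact h1

/-- Squeezing increments of the derivative. -/
lemma incr_bounds (h : IsBarnesG G) {n : ℕ} (hn : 1 ≤ n) {t : ℝ} (ht0 : 0 < t) (ht1 : t < 1) :
    t * (deriv (fun y => Real.log (Real.Gamma y)) n) ≤
      deriv (lg G) (n + 1 + t) - deriv (lg G) (n + 1) ∧
    deriv (lg G) (n + 1 + t) - deriv (lg G) (n + 1) ≤
      t * (deriv (fun y => Real.log (Real.Gamma y)) (n + 1)) := by
  have hn0 : (1 : ℝ) ≤ n := by exact_mod_cast hn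
  have hconv := h.convexOn_deriv
  have e1 := h.deriv_lg_add_one (x := n) (by linarith)
  have e2 := h.deriv_lg_add_one (x := (n : ℝ) + 1) (by linarith)
  constructor
  · have h1 := hconv.slope_mono_adjacent (x := (n : ℝ)) (y := n + 1) (z := n + 1 + t)
      (Set.mem_Ioi.mpr (by linarith)) (Set.mem_Ioi.mpr (by linarith)) (by linarith) (by linarith)
    have h2 : (n : ℝ) + 1 + t - (n + 1) = t := by ring
    have h3 : (n : ℝ) + 1 - n = 1 := by ring
    rw [h2, h3, div_one, le_div_iff₀ ht0, e1] at h1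
    rw [e1]
    linarith
  · have h1 := hconv.secant_mono (a := (n : ℝ) + 1) (x := n + 1 + t) (y := n + 1 + 1)
      (Set.mem_Ioi.mpr (by linarith)) (Set.mem_Ioi.mpr (by linarith))
      (Set.mem_Ioi.mpr (by linarith)) (by linarith) (by linarith) (by linarith)
    have h2 : (n : ℝ) + 1 + t - (n + 1) = t := by ring
    have h3 : (n : ℝ) + 1 + 1 - (n + 1) = 1 := by ring
    rw [h2, h3, div_one, div_le_iff₀ ht0, e2] at h1
    linarith

lemma eq_on_pos (h : IsBarnesG G) (h' : IsBarnesG G') {x : ℝ} (hx : 0 < x) : G x = G' x := by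
  sorry

theorem unique (h : IsBarnesG G) (h' : IsBarnesG G') : G = G' := by
  sorry

end IsBarnesG

end Sph
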