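import Pool.Agent.Hhelper97.Sph.Series

/-!
# Positivity of the coefficients
-/

open MeasureTheory Matrix Finset
open scoped ENNReal ComplexConjugate

namespace Sph

variable {n : ℕ}

theorem integrable_TP {a b ρ : ℂ} (ha : -1 < a.re) (hb : -1 < b.re) {σ : ℝ} (hσ : 0 < σ)
    (h : ‖ρ‖ ^ 2 + σ ^ 2 = 1) :
    Integrable (fun p : (Fin n × Fin n → ℂ) × (Fin n × Fin n → ℂ) =>
      W a (ρ • p.1 + (σ : ℂ) • p.2) * W b p.1) (GG n) := by
  have hρ1 : ‖ρ‖ < 1 := by nlinarith [norm_nonneg ρ]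
  have hσ0 : (σ : ℂ) ≠ 0 := by exact_mod_cast hσ.ne'
  have hT : Measurable (fun p : (Fin n × Fin n → ℂ) × (Fin n × Fin n → ℂ) =>
        ((σ : ℂ)⁻¹ • (ρ • p.1 + (σ : ℂ) • p.2), (σ : ℂ)⁻¹ • p.1)) :=
    Continuous.measurable (by fun_prop)
  have hF : Measurable (fun q : (Fin n × Fin n → ℂ) × (Fin n × Fin n → ℂ) =>
      W a ((σ : ℂ) • q.1) * W b ((σ : ℂ) • q.2)) :=
    ((measurable_W a).comp (Continuous.measurable (by fun_prop))).mul
      ((measurable_W b).comp (Continuous.measurable (by fun_prop)))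
  have hK : Measurable (fun p : (Fin n × Fin n → ℂ) × (Fin n × Fin n → ℂ) =>
      ENNReal.ofReal ((σ ^ 2) ^ Fintype.card (Fin n × Fin n) *
        Real.exp (2 * (conj ρ * ip p.1 p.2).re))) := by
    refine ENNReal.measurable_ofReal.comp (Continuous.measurable ?_)
    fun_prop
  have h1 : Integrable (fun q : (Fin n × Fin n → ℂ) × (Fin n × Fin n → ℂ) =>
      W a ((σ : ℂ) • q.1) * W b ((σ : ℂ) • q.2))
      (Measure.map (fun p : (Fin n × Fin n → ℂ) × (Fin n × Fin n → ℂ) =>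
        ((σ : ℂ)⁻¹ • (ρ • p.1 + (σ : ℂ) • p.2), (σ : ℂ)⁻¹ • p.1)) (GG n)) := by
    rw [map_tilt ρ σ hσ h, integrable_withDensity_iff_integrable_smul' hK
      (Filter.Eventually.of_forall fun x => ENNReal.ofReal_lt_top)]
    have h2 := (((integrable_exp_W (n := n) a ha hρ1).norm).mul_prod
      ((integrable_exp_W (n := n) b hb hρ1).norm)).const_mul
      ((σ ^ 2) ^ (n * n) * ‖(σ : ℂ) ^ (2 * (n * a))‖ * ‖(σ : ℂ) ^ (2 * (n * b))‖)
    refine h2.mono' (hK.ennreal_toReal.smul hF).aestronglyMeasurable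
      (Filter.Eventually.of_forall fun p => ?_)
    rw [ENNReal.toReal_ofReal (by positivity), W_smul_pos a hσ, W_smul_pos b hσ, norm_smul,
      Fintype.card_prod, Fintype.card_fin, Real.norm_of_nonneg (by positivity), norm_mul, norm_mul,
      norm_mul, norm_smul, norm_smul, Real.norm_of_nonneg (Real.exp_pos _).le,
      Real.norm_of_nonneg (Real.exp_pos _).le]
    have h3 : 2 * (conj ρ * ip p.1 p.2).re ≤ ‖ρ‖ * nsq p.1 + ‖ρ‖ * nsq p.2 := by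
      have h4 : (conj ρ * ip p.1 p.2).re ≤ ‖ρ‖ * ‖ip p.1 p.2‖ := by
        refine (Complex.re_le_norm _).trans ?_
        rw [norm_mul, RCLike.norm_conj]
      have := norm_ip_le p.1 p.2
      nlinarith [norm_nonneg ρ]
    calc (σ ^ 2) ^ (n * n) * Real.exp (2 * (conj ρ * ip p.1 p.2).re) *
          (‖(σ : ℂ) ^ (2 * (n * a))‖ * ‖W a p.1‖ * (‖(σ : ℂ) ^ (2 * (n * b))‖ * ‖W b p.2‖))
        ≤ (σ ^ 2) ^ (n * n) * Real.exp (‖ρ‖ * nsq p.1 + ‖ρ‖ * nsq p.2) *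
          (‖(σ : ℂ) ^ (2 * (n * a))‖ * ‖W a p.1‖ * (‖(σ : ℂ) ^ (2 * (n * b))‖ * ‖W b p.2‖)) := by
          gcongr
      _ = _ := by rw [Real.exp_add]; ring
  have h5 := (integrable_map_measure h1.aestronglyMeasurable hT.aemeasurable).mp h1
  refine h5.congr (Filter.Eventually.of_forall fun p => ?_)
  simp only [Function.comp_apply]
  rw [smul_smul, smul_smul, mul_inv_cancel₀ hσ0, one_smul, one_smul]

/-- The linear contraction of three Gaussian vectors to two. -/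
theorem psi_measurePreserving {c d κ : ℝ} (hc : c ^ 2 ≤ 1) (hd : d ^ 2 ≤ 1) (hκ : 0 < κ)
    (hκ2 : κ ^ 2 = 1 - c ^ 2 * d ^ 2) :
    MeasurePreserving (fun q : (Fin n × Fin n → ℂ) ×
        ((Fin n × Fin n → ℂ) × (Fin n × Fin n → ℂ)) =>
      ((d : ℂ) • q.1 + ((Real.sqrt (1 - d ^ 2) : ℝ) : ℂ) • q.2.1,
        ((-(c * Real.sqrt (1 - d ^ 2) / κ) : ℝ) : ℂ) •
          (-((Real.sqrt (1 - d ^ 2) : ℝ) : ℂ) • q.1 + conj (d : ℂ) • q.2.1) +
            ((Real.sqrt (1 - c ^ 2) / κ : ℝ) : ℂ) • q.2.2))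
      ((G (Fin n × Fin n)).prod (GG n)) (GG n) := by
  have hsd : Real.sqrt (1 - d ^ 2) ^ 2 = 1 - d ^ 2 := Real.sq_sqrt (by linarith)
  have hsc : Real.sqrt (1 - c ^ 2) ^ 2 = 1 - c ^ 2 := Real.sq_sqrt (by linarith)
  have h1 : ‖(d : ℂ)‖ ^ 2 + Real.sqrt (1 - d ^ 2) ^ 2 = 1 := by
    rw [Complex.norm_real, Real.norm_eq_abs, sq_abs, hsd]; ring
  have h2 : ‖((-(c * Real.sqrt (1 - d ^ 2) / κ) : ℝ) : ℂ)‖ ^ 2 +
      (Real.sqrt (1 - c ^ 2) / κ) ^ 2 = 1 := by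
    rw [Complex.norm_real, Real.norm_eq_abs, sq_abs, neg_sq, div_pow, div_pow, mul_pow, hsd, hsc,
      hκ2, ← add_div, div_eq_one_iff_eq]
    · ring
    · rw [← hκ2]; positivity
  have e1 : MeasurePreserving (MeasurableEquiv.prodAssoc (α := Fin n × Fin n → ℂ)
      (β := Fin n × Fin n → ℂ) (γ := Fin n × Fin n → ℂ)).symm
      ((G (Fin n × Fin n)).prod (GG n)) ((GG n).prod (G (Fin n × Fin n))) :=
    (measurePreserving_prodAssoc _ _ _).symm _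
  have e2 : MeasurePreserving (Prod.map (rotL (ι := Fin n × Fin n) (d : ℂ)
      (Real.sqrt (1 - d ^ 2))) id) ((GG n).prod (G (Fin n × Fin n)))
      ((GG n).prod (G (Fin n × Fin n))) :=
    (rot_measurePreserving _ _ h1).prod (MeasurePreserving.id _)
  have e3 : MeasurePreserving (MeasurableEquiv.prodAssoc (α := Fin n × Fin n → ℂ)
      (β := Fin n × Fin n → ℂ) (γ := Fin n × Fin n → ℂ))
      ((GG n).prod (G (Fin n × Fin n))) ((G (Fin n × Fin n)).prod (GG n)) :=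
    measurePreserving_prodAssoc _ _ _
  have e4 : MeasurePreserving (Prod.map id (fun p : (Fin n × Fin n → ℂ) × (Fin n × Fin n → ℂ) =>
      ((-(c * Real.sqrt (1 - d ^ 2) / κ) : ℝ) : ℂ) • p.1 +
        ((Real.sqrt (1 - c ^ 2) / κ : ℝ) : ℂ) • p.2))
      ((G (Fin n × Fin n)).prod (GG n)) (GG n) :=
    (MeasurePreserving.id _).prod (lin_measurePreserving _ _ h2)
  exact ((e4.comp e3).comp e2).comp e1

/-- The smoothed weight. -/
noncomputable def U (a : ℂ) (c : ℝ) (D : Fin n × Fin n → ℂ) : ℂ :=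
  ∫ C, W a ((c : ℂ) • D + ((Real.sqrt (1 - c ^ 2) : ℝ) : ℂ) • C) ∂(G (Fin n × Fin n))

theorem U_mul {a b : ℂ} (ha : -1 < a.re) (hb : -1 < b.re) {c d : ℝ} (hc0 : 0 ≤ c) (hc : c < 1)
    (hd0 : 0 ≤ d) (hd : d < 1) :
    Integrable (fun D : Fin n × Fin n → ℂ => U a c D * U b d D) (G (Fin n × Fin n)) ∧
    ∫ D : Fin n × Fin n → ℂ, U a c D * U b d D ∂(G (Fin n × Fin n)) =
      TP n a b ((c * d : ℝ) : ℂ) (Real.sqrt (1 - c ^ 2 * d ^ 2)) := by
  have hc2 : c ^ 2 < 1 := by nlinarith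
  have hd2 : d ^ 2 < 1 := by nlinarith
  have hcd : 0 < 1 - c ^ 2 * d ^ 2 := by nlinarith [sq_nonneg c, sq_nonneg d]
  set κ := Real.sqrt (1 - c ^ 2 * d ^ 2) with hκdef
  have hκ : 0 < κ := Real.sqrt_pos.mpr hcd
  have hκ2 : κ ^ 2 = 1 - c ^ 2 * d ^ 2 := Real.sq_sqrt hcd.le
  have hsd : Real.sqrt (1 - d ^ 2) ^ 2 = 1 - d ^ 2 := Real.sq_sqrt (by linarith)
  have hsc : Real.sqrt (1 - c ^ 2) ^ 2 = 1 - c ^ 2 := Real.sq_sqrt (by linarith)
  have hmp := psi_measurePreserving (n := n) hc2.le hd2.le hκ hκ2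
  have hnorm : ‖((c * d : ℝ) : ℂ)‖ ^ 2 + κ ^ 2 = 1 := by
    rw [Complex.norm_real, Real.norm_eq_abs, sq_abs, hκ2]; ring
  have hint := integrable_TP (n := n) ha hb hκ hnorm
  have hmeas : AEStronglyMeasurable (fun p : (Fin n × Fin n → ℂ) × (Fin n × Fin n → ℂ) =>
      W a (((c * d : ℝ) : ℂ) • p.1 + (κ : ℂ) • p.2) * W b p.1) (GG n) := hint.aestronglyMeasurable
  have hFint := (hmp.integrable_comp hmeas).mpr hint
  have hF : ∀ q : (Fin n × Fin n → ℂ) × ((Fin n × Fin n → ℂ) × (Fin n × Fin n → ℂ)),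
      ((fun p : (Fin n × Fin n → ℂ) × (Fin n × Fin n → ℂ) =>
      W a (((c * d : ℝ) : ℂ) • p.1 + (κ : ℂ) • p.2) * W b p.1) ∘
        (fun q : (Fin n × Fin n → ℂ) ×
        ((Fin n × Fin n → ℂ) × (Fin n × Fin n → ℂ)) =>
      ((d : ℂ) • q.1 + ((Real.sqrt (1 - d ^ 2) : ℝ) : ℂ) • q.2.1,
        ((-(c * Real.sqrt (1 - d ^ 2) / κ) : ℝ) : ℂ) •
          (-((Real.sqrt (1 - d ^ 2) : ℝ) : ℂ) • q.1 + conj (d : ℂ) • q.2.1) +
            ((Real.sqrt (1 - c ^ 2) / κ : ℝ) : ℂ) • q.2.2))) q =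
      W b ((d : ℂ) • q.1 + ((Real.sqrt (1 - d ^ 2) : ℝ) : ℂ) • q.2.1) *
        W a ((c : ℂ) • q.1 + ((Real.sqrt (1 - c ^ 2) : ℝ) : ℂ) • q.2.2) := by
    intro q
    simp only [Function.comp_apply]
    rw [mul_comm]
    congr 2
    ext i
    simp only [Pi.add_apply, Pi.smul_apply, smul_eq_mul, Complex.conj_ofReal]
    have hκc : (κ : ℂ) ≠ 0 := by exact_mod_cast hκ.ne'
    have hsdc : ((Real.sqrt (1 - d ^ 2) : ℝ) : ℂ) ^ 2 = 1 - (d : ℂ) ^ 2 := by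
      exact_mod_cast hsd
    push_cast
    field_simp
    linear_combination (c : ℂ) * q.1 i * hsdc
  have hprod : ∀ D : Fin n × Fin n → ℂ, U a c D * U b d D =
      ∫ p : (Fin n × Fin n → ℂ) × (Fin n × Fin n → ℂ),
        W b ((d : ℂ) • D + ((Real.sqrt (1 - d ^ 2) : ℝ) : ℂ) • p.1) *
        W a ((c : ℂ) • D + ((Real.sqrt (1 - c ^ 2) : ℝ) : ℂ) • p.2) ∂(GG n) := by
    intro D
    rw [integral_prod_mul (fun C => W b ((d : ℂ) • D + ((Real.sqrt (1 - d ^ 2) : ℝ) : ℂ) • C))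
      (fun C => W a ((c : ℂ) • D + ((Real.sqrt (1 - c ^ 2) : ℝ) : ℂ) • C)), mul_comm]
    rfl
  have hFint' : Integrable (fun q : (Fin n × Fin n → ℂ) ×
      ((Fin n × Fin n → ℂ) × (Fin n × Fin n → ℂ)) =>
      W b ((d : ℂ) • q.1 + ((Real.sqrt (1 - d ^ 2) : ℝ) : ℂ) • q.2.1) *
        W a ((c : ℂ) • q.1 + ((Real.sqrt (1 - c ^ 2) : ℝ) : ℂ) • q.2.2))
      ((G (Fin n × Fin n)).prod (GG n)) :=
    hFint.congr (Filter.Eventually.of_forall hF)
  constructor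
  · refine hFint'.integral_prod_left.congr (Filter.Eventually.of_forall fun D => ?_)
    exact (hprod D).symm
  · simp_rw [hprod]
    rw [← integral_prod _ hFint']
    have h6 : TP n a b ((c * d : ℝ) : ℂ) κ = ∫ q : (Fin n × Fin n → ℂ) ×
      ((Fin n × Fin n → ℂ) × (Fin n × Fin n → ℂ)),
      ((fun p : (Fin n × Fin n → ℂ) × (Fin n × Fin n → ℂ) =>
      W a (((c * d : ℝ) : ℂ) • p.1 + (κ : ℂ) • p.2) * W b p.1) ∘
        (fun q : (Fin n × Fin n → ℂ) ×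
        ((Fin n × Fin n → ℂ) × (Fin n × Fin n → ℂ)) =>
      ((d : ℂ) • q.1 + ((Real.sqrt (1 - d ^ 2) : ℝ) : ℂ) • q.2.1,
        ((-(c * Real.sqrt (1 - d ^ 2) / κ) : ℝ) : ℂ) •
          (-((Real.sqrt (1 - d ^ 2) : ℝ) : ℂ) • q.1 + conj (d : ℂ) • q.2.1) +
            ((Real.sqrt (1 - c ^ 2) / κ : ℝ) : ℂ) • q.2.2))) q
        ∂((G (Fin n × Fin n)).prod (GG n)) := by
      unfold TP
      nth_rewrite 1 [← hmp.map_eq]
      rw [integral_map hmp.measurable.aemeasurable (by rw [hmp.map_eq]; exact hmeas)]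
      rfl
    rw [h6]
    exact (integral_congr_ae (Filter.Eventually.of_forall hF)).symm

end Sph
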