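import Mathlib

/-!
# Spherical ensemble: basic definitions
-/

open MeasureTheory
open scoped ENNReal

namespace Sph

/-- The standard complex Gaussian law `N_ℂ(0,1)`: density `exp (-|z|^2) / π` with respect to
Lebesgue measure on `ℂ`. -/
noncomputable def gC : Measure ℂ :=
  (volume : Measure ℂ).withDensity fun z => ENNReal.ofReal (Real.exp (-‖z‖ ^ 2) / Real.pi)

/-- The law of a family of independent standard complex Gaussians indexed by `ι`. -/
noncomputable def G (ι : Type*) [Fintype ι] : Measure (ι → ℂ) :=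
  Measure.pi fun _ : ι => gC

/-- The matrix whose `(i, j)` entry is the coordinate indexed by `(i, j)`. -/
def mat {n : ℕ} (A : Fin n × Fin n → ℂ) : Matrix (Fin n) (Fin n) ℂ :=
  Matrix.of fun i j => A (i, j)

/-- The weight `|det A|^(2a)`. -/
noncomputable def W {n : ℕ} (a : ℂ) (A : Fin n × Fin n → ℂ) : ℂ :=
  ((‖(mat A).det‖ : ℝ) : ℂ) ^ (2 * a)

/-- The Gamma product `∏_{j=1}^n Γ(j+a)/Γ(j)`. -/
noncomputable def Z (n : ℕ) (a : ℂ) : ℂ :=
  ∏ j ∈ Finset.range n, Complex.Gamma (j + 1 + a) / Complex.Gamma (j + 1)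

end Sph
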