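import Pool.Agent.Hhelper97.Sph.Unitary

/-!
# The law of the determinant of a Ginibre matrix
-/

open MeasureTheory Matrix
open scoped ENNReal ComplexConjugate

namespace Sph

section split

variable {ι κ l : Type*} [Fintype ι] [Fintype κ] [Fintype l]

theorem G_sum (e : κ ⊕ l ≃ ι) :
    MeasurePreserving (fun p : (κ → ℂ) × (l → ℂ) => fun i => Sum.elim p.1 p.2 (e.symm i))
      ((G κ).prod (G l)) (G ι) := by
  have h1 := measurePreserving_sumPiEquivProdPi_symm (fun _ : κ ⊕ l => gC)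
  have h2 := measurePreserving_piCongrLeft (fun _ : ι => gC) e
  have h3 := h2.comp h1
  convert h3 using 1
  · ext p i
    obtain ⟨j, rfl⟩ := e.surjective i
    simp only [Equiv.symm_apply_apply, Function.comp_apply, MeasurableEquiv.coe_piCongrLeft,
      Equiv.piCongrLeft_apply_apply]
    rcases j with j | j <;> rfl
  · rfl
  · rfl

theorem G_restrict (e : κ ⊕ l ≃ ι) :
    MeasurePreserving (fun x : ι → ℂ => fun k => x (e (Sum.inl k))) (G ι) (G κ) := by
  refine ⟨by fun_prop, ?_⟩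
  rw [← (G_sum e).map_eq, Measure.map_map (by fun_prop) (G_sum e).measurable]
  have : ((fun x : ι → ℂ => fun k => x (e (Sum.inl k))) ∘
      fun p : (κ → ℂ) × (l → ℂ) => fun i => Sum.elim p.1 p.2 (e.symm i)) = Prod.fst := by
    ext p k
    simp
  rw [this]
  exact measurePreserving_fst.map_eq

end split

/-- Split off the first row. -/
def eRow (n : ℕ) : Fin (n + 1) ⊕ (Fin n × Fin (n + 1)) ≃ Fin (n + 1) × Fin (n + 1) where
  toFun := Sum.elim (fun j => (0, j)) (fun p => (p.1.succ, p.2))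
  invFun q := Fin.cases (motive := fun _ => Fin (n + 1) ⊕ (Fin n × Fin (n + 1)))
    (Sum.inl q.2) (fun i => Sum.inr (i, q.2)) q.1
  left_inv := by rintro (j | ⟨i, j⟩) <;> simp
  right_inv := by
    rintro ⟨i, j⟩
    refine Fin.cases ?_ (fun i => ?_) i <;> simp

/-- Split off the first column. -/
def eCol (n : ℕ) : (Fin n × Fin n) ⊕ Fin n ≃ Fin n × Fin (n + 1) where
  toFun := Sum.elim (fun p => (p.1, p.2.succ)) (fun i => (i, 0))
  invFun q := Fin.cases (motive := fun _ => (Fin n × Fin n) ⊕ Fin n)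
    (Sum.inr q.1) (fun j => Sum.inl (q.1, j)) q.2
  left_inv := by rintro (⟨i, j⟩ | j) <;> simp
  right_inv := by
    rintro ⟨i, j⟩
    refine Fin.cases ?_ (fun j => ?_) j <;> simp

/-- The matrix with first row `v` and remaining rows `B`. -/
def joinRow {n : ℕ} (v : Fin (n + 1) → ℂ) (B : Fin n × Fin (n + 1) → ℂ) :
    Fin (n + 1) × Fin (n + 1) → ℂ := fun q => Sum.elim v B ((eRow n).symm q)

lemma joinRow_zero {n : ℕ} (v : Fin (n + 1) → ℂ) (B : Fin n × Fin (n + 1) → ℂ)
    (j : Fin (n + 1)) : joinRow v B (0, j) = v j := rfl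

lemma joinRow_succ {n : ℕ} (v : Fin (n + 1) → ℂ) (B : Fin n × Fin (n + 1) → ℂ)
    (i : Fin n) (j : Fin (n + 1)) : joinRow v B (i.succ, j) = B (i, j) := rfl

/-- Drop the first column. -/
def dropCol {n : ℕ} (B : Fin n × Fin (n + 1) → ℂ) : Fin n × Fin n → ℂ := fun p => B (p.1, p.2.succ)

lemma norm_det_unitary {n : ℕ} (U : Matrix (Fin n) (Fin n) ℂ) (hU : U * Uᴴ = 1) :
    ‖U.det‖ = 1 := by
  have h := congrArg Matrix.det hU
  rw [det_mul, det_conjTranspose, det_one] at h
  have h2 : ‖U.det * star U.det‖ = 1 := by rw [h, norm_one]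
  rw [norm_mul, norm_star] at h2
  nlinarith [norm_nonneg U.det]

theorem norm_det_joinRow {n : ℕ} (v : Fin (n + 1) → ℂ) (B : Fin n × Fin (n + 1) → ℂ)
    (U : Matrix (Fin (n + 1)) (Fin (n + 1)) ℂ) (hU : U * Uᴴ = 1)
    (hv : v ᵥ* U = Pi.single 0 ((Real.sqrt (nsq v) : ℝ) : ℂ)) :
    ‖(mat (joinRow v B)).det‖ = Real.sqrt (nsq v) * ‖(mat (dropCol (rmulL U B))).det‖ := by
  have h1 : ‖(mat (joinRow v B) * U).det‖ = ‖(mat (joinRow v B)).det‖ := by
    rw [det_mul, norm_mul, norm_det_unitary U hU, mul_one]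
  rw [← h1, det_succ_row_zero, Fin.sum_univ_succ]
  have h2 : ∀ j, (mat (joinRow v B) * U) 0 j = (v ᵥ* U) j := by
    intro j
    rfl
  simp_rw [h2, hv]
  have h3 : (Finset.univ.sum fun i : Fin n => (-1 : ℂ) ^ ((i.succ : Fin (n + 1)) : ℕ) *
      (Pi.single 0 ((Real.sqrt (nsq v) : ℝ) : ℂ) : Fin (n + 1) → ℂ) i.succ *
        ((mat (joinRow v B) * U).submatrix Fin.succ i.succ.succAbove).det) = 0 := by
    refine Finset.sum_eq_zero fun i _ => ?_
    rw [Pi.single_apply, if_neg (Fin.succ_ne_zero i)]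
    ring
  rw [h3, add_zero, Pi.single_eq_same, Fin.val_zero, pow_zero, one_mul, norm_mul,
    Complex.norm_real, Real.norm_of_nonneg (Real.sqrt_nonneg _)]
  congr 3

@[fun_prop]
lemma continuous_det {n : ℕ} : Continuous fun A : Fin n × Fin n → ℂ => (mat A).det := by
  refine Continuous.matrix_det ?_
  unfold mat
  fun_prop

@[fun_prop]
lemma measurable_det {n : ℕ} : Measurable fun A : Fin n × Fin n → ℂ => (mat A).det :=
  continuous_det.measurable

theorem map_det (n : ℕ) :
    Measure.map (fun A : Fin (n + 1) × Fin (n + 1) → ℂ => ‖(mat A).det‖)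
        (G (Fin (n + 1) × Fin (n + 1))) =
      Measure.map (fun p : (Fin (n + 1) → ℂ) × (Fin n × Fin n → ℂ) =>
        Real.sqrt (nsq p.1) * ‖(mat p.2).det‖) ((G (Fin (n + 1))).prod (G (Fin n × Fin n))) := by
  have hm1 : Measurable (fun A : Fin (n + 1) × Fin (n + 1) → ℂ => ‖(mat A).det‖) := by fun_prop
  have hm2 : Measurable (fun p : (Fin (n + 1) → ℂ) × (Fin n × Fin n → ℂ) =>
        Real.sqrt (nsq p.1) * ‖(mat p.2).det‖) := by
    refine Continuous.measurable ?_
    refine Continuous.mul (by fun_prop) ?_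
    exact (continuous_det.comp continuous_snd).norm
  refine Measure.ext_of_lintegral _ fun φ hφ => ?_
  rw [lintegral_map hφ hm1, lintegral_map hφ hm2]
  have h1 := (G_sum (eRow n)).lintegral_comp (f := fun A => φ ‖(mat A).det‖) (hφ.comp hm1)
  rw [← h1, lintegral_prod _ (by
    exact ((hφ.comp hm1).comp (G_sum (eRow n)).measurable).aemeasurable),
    lintegral_prod (f := fun p : (Fin (n + 1) → ℂ) × (Fin n × Fin n → ℂ) =>
      φ (Real.sqrt (nsq p.1) * ‖(mat p.2).det‖)) (hφ.comp hm2).aemeasurable]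
  refine lintegral_congr fun v => ?_
  obtain ⟨U, hU1, hU2, hU3⟩ := exists_unitary v
  have h2 : ∀ B : Fin n × Fin (n + 1) → ℂ,
      φ ‖(mat fun i => Sum.elim v B ((eRow n).symm i)).det‖ =
      φ (Real.sqrt (nsq v) * ‖(mat (dropCol (rmulL U B))).det‖) := by
    intro B
    rw [← norm_det_joinRow v B U hU1 hU3]
    rfl
  simp only at h2 ⊢
  simp_rw [h2]
  have h3 : MeasurePreserving (fun B : Fin n × Fin (n + 1) → ℂ => dropCol (rmulL U B))
      (G (Fin n × Fin (n + 1))) (G (Fin n × Fin n)) :=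
    (G_restrict (eCol n)).comp (rmul_measurePreserving U hU1)
  exact h3.lintegral_comp (f := fun C => φ (Real.sqrt (nsq v) * ‖(mat C).det‖))
    (hφ.comp (by fun_prop))

end Sph
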