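import Pool.Agent.Hhelper97.Sph.VecMoment

/-!
# Moments of the determinant of a Ginibre matrix
-/

open MeasureTheory Matrix
open scoped ENNReal ComplexConjugate

namespace Sph

lemma measurable_cpow_real (c : ℂ) : Measurable fun x : ℝ => (x : ℂ) ^ c :=
  Complex.measurable_ofReal.pow_const c

@[fun_prop]
lemma measurable_W {n : ℕ} (a : ℂ) : Measurable (W a : (Fin n × Fin n → ℂ) → ℂ) := by
  unfold W
  exact (measurable_cpow_real (2 * a)).comp (by fun_prop)

theorem det_moment (n : ℕ) (a : ℂ) (ha : -1 < a.re) :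
    ∫ A : Fin n × Fin n → ℂ, W a A ∂(G (Fin n × Fin n)) = Z n a := by
  induction n with
  | zero =>
    simp only [W, Z, Matrix.det_isEmpty, norm_one, Complex.ofReal_one, Complex.one_cpow,
      integral_const, probReal_univ, one_smul, Finset.range_zero, Finset.prod_empty]
  | succ n ih =>
    have hm1 : Measurable (fun A : Fin (n + 1) × Fin (n + 1) → ℂ => ‖(mat A).det‖) := by fun_prop
    have hm2 : Measurable (fun p : (Fin (n + 1) → ℂ) × (Fin n × Fin n → ℂ) =>
        Real.sqrt (nsq p.1) * ‖(mat p.2).det‖) := by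
      refine Continuous.measurable ?_
      refine Continuous.mul (by fun_prop) ?_
      exact (continuous_det.comp continuous_snd).norm
    have h1 : ∫ A : Fin (n + 1) × Fin (n + 1) → ℂ, W a A ∂(G (Fin (n + 1) × Fin (n + 1))) =
        ∫ x : ℝ, (x : ℂ) ^ (2 * a) ∂(Measure.map (fun A : Fin (n + 1) × Fin (n + 1) → ℂ =>
          ‖(mat A).det‖) (G (Fin (n + 1) × Fin (n + 1)))) := by
      rw [integral_map hm1.aemeasurable (measurable_cpow_real _).aestronglyMeasurable]
      rfl
    rw [h1, map_det, integral_map hm2.aemeasurable (measurable_cpow_real _).aestronglyMeasurable]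
    have h2 : ∀ p : (Fin (n + 1) → ℂ) × (Fin n × Fin n → ℂ),
        ((Real.sqrt (nsq p.1) * ‖(mat p.2).det‖ : ℝ) : ℂ) ^ (2 * a) =
        ((Real.sqrt (nsq p.1) : ℝ) : ℂ) ^ (2 * a) * W a p.2 := by
      intro p
      rw [Complex.ofReal_mul, Complex.mul_cpow_ofReal_nonneg (Real.sqrt_nonneg _) (norm_nonneg _)]
      rfl
    simp_rw [h2]
    rw [integral_prod_mul (fun v : Fin (n + 1) → ℂ => ((Real.sqrt (nsq v) : ℝ) : ℂ) ^ (2 * a)), ih,
      vec_moment (n + 1) (by omega) a (by push_cast; linarith [n.cast_nonneg (α := ℝ)]), Z, Z,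
      Finset.prod_range_succ, mul_comm]
    push_cast
    ring

theorem Z_ne_zero (n : ℕ) (a : ℂ) (ha : -1 < a.re) : Z n a ≠ 0 := by
  unfold Z
  rw [Finset.prod_ne_zero_iff]
  intro j _
  refine div_ne_zero ?_ ?_
  · apply Complex.Gamma_ne_zero_of_re_pos
    simp only [Complex.add_re, Complex.natCast_re, Complex.one_re]
    linarith [j.cast_nonneg (α := ℝ)]
  · apply Complex.Gamma_ne_zero_of_re_pos
    simp only [Complex.add_re, Complex.natCast_re, Complex.one_re]
    linarith [j.cast_nonneg (α := ℝ)]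

theorem integrable_W (n : ℕ) (a : ℂ) (ha : -1 < a.re) :
    Integrable (W a : (Fin n × Fin n → ℂ) → ℂ) (G (Fin n × Fin n)) := by
  by_contra h
  have h1 := integral_undef h
  rw [det_moment n a ha] at h1
  exact Z_ne_zero n a ha h1

theorem ae_det_ne_zero (n : ℕ) : ∀ᵐ A ∂(G (Fin n × Fin n)), (mat A).det ≠ 0 := by
  induction n with
  | zero =>
    refine Filter.Eventually.of_forall fun A => ?_
    simp
  | succ n ih =>
    have hm1 : Measurable (fun A : Fin (n + 1) × Fin (n + 1) → ℂ => ‖(mat A).det‖) := by fun_prop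
    have hm2 : Measurable (fun p : (Fin (n + 1) → ℂ) × (Fin n × Fin n → ℂ) =>
        Real.sqrt (nsq p.1) * ‖(mat p.2).det‖) := by
      refine Continuous.measurable ?_
      refine Continuous.mul (by fun_prop) ?_
      exact (continuous_det.comp continuous_snd).norm
    have hme : MeasurableSet {x : ℝ | x ≠ 0} := (measurableSet_singleton (0 : ℝ)).compl
    have h1 : ∀ᵐ x ∂(Measure.map (fun A : Fin (n + 1) × Fin (n + 1) → ℂ =>
          ‖(mat A).det‖) (G (Fin (n + 1) × Fin (n + 1)))), x ≠ 0 := by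
      rw [map_det, ae_map_iff hm2.aemeasurable hme]
      have h3 : ∀ᵐ v ∂(G (Fin (n + 1))), nsq v ≠ 0 := by
        have h4 : ∀ᵐ v ∂(volume : Measure (Fin (n + 1) → ℂ)), v ≠ 0 := by
          rw [ae_iff]
          simp
        have h5 : ∀ᵐ v ∂(G (Fin (n + 1))), v ≠ 0 := by
          rw [G_eq]
          exact (withDensity_absolutelyContinuous _ _).ae_le h4
        filter_upwards [h5] with v hv h0
        apply hv
        unfold nsq at h0
        rw [Finset.sum_eq_zero_iff_of_nonneg (fun i _ => by positivity)] at h0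
        ext i
        simpa using h0 i (Finset.mem_univ i)
      have h6 : ∀ᵐ p ∂((G (Fin (n + 1))).prod (G (Fin n × Fin n))), nsq p.1 ≠ 0 :=
        Measure.quasiMeasurePreserving_fst.ae h3
      have h7 : ∀ᵐ p ∂((G (Fin (n + 1))).prod (G (Fin n × Fin n))), (mat p.2).det ≠ 0 :=
        Measure.quasiMeasurePreserving_snd.ae ih
      filter_upwards [h6, h7] with p hp1 hp2
      refine mul_ne_zero ?_ (norm_ne_zero_iff.mpr hp2)
      exact (Real.sqrt_pos.mpr (lt_of_le_of_ne (nsq_nonneg _) (Ne.symm hp1))).ne'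
    rw [ae_map_iff hm1.aemeasurable hme] at h1
    filter_upwards [h1] with A hA h0
    exact hA (by rw [h0, norm_zero])

end Sph
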