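import Pool.Agent.Hhelper97.Sph.Moments

/-!
# Exact values and polynomiality of the mixed moments
-/

open MeasureTheory Matrix Polynomial
open scoped ENNReal ComplexConjugate

namespace Sph

variable {n : ℕ}

/-- `E |det A|^(2a) |det B|^(2b) |tr (A B*)|^(2N)`. -/
noncomputable def MM (n : ℕ) (a b : ℂ) (N : ℕ) : ℂ := MR (n := n) a b Finset.univ N

lemma lagrange_eval (N : ℕ) (v : ℕ → ℂ) (hv : Set.InjOn v (Finset.range (N + 1) : Set ℕ))
    (P : ℂ[X]) (hP : P.natDegree ≤ N) (x : ℂ) :
    P.eval x = ∑ r ∈ Finset.range (N + 1),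
      (Lagrange.basis (Finset.range (N + 1)) v r).eval x * P.eval (v r) := by
  have hdeg : P.degree < (Finset.range (N + 1)).card := by
    rw [Finset.card_range]
    refine lt_of_le_of_lt degree_le_natDegree ?_
    exact_mod_cast Nat.lt_succ_of_le hP
  have h := Lagrange.eq_interpolate hv hdeg
  rw [Lagrange.interpolate_apply] at h
  nth_rewrite 1 [h]
  rw [eval_finsetSum]
  refine Finset.sum_congr rfl fun r _ => ?_
  rw [eval_mul, eval_C, mul_comm]

/-- General interpolation formula for the mixed moments. -/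
theorem MM_interp {a b : ℂ} (ha : -1 < a.re) (hb : -1 < b.re) (N : ℕ) (u : ℕ → Node n)
    (hu : Set.InjOn (fun j => ((u j).R.card : ℂ) + (u j).b) (Finset.range (N + 1) : Set ℕ)) :
    MM n a b N = Z n b * ∑ r ∈ Finset.range (N + 1),
      (Lagrange.basis (Finset.range (N + 1)) (fun j => ((u j).R.card : ℂ) + (u j).b) r).eval
        ((n : ℂ) + b) * ((Z n (u r).b)⁻¹ * MR a (u r).b (u r).R N) := by
  set v : ℕ → ℂ := fun j => ((u j).R.card : ℂ) + (u j).b with hv
  let nodes : ℕ → Node n := fun j => if j = N + 1 then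
      { b := b, R := Finset.univ, lam := -1, hb := hb, hR := Or.inr rfl }
    else
      { b := (u j).b, R := (u j).R,
        lam := (Lagrange.basis (Finset.range (N + 1)) v j).eval ((n : ℂ) + b),
        hb := (u j).hb, hR := (u j).hR }
  have hlast : nodes (N + 1) =
      { b := b, R := Finset.univ, lam := -1, hb := hb, hR := Or.inr rfl } := by
    simp [nodes]
  have hother : ∀ j ∈ Finset.range (N + 1), nodes j =
      { b := (u j).b, R := (u j).R,
        lam := (Lagrange.basis (Finset.range (N + 1)) v j).eval ((n : ℂ) + b),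
        hb := (u j).hb, hR := (u j).hR } := by
    intro j hj
    have : j ≠ N + 1 := by have := Finset.mem_range.mp hj; omega
    simp [nodes, this]
  have h := node_MR ha (Finset.range (N + 2)) nodes N ?_
  · rw [Finset.sum_range_succ, hlast] at h
    simp only at h
    have h2 : ∑ x ∈ Finset.range (N + 1), (nodes x).lam * (Z n (nodes x).b)⁻¹ *
        MR a (nodes x).b (nodes x).R N = ∑ r ∈ Finset.range (N + 1),
      (Lagrange.basis (Finset.range (N + 1)) v r).eval
        ((n : ℂ) + b) * ((Z n (u r).b)⁻¹ * MR a (u r).b (u r).R N) := by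
      refine Finset.sum_congr rfl fun j hj => ?_
      rw [hother j hj]
      simp only
      ring
    rw [h2] at h
    have hZ := Z_ne_zero n b hb
    unfold MM
    rw [add_eq_zero_iff_eq_neg] at h
    rw [h]
    field_simp
  · intro P hP
    rw [Finset.sum_range_succ, hlast]
    simp only
    rw [Finset.card_univ, Fintype.card_fin]
    have h2 : ∑ x ∈ Finset.range (N + 1), (nodes x).lam *
        P.eval (((nodes x).R.card : ℂ) + (nodes x).b) = P.eval ((n : ℂ) + b) := by
      rw [lagrange_eval N v hu P hP]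
      refine Finset.sum_congr rfl fun j hj => ?_
      rw [hother j hj]
    rw [h2]
    ring

/-- Exact value of the mixed moments of order `N ≤ n`. -/
theorem MM_exact {a b : ℂ} (ha : -1 < a.re) (hb : -1 < b.re) (N : ℕ) (hN : N ≤ n) :
    MM n a b N = N.factorial * rf ((n + a) * (n + b)) N * Z n a * Z n b := by
  let u : ℕ → Node n := fun j =>
    { b := 0, R := Finset.univ.filter fun i : Fin n => (i : ℕ) < j, lam := 0, hb := by simp,
      hR := Or.inl rfl }
  have hcard : ∀ j ∈ Finset.range (N + 1), (u j).R.card = j := by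
    intro j hj
    have hj' := Finset.mem_range.mp hj
    change (Finset.univ.filter fun i : Fin n => (i : ℕ) < j).card = j
    rw [Fin.card_filter_val_lt]
    omega
  have hub : ∀ j, (u j).b = 0 := fun j => rfl
  have hinj : Set.InjOn (fun j => ((u j).R.card : ℂ) + (u j).b)
      (Finset.range (N + 1) : Set ℕ) := by
    intro i hi j hj hij
    simp only [hub, add_zero] at hij
    rw [hcard i (by exact_mod_cast hi), hcard j (by exact_mod_cast hj)] at hij
    exact_mod_cast hij
  rw [MM_interp ha hb N u hinj]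
  -- the polynomial `X ↦ rf (X (n + a)) N`
  obtain ⟨P, hPdef⟩ : ∃ P : ℂ[X], P = ∏ k ∈ Finset.range N, (C ((n : ℂ) + a) * X + C (k : ℂ)) :=
    ⟨_, rfl⟩
  have hPev : ∀ x, P.eval x = rf (x * (n + a)) N := by
    intro x
    rw [hPdef, eval_prod, rf]
    refine Finset.prod_congr rfl fun k _ => ?_
    simp only [eval_add, eval_mul, eval_C, eval_X]
    ring
  have hPdeg : P.natDegree ≤ N := by
    rw [hPdef]
    refine (natDegree_prod_le _ _).trans ?_
    refine (Finset.sum_le_card_nsmul _ _ 1 fun k _ => ?_).trans (by simp)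
    refine (natDegree_add_le _ _).trans ?_
    rw [natDegree_C]
    refine max_le ?_ (by omega)
    exact (natDegree_C_mul_le _ _).trans natDegree_X_le
  have h2 : ∑ r ∈ Finset.range (N + 1),
      (Lagrange.basis (Finset.range (N + 1)) (fun j => ((u j).R.card : ℂ) + (u j).b) r).eval
        ((n : ℂ) + b) * ((Z n (u r).b)⁻¹ * MR a (u r).b (u r).R N) =
      N.factorial * Z n a * P.eval ((n : ℂ) + b) := by
    rw [lagrange_eval N _ hinj P hPdeg, Finset.mul_sum]
    refine Finset.sum_congr rfl fun r hr => ?_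
    rw [hub, Z_zero, MR_zero ha, hPev, inv_one, add_zero]
    ring
  rw [h2, hPev]
  ring_nf

/-- The mixed moments, normalised, are polynomials of degree at most `N` in each exponent. -/
theorem MM_poly {a : ℂ} (ha : -1 < a.re) (N : ℕ) :
    ∃ Q : ℂ[X], Q.natDegree ≤ N ∧ ∀ b : ℂ, -1 < b.re → MM n a b N = Z n b * Q.eval b := by
  let u : ℕ → Node n := fun j =>
    { b := (j : ℂ), R := Finset.univ, lam := 0, hb := by
        simp only [Complex.natCast_re]; linarith [j.cast_nonneg (α := ℝ)],
      hR := Or.inr rfl }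
  have hinj : Set.InjOn (fun j => ((u j).R.card : ℂ) + (u j).b)
      (Finset.range (N + 1) : Set ℕ) := by
    intro i _ j _ hij
    have h1 : ∀ j, (u j).b = (j : ℂ) := fun j => rfl
    have h2 : ∀ j, (u j).R = Finset.univ := fun j => rfl
    simp only [h1, h2] at hij
    exact_mod_cast add_left_cancel hij
  refine ⟨∑ r ∈ Finset.range (N + 1),
      C ((Z n (u r).b)⁻¹ * MR a (u r).b (u r).R N) *
      (Lagrange.basis (Finset.range (N + 1)) (fun j => ((u j).R.card : ℂ) + (u j).b) r).comp
        (X + C (n : ℂ)), ?_, ?_⟩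
  · refine natDegree_sum_le_of_forall_le _ _ fun r hr => ?_
    refine (natDegree_C_mul_le _ _).trans ?_
    rw [natDegree_comp, natDegree_X_add_C, mul_one, Lagrange.natDegree_basis hinj hr]
    simp
  · intro b hb
    rw [MM_interp ha hb N u hinj]
    congr 1
    rw [eval_finsetSum]
    refine Finset.sum_congr rfl fun r _ => ?_
    rw [eval_mul, eval_C, eval_comp, eval_add, eval_X, eval_C, add_comm b, mul_comm]

lemma trM_gR_univ (A B : Fin n × Fin n → ℂ) : trM (gR Finset.univ B)ᴴ A = ip A B := by
  rw [gR_univ, trM_eq, ip, Fintype.sum_prod_type]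
  rfl

lemma MM_eq (a b : ℂ) (N : ℕ) : MM n a b N =
    ∫ p : (Fin n × Fin n → ℂ) × (Fin n × Fin n → ℂ), W a p.1 * W b p.2 *
      (ip p.1 p.2 * conj (ip p.1 p.2)) ^ N ∂((G (Fin n × Fin n)).prod (G (Fin n × Fin n))) := by
  unfold MM MR
  simp_rw [trM_gR_univ]

lemma conj_ip {ι : Type*} [Fintype ι] (x y : ι → ℂ) : conj (ip x y) = ip y x := by
  unfold ip
  rw [map_sum]
  refine Finset.sum_congr rfl fun i _ => ?_
  rw [map_mul, Complex.conj_conj, mul_comm]

theorem MM_symm (a b : ℂ) (N : ℕ) : MM n a b N = MM n b a N := by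
  rw [MM_eq, MM_eq]
  rw [← integral_prod_swap]
  refine integral_congr_ae (Filter.Eventually.of_forall fun p => ?_)
  simp only [Prod.fst_swap, Prod.snd_swap]
  rw [← conj_ip p.1 p.2, Complex.conj_conj]
  ring

end Sph
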