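import Mathlib

/-!
# Extracting a power series coefficient by finite differences
-/

open Finset Filter Topology

namespace Sph

/-- Finite difference weights. -/
noncomputable def dl (N i : ℕ) : ℝ := (-1) ^ (N - i) * (N.choose i : ℝ)

lemma dl_sum_lt {N M : ℕ} (h : M < N) :
    ∑ i ∈ range (N + 1), dl N i * (i : ℝ) ^ M = 0 := by
  have h1 := congrFun (fwdDiff_iter_pow_eq_zero_of_lt (R := ℝ) h) 0
  rw [fwdDiff_iter_eq_sum_shift] at h1
  simp only [Pi.zero_apply] at h1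
  rw [← h1]
  refine Finset.sum_congr rfl fun i _ => ?_
  simp [dl]

lemma dl_sum_eq (N : ℕ) :
    ∑ i ∈ range (N + 1), dl N i * (i : ℝ) ^ N = N.factorial := by
  have h1 := congrFun (fwdDiff_iter_eq_factorial (R := ℝ) (n := N)) 0
  rw [fwdDiff_iter_eq_sum_shift] at h1
  simp only [Pi.natCast_apply] at h1
  rw [← h1]
  refine Finset.sum_congr rfl fun i _ => ?_
  simp [dl]

lemma remainder_bound {c : ℕ → ℂ} {Φ : ℝ → ℂ}
    (hΦ : ∀ t : ℝ, 0 ≤ t → t < 1 → HasSum (fun M => c M * (t : ℂ) ^ M) (Φ t)) (N : ℕ) :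
    ∃ B : ℝ, 0 ≤ B ∧ ∀ t : ℝ, 0 ≤ t → t ≤ 1 / 2 →
      ‖Φ t - ∑ M ∈ range (N + 1), c M * (t : ℂ) ^ M‖ ≤ B * t ^ (N + 1) := by
  have hs := (hΦ (1 / 2) (by norm_num) (by norm_num)).summable.norm
  have hs2 : Summable fun M => ‖c (M + (N + 1))‖ * (1 / 2 : ℝ) ^ M := by
    have h1 := ((summable_nat_add_iff (N + 1)).mpr hs).mul_right ((2 : ℝ) ^ (N + 1))
    refine h1.congr fun M => ?_
    rw [norm_mul, norm_pow, Complex.norm_real, Real.norm_of_nonneg (by norm_num), pow_add]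
    rw [mul_assoc, mul_assoc, ← mul_pow]
    norm_num
  refine ⟨∑' M, ‖c (M + (N + 1))‖ * (1 / 2 : ℝ) ^ M,
    tsum_nonneg fun M => by positivity, fun t ht0 ht => ?_⟩
  have h1 := (hasSum_nat_add_iff' (N + 1)).mpr (hΦ t ht0 (by linarith))
  rw [← h1.tsum_eq, mul_comm]
  refine tsum_of_norm_bounded (hs2.hasSum.mul_left (t ^ (N + 1))) fun M => ?_
  rw [norm_mul, norm_pow, Complex.norm_real, Real.norm_of_nonneg ht0, pow_add]
  calc ‖c (M + (N + 1))‖ * (t ^ M * t ^ (N + 1))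
      ≤ ‖c (M + (N + 1))‖ * ((1 / 2) ^ M * t ^ (N + 1)) := by gcongr
    _ = _ := by ring

/-- The second-order finite difference sum. -/
noncomputable def Sd (Φ : ℝ → ℂ) (N : ℕ) (h : ℝ) : ℂ :=
  ∑ i ∈ range (N + 1), ∑ j ∈ range (N + 1),
    ((dl N i * dl N j : ℝ) : ℂ) * Φ (i * j * h ^ 2)

theorem coeff_limit {c : ℕ → ℂ} {Φ : ℝ → ℂ}
    (hΦ : ∀ t : ℝ, 0 ≤ t → t < 1 → HasSum (fun M => c M * (t : ℂ) ^ M) (Φ t)) (N : ℕ) :
    Tendsto (fun h : ℝ => Sd Φ N h / (h : ℂ) ^ (2 * N)) (𝓝[>] 0)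
      (𝓝 (c N * (N.factorial : ℂ) ^ 2)) := by
  obtain ⟨B, hB, hrem⟩ := remainder_bound hΦ N
  -- main term
  have hmain : ∀ h : ℝ, ∑ i ∈ range (N + 1), ∑ j ∈ range (N + 1),
      ((dl N i * dl N j : ℝ) : ℂ) *
        ∑ M ∈ range (N + 1), c M * ((i * j * h ^ 2 : ℝ) : ℂ) ^ M =
      c N * (N.factorial : ℂ) ^ 2 * (h : ℂ) ^ (2 * N) := by
    intro h
    have h1 : ∀ i j : ℕ, ((dl N i * dl N j : ℝ) : ℂ) *
        ∑ M ∈ range (N + 1), c M * ((i * j * h ^ 2 : ℝ) : ℂ) ^ M =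
        ∑ M ∈ range (N + 1), c M * (h : ℂ) ^ (2 * M) *
          (((dl N i * (i : ℝ) ^ M : ℝ) : ℂ) * ((dl N j * (j : ℝ) ^ M : ℝ) : ℂ)) := by
      intro i j
      rw [Finset.mul_sum]
      refine Finset.sum_congr rfl fun M _ => ?_
      push_cast
      rw [mul_pow, mul_pow, ← pow_mul]
      ring
    simp_rw [h1]
    have h2 : ∀ i : ℕ, ∑ j ∈ range (N + 1), ∑ M ∈ range (N + 1), c M * (h : ℂ) ^ (2 * M) *
          (((dl N i * (i : ℝ) ^ M : ℝ) : ℂ) * ((dl N j * (j : ℝ) ^ M : ℝ) : ℂ)) =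
        ∑ M ∈ range (N + 1), c M * (h : ℂ) ^ (2 * M) * (((dl N i * (i : ℝ) ^ M : ℝ) : ℂ) *
          ∑ j ∈ range (N + 1), ((dl N j * (j : ℝ) ^ M : ℝ) : ℂ)) := by
      intro i
      rw [Finset.sum_comm]
      refine Finset.sum_congr rfl fun M _ => ?_
      rw [Finset.mul_sum, Finset.mul_sum]
    simp_rw [h2]
    rw [Finset.sum_comm]
    have h3 : ∀ M ∈ range (N + 1), ∑ i ∈ range (N + 1), c M * (h : ℂ) ^ (2 * M) *
        (((dl N i * (i : ℝ) ^ M : ℝ) : ℂ) *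
          ∑ j ∈ range (N + 1), ((dl N j * (j : ℝ) ^ M : ℝ) : ℂ)) =
        if M = N then c N * (N.factorial : ℂ) ^ 2 * (h : ℂ) ^ (2 * N) else 0 := by
      intro M hM
      rw [← Finset.mul_sum, ← Finset.sum_mul, ← Complex.ofReal_sum]
      split_ifs with hMN
      · subst hMN
        rw [dl_sum_eq]
        push_cast
        ring
      · have : M < N := by have := Finset.mem_range.mp hM; omega
        rw [dl_sum_lt this]
        push_cast
        ring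
    rw [Finset.sum_congr rfl h3, Finset.sum_ite_eq' (range (N + 1)) N, if_pos (by simp)]
  -- the constant in the error term
  set K : ℝ := ∑ i ∈ range (N + 1), ∑ j ∈ range (N + 1),
    |dl N i * dl N j| * (B * (i * j : ℝ) ^ (N + 1)) with hK
  have herr : ∀ᶠ h : ℝ in 𝓝[>] 0,
      ‖Sd Φ N h / (h : ℂ) ^ (2 * N) - c N * (N.factorial : ℂ) ^ 2‖ ≤ K * h ^ 2 := by
    have hlim : Tendsto (fun h : ℝ => (N : ℝ) * N * h ^ 2) (𝓝[>] 0) (𝓝 0) := by
      have : Tendsto (fun h : ℝ => (N : ℝ) * N * h ^ 2) (𝓝 0) (𝓝 ((N : ℝ) * N * 0 ^ 2)) :=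
        (Continuous.tendsto (by fun_prop) 0)
      simpa using this.mono_left nhdsWithin_le_nhds
    filter_upwards [self_mem_nhdsWithin, hlim.eventually (gt_mem_nhds (by norm_num : (0 : ℝ) < 1 / 2))]
      with h hh hsmall
    have hh' : (0 : ℝ) < h := hh
    have hhc : (h : ℂ) ^ (2 * N) ≠ 0 := pow_ne_zero _ (by exact_mod_cast hh'.ne')
    have h4 : Sd Φ N h / (h : ℂ) ^ (2 * N) - c N * (N.factorial : ℂ) ^ 2 =
        (∑ i ∈ range (N + 1), ∑ j ∈ range (N + 1), ((dl N i * dl N j : ℝ) : ℂ) *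
          (Φ (i * j * h ^ 2) - ∑ M ∈ range (N + 1), c M * ((i * j * h ^ 2 : ℝ) : ℂ) ^ M)) /
            (h : ℂ) ^ (2 * N) := by
      simp_rw [mul_sub, Finset.sum_sub_distrib]
      rw [hmain h, Sd, sub_div, mul_div_assoc, div_self hhc, mul_one]
    rw [h4, norm_div, norm_pow, Complex.norm_real, Real.norm_of_nonneg hh'.le,
      div_le_iff₀ (by positivity), hK, Finset.sum_mul, Finset.sum_mul]
    refine (norm_sum_le _ _).trans (Finset.sum_le_sum fun i hi => ?_)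
    rw [Finset.sum_mul, Finset.sum_mul]
    refine (norm_sum_le _ _).trans (Finset.sum_le_sum fun j hj => ?_)
    have hi' : (i : ℝ) ≤ N := by
      have := Finset.mem_range.mp hi
      exact_mod_cast Nat.lt_succ_iff.mp this
    have hj' : (j : ℝ) ≤ N := by
      have := Finset.mem_range.mp hj
      exact_mod_cast Nat.lt_succ_iff.mp this
    have ht : (i : ℝ) * j * h ^ 2 ≤ 1 / 2 := by
      have : (i : ℝ) * j * h ^ 2 ≤ (N : ℝ) * N * h ^ 2 := by gcongr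
      linarith
    have h5 := hrem (i * j * h ^ 2) (by positivity) ht
    rw [norm_mul, Complex.norm_real, Real.norm_eq_abs]
    calc |dl N i * dl N j| * ‖Φ (i * j * h ^ 2) -
          ∑ M ∈ range (N + 1), c M * ((i * j * h ^ 2 : ℝ) : ℂ) ^ M‖
        ≤ |dl N i * dl N j| * (B * (i * j * h ^ 2) ^ (N + 1)) := by gcongr
      _ = _ := by rw [mul_pow (i * j : ℝ), ← pow_mul]; ring
  rw [tendsto_iff_norm_sub_tendsto_zero]
  refine squeeze_zero' (Filter.Eventually.of_forall fun h => norm_nonneg _) herr ?_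
  have : Tendsto (fun h : ℝ => K * h ^ 2) (𝓝 0) (𝓝 (K * 0 ^ 2)) :=
    Continuous.tendsto (by fun_prop) 0
  simpa using this.mono_left nhdsWithin_le_nhds

end Sph
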