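import Pool.Agent.Hhelper97.Sph.Assemble

/-!
# The main theorem, given the asymptotics of the Gamma product
-/

open MeasureTheory Matrix Finset Filter Topology
open scoped ENNReal ComplexConjugate

namespace Sph

theorem final_of_asymp (Gf : ℂ → ℂ)
    (hasym : ∀ K : Set ℂ, IsCompact K → (∀ a ∈ K, |a.re| < 1) →
      TendstoUniformlyOn (fun (n : ℕ) (a : ℂ) =>
        Z n a * Z n (-a) * (n : ℂ) ^ (-(a ^ 2)) * (Gf (1 + a) * Gf (1 - a)))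
        (fun _ => 1) atTop K)
    {K Γ : Set ℂ} (hK : IsCompact K) (hΓ : IsCompact Γ) (hΓs : ∀ γ ∈ Γ, |γ.re| < 2) :
    TendstoUniformlyOn (fun (n : ℕ) (p : ℂ × ℂ) =>
      sphericalMoment n p.1 p.2 / mainTerm Gf n p.1 p.2) (fun _ => 1) atTop (K ×ˢ Γ) := by
  set Γ' : Set ℂ := (fun γ => γ / 2) '' Γ with hΓ'
  have hΓ'c : IsCompact Γ' := hΓ.image (by fun_prop)
  have hΓ's : ∀ a ∈ Γ', |a.re| < 1 := by
    rintro _ ⟨γ, hγ, rfl⟩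
    have h := hΓs γ hγ
    have : (γ / 2).re = γ.re / 2 := by simp
    rw [this, abs_div, abs_of_pos (by norm_num : (0 : ℝ) < 2), div_lt_one (by norm_num)]
    exact h
  have h1 := hasym Γ' hΓ'c hΓ's
  have h2 := factor_unif hK hΓ'c hΓ's
  rw [Metric.tendstoUniformlyOn_iff] at h1 h2 ⊢
  intro ε hε
  have hδ : 0 < min 1 (ε / 3) := by positivity
  filter_upwards [h1 _ hδ, h2 _ hδ, eventually_ge_atTop 1] with n hn1 hn2 hn
  rintro ⟨z, γ⟩ ⟨hz, hγ⟩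
  simp only at hz hγ ⊢
  have hγ' : γ / 2 ∈ Γ' := ⟨γ, hγ, rfl⟩
  have h3 := hn1 (γ / 2) hγ'
  have h4 := hn2 (z, γ / 2) ⟨hz, hγ'⟩
  have h5 := ratio_eq Gf hn z (hΓ's _ hγ')
  rw [mul_div_cancel₀ γ two_ne_zero] at h5
  simp only at h4
  rw [h5]
  rw [dist_comm, dist_eq_norm] at h3 h4 ⊢
  set x := Z n (γ / 2) * Z n (-(γ / 2)) * (n : ℂ) ^ (-((γ / 2) ^ 2)) *
    (Gf (1 + γ / 2) * Gf (1 - γ / 2)) with hx
  set y := Ph n (γ / 2) (-(γ / 2)) (‖z‖ ^ 2 / (1 + ‖z‖ ^ 2)) / (Z n (γ / 2) * Z n (-(γ / 2))) *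
    ((1 + ‖z‖ ^ 2 : ℝ) : ℂ) ^ ((γ / 2) ^ 2) with hy
  have h6 : x * y - 1 = (x - 1) * (y - 1) + (x - 1) + (y - 1) := by ring
  rw [h6]
  have h7 : ‖x - 1‖ < 1 := h3.trans_le (min_le_left _ _)
  have h8 : ‖x - 1‖ < ε / 3 := h3.trans_le (min_le_right _ _)
  have h9 : ‖y - 1‖ < ε / 3 := h4.trans_le (min_le_right _ _)
  calc ‖(x - 1) * (y - 1) + (x - 1) + (y - 1)‖ ≤ ‖x - 1‖ * ‖y - 1‖ + ‖x - 1‖ + ‖y - 1‖ := by
        refine (norm_add_le _ _).trans ?_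
        gcongr
        refine (norm_add_le _ _).trans ?_
        rw [norm_mul]
    _ < ε := by nlinarith [norm_nonneg (x - 1), norm_nonneg (y - 1)]

end Sph
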