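import Pool.Agent.Hhelper97.Sph.Defs

/-!
# A Gamma ratio bound
-/

open Filter Topology Finset

namespace Sph

/-- `Γ(s+n+1)/(n^s n!) → 1`. -/
theorem gamma_ratio_tendsto {s : ℂ} (hs : 0 < s.re) :
    Tendsto (fun n : ℕ => Complex.Gamma (s + n + 1) / ((n : ℂ) ^ s * (n.factorial : ℂ)))
      atTop (𝓝 1) := by
  have hne : Complex.Gamma s ≠ 0 := Complex.Gamma_ne_zero_of_re_pos hs
  have h1 := Complex.GammaSeq_tendsto_Gamma s
  have h2 : Tendsto (fun n : ℕ => Complex.Gamma s / Complex.GammaSeq s n) atTop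
      (𝓝 (Complex.Gamma s / Complex.Gamma s)) := tendsto_const_nhds.div h1 hne
  rw [div_self hne] at h2
  refine h2.congr' ?_
  filter_upwards [eventually_ge_atTop 1] with n hn
  have h3 : ∀ m : ℕ, Complex.Gamma (s + m + 1) =
      (∏ j ∈ range (m + 1), (s + j)) * Complex.Gamma s := by
    intro m
    induction m with
    | zero =>
      simp only [Nat.cast_zero, add_zero, zero_add, range_one, prod_singleton]
      rw [Complex.Gamma_add_one]
      intro h; rw [h] at hs; simp at hs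
    | succ m ih =>
      rw [Finset.prod_range_succ, Complex.Gamma_add_one, mul_right_comm, ← ih]
      · push_cast
        rw [← add_assoc, mul_comm]
      · intro h
        have := congrArg Complex.re h
        simp only [Complex.add_re, Complex.natCast_re, Complex.zero_re, Nat.cast_add,
          Nat.cast_one, Complex.one_re] at this
        have h5 : (0 : ℝ) ≤ m := m.cast_nonneg
        linarith
  have hprod : ∏ j ∈ range (n + 1), (s + j) ≠ 0 := by
    rw [Finset.prod_ne_zero_iff]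
    intro j _ h
    have := congrArg Complex.re h
    simp only [Complex.add_re, Complex.natCast_re, Complex.zero_re] at this
    have h5 : (0 : ℝ) ≤ j := j.cast_nonneg
    linarith
  have hn0 : (n : ℂ) ^ s ≠ 0 := Complex.cpow_ne_zero_iff.mpr
    (Or.inl (by exact_mod_cast (by omega : n ≠ 0)))
  have hf : (n.factorial : ℂ) ≠ 0 := by exact_mod_cast (Nat.factorial_pos _).ne'
  rw [h3 n, Complex.GammaSeq]
  field_simp

/-- The ratio `Γ(j+2α) Γ(j) / |Γ(j+a)|²`, `α = Re a`. -/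
noncomputable def rj (a : ℂ) (j : ℕ) : ℝ :=
  Real.Gamma (j + 2 * a.re) * Real.Gamma j / ‖Complex.Gamma (j + a)‖ ^ 2

theorem rj_tendsto {a : ℂ} (ha : -(1 / 4) ≤ a.re) :
    Tendsto (fun n : ℕ => rj a (n + 2)) atTop (𝓝 1) := by
  have h1 := (gamma_ratio_tendsto (s := ((1 + 2 * a.re : ℝ) : ℂ)) (by
    rw [Complex.ofReal_re]; linarith)).norm
  have h2 := (gamma_ratio_tendsto (s := 1) (by simp)).norm
  have h3 := (gamma_ratio_tendsto (s := 1 + a) (by
    simp only [Complex.add_re, Complex.one_re]; linarith)).norm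
  have h4 := (h1.mul h2).div (h3.pow 2) (by simp)
  simp only [norm_one, one_pow, mul_one, div_one] at h4
  refine h4.congr' ?_
  filter_upwards [eventually_ge_atTop 1] with n hn
  have hn0 : (0 : ℝ) < n := by exact_mod_cast hn
  have hf : (0 : ℝ) < (n.factorial : ℝ) := by exact_mod_cast Nat.factorial_pos _
  have hpow : ∀ s : ℂ, ‖(n : ℂ) ^ s‖ = (n : ℝ) ^ s.re := by
    intro s
    rw [← Complex.ofReal_natCast, Complex.norm_cpow_eq_rpow_re_of_pos hn0]
  simp only [Pi.div_apply, Pi.mul_apply, norm_div, norm_mul, hpow, Complex.norm_natCast,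
    Complex.ofReal_re, Complex.one_re, Complex.add_re, Real.rpow_one]
  have hG1 : ‖Complex.Gamma (((1 + 2 * a.re : ℝ) : ℂ) + n + 1)‖ =
      Real.Gamma ((n : ℝ) + 2 + 2 * a.re) := by
    have : ((1 + 2 * a.re : ℝ) : ℂ) + n + 1 = (((n : ℝ) + 2 + 2 * a.re : ℝ) : ℂ) := by
      push_cast; ring
    rw [this, Complex.Gamma_ofReal, Complex.norm_real, Real.norm_of_nonneg]
    exact (Real.Gamma_pos_of_pos (by linarith)).le
  have hG2 : ‖Complex.Gamma ((1 : ℂ) + n + 1)‖ = Real.Gamma ((n : ℝ) + 2) := by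
    have : (1 : ℂ) + n + 1 = (((n : ℝ) + 2 : ℝ) : ℂ) := by push_cast; ring
    rw [this, Complex.Gamma_ofReal, Complex.norm_real, Real.norm_of_nonneg]
    exact (Real.Gamma_pos_of_pos (by linarith)).le
  have hG3 : (1 : ℂ) + a + n + 1 = ((n + 2 : ℕ) : ℂ) + a := by push_cast; ring
  rw [hG1, hG2, hG3, rj]
  have hrp : (n : ℝ) ^ (1 + 2 * a.re) * (n : ℝ) = ((n : ℝ) ^ (1 + a.re)) ^ 2 := by
    rw [← Real.rpow_natCast ((n : ℝ) ^ (1 + a.re)) 2, ← Real.rpow_mul hn0.le,
      ← Real.rpow_add_one hn0.ne']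
    congr 1
    push_cast
    ring
  have hp1 : (0 : ℝ) < (n : ℝ) ^ (1 + 2 * a.re) := Real.rpow_pos_of_pos hn0 _
  have hp2 : (0 : ℝ) < (n : ℝ) ^ (1 + a.re) := Real.rpow_pos_of_pos hn0 _
  have hG4 : 0 < ‖Complex.Gamma (((n + 2 : ℕ) : ℂ) + a)‖ := by
    rw [norm_pos_iff]
    apply Complex.Gamma_ne_zero_of_re_pos
    simp only [Complex.add_re, Complex.natCast_re]
    push_cast
    linarith
  push_cast
  rw [div_pow, mul_pow, ← hrp]
  field_simp

theorem rj_succ {a : ℂ} (ha : -(1 / 4) ≤ a.re) {j : ℕ} (hj : 1 ≤ j) :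
    rj a j ≤ rj a (j + 1) * Real.exp (2 * ‖a‖ ^ 2 / (j : ℝ) ^ 2) := by
  have hj0 : (1 : ℝ) ≤ j := by exact_mod_cast hj
  have h1 : Real.Gamma (((j + 1 : ℕ) : ℝ) + 2 * a.re) =
      (j + 2 * a.re) * Real.Gamma (j + 2 * a.re) := by
    rw [← Real.Gamma_add_one (by linarith)]
    congr 1
    push_cast
    ring
  have h2 : Real.Gamma ((j + 1 : ℕ) : ℝ) = j * Real.Gamma j := by
    rw [← Real.Gamma_add_one (by linarith)]
    congr 1
    push_cast
    ring
  have h3 : Complex.Gamma (((j + 1 : ℕ) : ℂ) + a) = ((j : ℂ) + a) * Complex.Gamma (j + a) := by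
    rw [← Complex.Gamma_add_one]
    · congr 1
      push_cast
      ring
    · intro h
      have := congrArg Complex.re h
      simp only [Complex.add_re, Complex.natCast_re, Complex.zero_re] at this
      linarith
  have hG : 0 < ‖Complex.Gamma ((j : ℂ) + a)‖ := by
    rw [norm_pos_iff]
    apply Complex.Gamma_ne_zero_of_re_pos
    simp only [Complex.add_re, Complex.natCast_re]
    linarith
  have hja : ‖(j : ℂ) + a‖ ^ 2 = j * (j + 2 * a.re) + ‖a‖ ^ 2 := by
    rw [← Complex.normSq_eq_norm_sq, ← Complex.normSq_eq_norm_sq, Complex.normSq_apply,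
      Complex.normSq_apply]
    simp only [Complex.add_re, Complex.natCast_re, Complex.add_im, Complex.natCast_im, zero_add]
    ring
  have hpos : 0 < (j : ℝ) * (j + 2 * a.re) := by
    apply mul_pos <;> linarith
  have hrj : 0 < rj a j := by
    unfold rj
    have := Real.Gamma_pos_of_pos (show (0 : ℝ) < j + 2 * a.re by linarith)
    have := Real.Gamma_pos_of_pos (show (0 : ℝ) < j by linarith)
    positivity
  have hrel : rj a (j + 1) = rj a j * ((j : ℝ) * (j + 2 * a.re) / ‖(j : ℂ) + a‖ ^ 2) := by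
    unfold rj
    rw [h1, h2, h3, norm_mul, mul_pow]
    have : 0 < ‖(j : ℂ) + a‖ := by
      rw [norm_pos_iff]
      intro h
      have := congrArg Complex.re h
      simp only [Complex.add_re, Complex.natCast_re, Complex.zero_re] at this
      linarith
    field_simp
  rw [hrel, mul_assoc]
  refine le_mul_of_one_le_right hrj.le ?_
  rw [hja]
  have h4 : 1 + 2 * ‖a‖ ^ 2 / (j : ℝ) ^ 2 ≤ Real.exp (2 * ‖a‖ ^ 2 / (j : ℝ) ^ 2) := by
    have := Real.add_one_le_exp (2 * ‖a‖ ^ 2 / (j : ℝ) ^ 2)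
    linarith
  have h5 : (1 : ℝ) ≤ (j : ℝ) * (j + 2 * a.re) / (j * (j + 2 * a.re) + ‖a‖ ^ 2) *
      (1 + 2 * ‖a‖ ^ 2 / (j : ℝ) ^ 2) := by
    rw [div_mul_eq_mul_div, le_div_iff₀ (by positivity), one_mul]
    have h8 : (j : ℝ) * (j + 2 * a.re) * (1 + 2 * ‖a‖ ^ 2 / (j : ℝ) ^ 2) =
        (j : ℝ) * (j + 2 * a.re) + (j : ℝ) * (j + 2 * a.re) * (2 * ‖a‖ ^ 2 / (j : ℝ) ^ 2) := by
      ring
    rw [h8]
    have h6 : ‖a‖ ^ 2 ≤ (j : ℝ) * (j + 2 * a.re) * (2 * ‖a‖ ^ 2 / (j : ℝ) ^ 2) := by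
      rw [mul_div_assoc', le_div_iff₀ (by positivity)]
      have h7 : (j : ℝ) ^ 2 ≤ 2 * (j * (j + 2 * a.re)) := by nlinarith
      nlinarith [sq_nonneg ‖a‖]
    linarith
  refine h5.trans ?_
  gcongr

theorem rj_le {a : ℂ} (ha : -(1 / 4) ≤ a.re) (n : ℕ) :
    rj a (n + 1) ≤ Real.exp (4 * ‖a‖ ^ 2 / ((n : ℝ) + 1)) := by
  set v : ℕ → ℝ := fun n => rj a (n + 1) * Real.exp (-(4 * ‖a‖ ^ 2 / ((n : ℝ) + 1))) with hv
  have hmono : Monotone v := by
    refine monotone_nat_of_le_succ fun n => ?_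
    have h1 := rj_succ ha (j := n + 1) (by omega)
    have h0 : 0 ≤ rj a (n + 1 + 1) := by
      unfold rj
      have := Real.Gamma_pos_of_pos (show (0 : ℝ) < ((n + 1 + 1 : ℕ) : ℝ) + 2 * a.re by
        push_cast; linarith [n.cast_nonneg (α := ℝ)])
      have := Real.Gamma_pos_of_pos (show (0 : ℝ) < ((n + 1 + 1 : ℕ) : ℝ) by positivity)
      positivity
    simp only [hv]
    calc rj a (n + 1) * Real.exp (-(4 * ‖a‖ ^ 2 / ((n : ℝ) + 1)))
        ≤ (rj a (n + 1 + 1) * Real.exp (2 * ‖a‖ ^ 2 / ((n + 1 : ℕ) : ℝ) ^ 2)) *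
          Real.exp (-(4 * ‖a‖ ^ 2 / ((n : ℝ) + 1))) := by gcongr
      _ = rj a (n + 1 + 1) * Real.exp (2 * ‖a‖ ^ 2 / ((n + 1 : ℕ) : ℝ) ^ 2 +
          -(4 * ‖a‖ ^ 2 / ((n : ℝ) + 1))) := by rw [Real.exp_add]; ring
      _ ≤ rj a (n + 1 + 1) * Real.exp (-(4 * ‖a‖ ^ 2 / (((n + 1 : ℕ) : ℝ) + 1))) := by
          gcongr
          push_cast
          have hn : (0 : ℝ) ≤ n := n.cast_nonneg
          have h2 : 2 * ‖a‖ ^ 2 / ((n : ℝ) + 1) ^ 2 + 4 * ‖a‖ ^ 2 / ((n : ℝ) + 1 + 1) ≤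
              4 * ‖a‖ ^ 2 / ((n : ℝ) + 1) := by
            rw [div_add_div _ _ (by positivity) (by positivity), div_le_div_iff₀ (by positivity)
              (by positivity)]
            nlinarith [mul_nonneg (sq_nonneg ‖a‖) hn, mul_nonneg (sq_nonneg ‖a‖)
              (mul_nonneg hn hn), sq_nonneg ‖a‖, mul_nonneg (mul_nonneg (sq_nonneg ‖a‖) hn)
              (mul_nonneg hn hn)]
          linarith
  have hlim : Tendsto v atTop (𝓝 1) := by
    rw [← tendsto_add_atTop_iff_nat 1]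
    have h1 := rj_tendsto ha
    have h2 : Tendsto (fun n : ℕ => 4 * ‖a‖ ^ 2 / (((n + 1 : ℕ) : ℝ) + 1)) atTop (𝓝 0) := by
      refine Tendsto.const_div_atTop ?_ _
      refine tendsto_atTop_add_const_right _ _ ?_
      exact tendsto_natCast_atTop_atTop.comp (tendsto_add_atTop_nat 1)
    have h3 := (Real.continuous_exp.tendsto _).comp h2.neg
    have h4 := h1.mul h3
    simpa [hv] using h4
  have h5 := hmono.ge_of_tendsto hlim n
  simp only [hv] at h5
  rw [Real.exp_neg, ← div_eq_mul_inv, div_le_one (Real.exp_pos _)] at h5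
  exact h5

theorem Z_ratio_le {a : ℂ} (ha : -(1 / 4) ≤ a.re) (n : ℕ) :
    ‖Z n ((2 * a.re : ℝ) : ℂ)‖ / ‖Z n a‖ ^ 2 ≤ Real.exp (4 * ‖a‖ ^ 2 * (1 + Real.log n)) := by
  have h1 : ‖Z n ((2 * a.re : ℝ) : ℂ)‖ / ‖Z n a‖ ^ 2 = ∏ j ∈ range n, rj a (j + 1) := by
    unfold Z
    rw [norm_prod, norm_prod, ← Finset.prod_pow, ← Finset.prod_div_distrib]
    refine Finset.prod_congr rfl fun j _ => ?_
    have hj : (0 : ℝ) ≤ j := j.cast_nonneg
    have hG1 : ‖Complex.Gamma ((j : ℂ) + 1 + ((2 * a.re : ℝ) : ℂ))‖ =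
        Real.Gamma (((j + 1 : ℕ) : ℝ) + 2 * a.re) := by
      have : (j : ℂ) + 1 + ((2 * a.re : ℝ) : ℂ) = ((((j + 1 : ℕ) : ℝ) + 2 * a.re : ℝ) : ℂ) := by
        push_cast; ring
      rw [this, Complex.Gamma_ofReal, Complex.norm_real, Real.norm_of_nonneg]
      exact (Real.Gamma_pos_of_pos (by push_cast; linarith)).le
    have hG2 : ‖Complex.Gamma ((j : ℂ) + 1)‖ = Real.Gamma ((j + 1 : ℕ) : ℝ) := by
      have : (j : ℂ) + 1 = (((j + 1 : ℕ) : ℝ) : ℂ) := by push_cast; ring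
      rw [this, Complex.Gamma_ofReal, Complex.norm_real, Real.norm_of_nonneg]
      exact (Real.Gamma_pos_of_pos (by positivity)).le
    have hG3 : (j : ℂ) + 1 + a = ((j + 1 : ℕ) : ℂ) + a := by push_cast; ring
    rw [norm_div, norm_div, hG1, hG2, hG3, rj]
    have h2 : 0 < Real.Gamma ((j + 1 : ℕ) : ℝ) := Real.Gamma_pos_of_pos (by positivity)
    have h3 : 0 < ‖Complex.Gamma (((j + 1 : ℕ) : ℂ) + a)‖ := by
      rw [norm_pos_iff]
      apply Complex.Gamma_ne_zero_of_re_pos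
      simp only [Complex.add_re, Complex.natCast_re]
      push_cast
      linarith
    field_simp
  rw [h1]
  calc ∏ j ∈ range n, rj a (j + 1) ≤ ∏ j ∈ range n, Real.exp (4 * ‖a‖ ^ 2 / ((j : ℝ) + 1)) := by
        refine Finset.prod_le_prod (fun j _ => ?_) fun j _ => rj_le ha j
        unfold rj
        have := Real.Gamma_pos_of_pos (show (0 : ℝ) < ((j + 1 : ℕ) : ℝ) + 2 * a.re by
          push_cast; linarith [j.cast_nonneg (α := ℝ)])
        have := Real.Gamma_pos_of_pos (show (0 : ℝ) < ((j + 1 : ℕ) : ℝ) by positivity)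
        positivity
    _ = Real.exp (4 * ‖a‖ ^ 2 * (harmonic n : ℝ)) := by
        rw [← Real.exp_sum, harmonic]
        congr 1
        push_cast
        rw [Finset.mul_sum]
        refine Finset.sum_congr rfl fun j _ => ?_
        rw [div_eq_mul_inv]
    _ ≤ _ := by
        gcongr
        exact harmonic_le_one_add_log n

end Sph
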