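import Pool.Agent.Hhelper97.Sph.Defs

/-!
# Complex Gaussian vectors: density, invariances
-/

open MeasureTheory
open scoped ENNReal

namespace Sph

lemma integral_gauss_C : ∫ z : ℂ, Real.exp (-‖z‖ ^ 2) = Real.pi := by
  have h := GaussianFourier.integral_rexp_neg_mul_sq_norm (V := ℂ) (b := 1) one_pos
  simpa using h

lemma lintegral_gC_density :
    ∫⁻ z : ℂ, ENNReal.ofReal (Real.exp (-‖z‖ ^ 2) / Real.pi) = 1 := by
  have h1 : Integrable (fun z : ℂ => Real.exp (-‖z‖ ^ 2) / Real.pi) := by
    refine Integrable.div_const ?_ _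
    by_contra h
    have := integral_undef h
    rw [integral_gauss_C] at this
    exact Real.pi_ne_zero this
  rw [← ofReal_integral_eq_lintegral_ofReal h1 (Filter.Eventually.of_forall fun z => by positivity),
    integral_div, integral_gauss_C, div_self Real.pi_ne_zero, ENNReal.ofReal_one]

instance : IsProbabilityMeasure gC := by
  refine ⟨?_⟩
  rw [gC, withDensity_apply _ MeasurableSet.univ, Measure.restrict_univ, lintegral_gC_density]

instance {ι : Type*} [Fintype ι] : IsProbabilityMeasure (G ι) := by
  unfold G; infer_instance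

section pi

theorem lintegral_fin_nat_prod {n : ℕ} {E : Type*} [MeasurableSpace E] (μ : Measure E)
    [SigmaFinite μ] (f : Fin n → E → ℝ≥0∞) (hf : ∀ i, Measurable (f i)) :
    ∫⁻ x : Fin n → E, ∏ i, f i (x i) ∂(Measure.pi fun _ => μ) = ∏ i, ∫⁻ x, f i x ∂μ := by
  induction n with
  | zero => simp
  | succ n ih =>
    calc
      _ = ∫⁻ x : E × (Fin n → E), f 0 x.1 * ∏ i : Fin n, f (Fin.succ i) (x.2 i)
            ∂(μ.prod (Measure.pi fun _ => μ)) := by
          rw [← ((measurePreserving_piFinSuccAbove (fun _ : Fin (n+1) => μ) 0).symm).lintegral_comp_emb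
            (MeasurableEquiv.measurableEmbedding _)]
          simp_rw [MeasurableEquiv.piFinSuccAbove_symm_apply, Fin.insertNthEquiv,
            Fin.prod_univ_succ, Fin.insertNth_zero, Equiv.coe_fn_mk, Fin.cons_succ,
            Fin.cons_zero]
          rfl
      _ = (∫⁻ x, f 0 x ∂μ) * ∏ i : Fin n, ∫⁻ x, f (Fin.succ i) x ∂μ := by
          rw [← ih (fun i => f i.succ) (fun i => hf _)]
          exact lintegral_prod_mul (f := f 0) (g := fun x : Fin n → E => ∏ i, f (Fin.succ i) (x i))
            (hf 0).aemeasurable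
            (Finset.measurable_prod _ fun i _ => (hf _).comp (measurable_pi_apply i)).aemeasurable
      _ = _ := by rw [Fin.prod_univ_succ]

theorem lintegral_fintype_prod {ι : Type*} [Fintype ι] {E : Type*} [MeasurableSpace E]
    (μ : Measure E) [SigmaFinite μ] (f : ι → E → ℝ≥0∞) (hf : ∀ i, Measurable (f i)) :
    ∫⁻ x : ι → E, ∏ i, f i (x i) ∂(Measure.pi fun _ => μ) = ∏ i, ∫⁻ x, f i x ∂μ := by
  let e := (Fintype.equivFin ι).symm
  rw [← (measurePreserving_piCongrLeft (fun _ : ι => μ) e).lintegral_comp_emb
    (MeasurableEquiv.measurableEmbedding _)]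
  simp_rw [← e.prod_comp, MeasurableEquiv.coe_piCongrLeft]
  have := lintegral_fin_nat_prod μ (fun i => f (e i)) (fun i => hf _)
  rw [← this]
  refine lintegral_congr fun x => ?_
  refine Finset.prod_congr rfl fun i _ => ?_
  rw [Equiv.piCongrLeft_apply_apply]

end pi

variable {ι : Type*} [Fintype ι]

/-- Squared Euclidean norm. -/
noncomputable def nsq (x : ι → ℂ) : ℝ := ∑ i, ‖x i‖ ^ 2

lemma nsq_nonneg (x : ι → ℂ) : 0 ≤ nsq x := Finset.sum_nonneg fun i _ => by positivity

@[fun_prop]
lemma continuous_nsq : Continuous (nsq : (ι → ℂ) → ℝ) := by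
  unfold nsq; fun_prop

@[fun_prop]
lemma measurable_nsq : Measurable (nsq : (ι → ℂ) → ℝ) := continuous_nsq.measurable

/-- The Gaussian density. -/
noncomputable def gd (x : ι → ℂ) : ℝ := Real.exp (-nsq x) / Real.pi ^ (Fintype.card ι)

lemma gd_nonneg (x : ι → ℂ) : 0 ≤ gd x := by unfold gd; positivity

@[fun_prop]
lemma continuous_gd : Continuous (gd : (ι → ℂ) → ℝ) := by
  unfold gd; fun_prop

@[fun_prop]
lemma measurable_gd : Measurable (gd : (ι → ℂ) → ℝ) := continuous_gd.measurable

theorem G_eq : G ι = (volume : Measure (ι → ℂ)).withDensity fun x => ENNReal.ofReal (gd x) := by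
  unfold G
  refine Measure.pi_eq fun s hs => ?_
  rw [withDensity_apply _ (MeasurableSet.univ_pi hs)]
  rw [← lintegral_indicator (MeasurableSet.univ_pi hs)]
  have h1 : ∀ x : ι → ℂ, (Set.univ.pi s).indicator (fun x => ENNReal.ofReal (gd x)) x =
      ∏ i, (s i).indicator (fun z : ℂ => ENNReal.ofReal (Real.exp (-‖z‖ ^ 2) / Real.pi)) (x i) := by
    intro x
    by_cases hx : x ∈ Set.univ.pi s
    · rw [Set.indicator_of_mem hx]
      have : ∀ i, (s i).indicator (fun z : ℂ => ENNReal.ofReal (Real.exp (-‖z‖ ^ 2) / Real.pi))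
          (x i) = ENNReal.ofReal (Real.exp (-‖x i‖ ^ 2) / Real.pi) := fun i =>
        Set.indicator_of_mem (hx i (Set.mem_univ i)) _
      simp_rw [this]
      rw [← ENNReal.ofReal_prod_of_nonneg (fun i _ => by positivity)]
      congr 1
      rw [gd, nsq, Finset.prod_div_distrib, ← Real.exp_sum, ← Finset.sum_neg_distrib]
      simp
    · rw [Set.indicator_of_notMem hx]
      simp only [Set.mem_pi, Set.mem_univ, true_imp_iff, not_forall] at hx
      obtain ⟨i, hi⟩ := hx
      symm
      rw [Finset.prod_eq_zero_iff]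
      exact ⟨i, Finset.mem_univ i, Set.indicator_of_notMem hi _⟩
  simp_rw [h1]
  rw [volume_pi, lintegral_fintype_prod]
  · refine Finset.prod_congr rfl fun i _ => ?_
    rw [lintegral_indicator (hs i), gC, withDensity_apply _ (hs i)]
  · intro i
    refine Measurable.indicator ?_ (hs i)
    fun_prop

theorem integral_G {F : Type*} [NormedAddCommGroup F] [NormedSpace ℝ F] (f : (ι → ℂ) → F) :
    ∫ x, f x ∂(G ι) = ∫ x, gd x • f x := by
  rw [G_eq, integral_withDensity_eq_integral_toReal_smul (by fun_prop)
    (Filter.Eventually.of_forall fun x => ENNReal.ofReal_lt_top)]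
  refine integral_congr_ae (Filter.Eventually.of_forall fun x => ?_)
  simp only [ENNReal.toReal_ofReal (gd_nonneg x)]

/-- A linear automorphism preserving a probability density preserves the measure. -/
theorem measurePreserving_of_linear {E : Type*} [NormedAddCommGroup E] [NormedSpace ℝ E]
    [FiniteDimensional ℝ E] [MeasurableSpace E] [BorelSpace E] (μ : Measure E)
    [μ.IsAddHaarMeasure] (g : E → ℝ≥0∞) (hg : Measurable g)
    (hone : IsProbabilityMeasure (μ.withDensity g)) (L : E →ₗ[ℝ] E) (hdet : LinearMap.det L ≠ 0)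
    (hL : ∀ x, g (L x) = g x) :
    MeasurePreserving L (μ.withDensity g) (μ.withDensity g) := by
  have hmeas : Measurable L := L.continuous_of_finiteDimensional.measurable
  set c := ENNReal.ofReal |(LinearMap.det L)⁻¹| with hc
  have key : (μ.withDensity g).map L = c • μ.withDensity g := by
    refine Measure.ext fun s hs => ?_
    rw [Measure.map_apply hmeas hs, withDensity_apply _ (hmeas hs), Measure.smul_apply,
      withDensity_apply _ hs]
    rw [← lintegral_indicator (hmeas hs), ← lintegral_indicator hs]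
    have h1 : ∀ x, (L ⁻¹' s).indicator g x = (s.indicator g) (L x) := by
      intro x
      by_cases hx : L x ∈ s
      · rw [Set.indicator_of_mem hx, Set.indicator_of_mem (show x ∈ L ⁻¹' s from hx), hL]
      · rw [Set.indicator_of_notMem hx, Set.indicator_of_notMem (show x ∉ L ⁻¹' s from hx)]
    simp_rw [h1]
    rw [← lintegral_map (f := s.indicator g) (hg.indicator hs) hmeas,
      Measure.map_linearMap_addHaar_eq_smul_addHaar μ hdet, lintegral_smul_measure]
  have h1 : (μ.withDensity g).map L Set.univ = 1 := by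
    rw [Measure.map_apply hmeas MeasurableSet.univ, Set.preimage_univ]
    exact measure_univ
  rw [key, Measure.smul_apply, measure_univ, smul_eq_mul, mul_one] at h1
  refine ⟨hmeas, ?_⟩
  rw [key, h1, one_smul]

/-- Linear isometries of the coordinate space preserve the Gaussian law. -/
theorem G_measurePreserving (L : (ι → ℂ) →ₗ[ℝ] (ι → ℂ)) (hL : ∀ x, nsq (L x) = nsq x) :
    MeasurePreserving L (G ι) (G ι) := by
  have hdet : LinearMap.det L ≠ 0 := by
    intro h
    have hinj : Function.Injective L := by
      rw [← LinearMap.ker_eq_bot, LinearMap.ker_eq_bot']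
      intro x hx
      have h0 := hL x
      rw [hx] at h0
      have h1 : nsq x = 0 := by rw [← h0]; simp [nsq]
      unfold nsq at h1
      rw [Finset.sum_eq_zero_iff_of_nonneg (fun i _ => by positivity)] at h1
      ext i
      simpa using h1 i (Finset.mem_univ i)
    have := LinearMap.bot_lt_ker_of_det_eq_zero h
    rw [LinearMap.ker_eq_bot.mpr hinj] at this
    exact lt_irrefl _ this
  rw [G_eq]
  refine measurePreserving_of_linear _ _ (by fun_prop) ?_ L hdet ?_
  · rw [← G_eq]; infer_instance
  · intro x
    simp only [gd, hL]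

end Sph
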