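import Pool.Agent.Hhelper97.Sph.DetMoment

/-!
# Homogeneity of the weight, integrability of functions of polynomial growth
-/

open MeasureTheory Matrix
open scoped ENNReal ComplexConjugate

namespace Sph

section hom

variable {n : ℕ}

lemma det_sc_row (R : Finset (Fin n)) (s : ℝ) (A : Fin n × Fin n → ℂ) :
    (mat (sc (R ×ˢ Finset.univ) s A)).det = (s : ℂ) ^ R.card * (mat A).det := by
  have h : mat (sc (R ×ˢ Finset.univ) s A) =
      Matrix.diagonal (fun i => if i ∈ R then (s : ℂ) else 1) * mat A := by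
    ext i j
    rw [Matrix.diagonal_mul]
    simp only [mat, Matrix.of_apply, sc_apply, Finset.mem_product, Finset.mem_univ, and_true]
    split_ifs <;> simp
  rw [h, det_mul, det_diagonal, Finset.prod_ite_mem, Finset.univ_inter, Finset.prod_const]

lemma det_sc_col (R : Finset (Fin n)) (s : ℝ) (A : Fin n × Fin n → ℂ) :
    (mat (sc (Finset.univ ×ˢ R) s A)).det = (s : ℂ) ^ R.card * (mat A).det := by
  have h : mat (sc (Finset.univ ×ˢ R) s A) =
      mat A * Matrix.diagonal (fun i => if i ∈ R then (s : ℂ) else 1) := by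
    ext i j
    rw [Matrix.mul_diagonal]
    simp only [mat, Matrix.of_apply, sc_apply, Finset.mem_product, Finset.mem_univ, true_and]
    split_ifs
    · rw [mul_comm]
    · simp
  rw [h, det_mul, det_diagonal, Finset.prod_ite_mem, Finset.univ_inter, Finset.prod_const,
    mul_comm]

lemma norm_pow_mul_cpow {s : ℝ} (hs : 0 < s) (k : ℕ) (d : ℂ) (a : ℂ) :
    ((‖(s : ℂ) ^ k * d‖ : ℝ) : ℂ) ^ (2 * a) = (s : ℂ) ^ (2 * (k * a)) * ((‖d‖ : ℝ) : ℂ) ^ (2 * a) := by
  rw [norm_mul, norm_pow, Complex.norm_real, Real.norm_of_nonneg hs.le, Complex.ofReal_mul,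
    Complex.mul_cpow_ofReal_nonneg (pow_nonneg hs.le _) (norm_nonneg _)]
  congr 1
  have h1 : (s : ℂ) ≠ 0 := by exact_mod_cast hs.ne'
  have h2 : ((s ^ k : ℝ) : ℂ) ≠ 0 := by exact_mod_cast (pow_pos hs k).ne'
  rw [Complex.cpow_def_of_ne_zero h2, Complex.cpow_def_of_ne_zero h1,
    ← Complex.ofReal_log (pow_nonneg hs.le _), ← Complex.ofReal_log hs.le, Real.log_pow]
  congr 1
  push_cast
  ring

lemma W_sc_row (R : Finset (Fin n)) (a : ℂ) {s : ℝ} (hs : 0 < s) (A : Fin n × Fin n → ℂ) :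
    W a (sc (R ×ˢ Finset.univ) s A) = (s : ℂ) ^ (2 * (R.card * a)) * W a A := by
  unfold W
  rw [det_sc_row, norm_pow_mul_cpow hs]

lemma W_sc_col (R : Finset (Fin n)) (a : ℂ) {s : ℝ} (hs : 0 < s) (A : Fin n × Fin n → ℂ) :
    W a (sc (Finset.univ ×ˢ R) s A) = (s : ℂ) ^ (2 * (R.card * a)) * W a A := by
  unfold W
  rw [det_sc_col, norm_pow_mul_cpow hs]

lemma W_zero (A : Fin n × Fin n → ℂ) : W 0 A = 1 := by
  unfold W
  rw [mul_zero, Complex.cpow_zero]

lemma W_mul_unitary_right (a : ℂ) (U : Matrix (Fin n) (Fin n) ℂ) (hU : U * Uᴴ = 1)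
    (A : Fin n × Fin n → ℂ) : W a (rmulL U A) = W a A := by
  unfold W
  rw [mat_rmulL, det_mul, norm_mul, norm_det_unitary U hU, mul_one]

lemma W_mul_unitary_left (a : ℂ) (U : Matrix (Fin n) (Fin n) ℂ) (hU : U * Uᴴ = 1)
    (A : Fin n × Fin n → ℂ) : W a (lmulL U A) = W a A := by
  unfold W
  rw [mat_lmulL, det_mul, norm_mul, norm_det_unitary U hU, one_mul]

lemma norm_W_le (a : ℂ) (A : Fin n × Fin n → ℂ) (hA : (mat A).det ≠ 0) :
    ‖W a A‖ = ‖W (a.re : ℂ) A‖ := by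
  unfold W
  have h := norm_pos_iff.mpr hA
  rw [Complex.norm_cpow_eq_rpow_re_of_pos h, Complex.norm_cpow_eq_rpow_re_of_pos h]
  simp

lemma star_W (a : ℂ) (A : Fin n × Fin n → ℂ) : conj (W a A) = W (conj a) A := by
  unfold W
  have h := Complex.cpow_conj ((‖(mat A).det‖ : ℝ) : ℂ) (2 * a) (by
    rw [Complex.arg_ofReal_of_nonneg (norm_nonneg _)]; exact Real.pi_pos.ne)
  rw [map_mul, Complex.conj_ofReal, Complex.conj_ofNat] at h
  exact h.symm

theorem integral_exp_W (a : ℂ) {y : ℝ} (hy : -1 < y) :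
    ∫ A : Fin n × Fin n → ℂ, Real.exp (-y * nsq A) • W a A ∂(G (Fin n × Fin n)) =
      ((1 + y : ℝ) : ℂ) ^ (-((n : ℂ) * n + n * a)) *
        ∫ A : Fin n × Fin n → ℂ, W a A ∂(G (Fin n × Fin n)) := by
  have h := integral_exp_tsq (Finset.univ ×ˢ Finset.univ) (W a : (Fin n × Fin n → ℂ) → ℂ) (n * a)
    (fun s hs A => by
      rw [W_sc_row _ _ hs, Finset.card_univ, Fintype.card_fin]) hy
  rw [Finset.card_product, Finset.card_univ, Fintype.card_fin, Finset.univ_product_univ] at h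
  push_cast at h ⊢
  exact h

theorem integrable_exp_W (a : ℂ) (ha : -1 < a.re) {x : ℝ} (hx : x < 1) :
    Integrable (fun A : Fin n × Fin n → ℂ => Real.exp (x * nsq A) • W a A)
      (G (Fin n × Fin n)) := by
  by_contra h
  have h1 := integral_undef h
  have h2 := integral_exp_W (n := n) a (y := -x) (by linarith)
  rw [neg_neg, h1, det_moment n a ha] at h2
  have h3 : ((1 + -x : ℝ) : ℂ) ≠ 0 := by
    have : (1 + -x : ℝ) ≠ 0 := by linarith
    exact_mod_cast this
  exact mul_ne_zero (Complex.cpow_ne_zero_iff.mpr (Or.inl h3)) (Z_ne_zero n a ha) h2.symm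

end hom

section growth

variable {ι : Type*} [Fintype ι]

/-- Measurable functions of polynomial growth. -/
structure PG (f : (ι → ℂ) → ℂ) : Prop where
  meas : Measurable f
  bound : ∃ (C : ℝ) (k : ℕ), 0 ≤ C ∧ ∀ x, ‖f x‖ ≤ C * (1 + nsq x) ^ k

lemma one_le_one_add_nsq (x : ι → ℂ) : 1 ≤ 1 + nsq x := by linarith [nsq_nonneg x]

lemma PG.const (c : ℂ) : PG (fun _ : ι → ℂ => c) :=
  ⟨measurable_const, ‖c‖, 0, norm_nonneg _, fun x => by simp⟩

lemma PG.mul {f g : (ι → ℂ) → ℂ} (hf : PG f) (hg : PG g) : PG fun x => f x * g x := by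
  obtain ⟨C, k, hC, h1⟩ := hf.bound
  obtain ⟨D, l, hD, h2⟩ := hg.bound
  refine ⟨hf.meas.mul hg.meas, C * D, k + l, by positivity, fun x => ?_⟩
  have h3 := nsq_nonneg x
  rw [norm_mul]
  calc ‖f x‖ * ‖g x‖ ≤ (C * (1 + nsq x) ^ k) * (D * (1 + nsq x) ^ l) := by
        exact mul_le_mul (h1 x) (h2 x) (norm_nonneg _) (by positivity)
    _ = C * D * (1 + nsq x) ^ (k + l) := by rw [pow_add]; ring

lemma PG.add {f g : (ι → ℂ) → ℂ} (hf : PG f) (hg : PG g) : PG fun x => f x + g x := by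
  obtain ⟨C, k, hC, h1⟩ := hf.bound
  obtain ⟨D, l, hD, h2⟩ := hg.bound
  refine ⟨hf.meas.add hg.meas, C + D, k + l, by positivity, fun x => ?_⟩
  have h3 := one_le_one_add_nsq x
  calc ‖f x + g x‖ ≤ ‖f x‖ + ‖g x‖ := norm_add_le _ _
    _ ≤ C * (1 + nsq x) ^ k + D * (1 + nsq x) ^ l := add_le_add (h1 x) (h2 x)
    _ ≤ C * (1 + nsq x) ^ (k + l) + D * (1 + nsq x) ^ (k + l) := by
        gcongr <;> first | exact h3 | omega
    _ = _ := by ring

lemma PG.pow {f : (ι → ℂ) → ℂ} (hf : PG f) (N : ℕ) : PG fun x => f x ^ N := by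
  induction N with
  | zero => simpa using PG.const 1
  | succ N ih => simpa [pow_succ] using ih.mul hf

lemma PG.conj {f : (ι → ℂ) → ℂ} (hf : PG f) : PG fun x => conj (f x) := by
  obtain ⟨C, k, hC, h1⟩ := hf.bound
  refine ⟨Complex.continuous_conj.measurable.comp hf.meas, C, k, hC, fun x => ?_⟩
  simpa using h1 x

lemma PG.coord (i : ι) : PG fun x : ι → ℂ => x i := by
  refine ⟨measurable_pi_apply i, 1, 1, one_pos.le, fun x => ?_⟩
  have h1 : ‖x i‖ ^ 2 ≤ nsq x :=
    Finset.single_le_sum (f := fun i => ‖x i‖ ^ 2) (fun i _ => by positivity) (Finset.mem_univ i)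
  nlinarith [norm_nonneg (x i), sq_nonneg (‖x i‖ - 1)]

lemma PG.sum {κ : Type*} (s : Finset κ) {f : κ → (ι → ℂ) → ℂ} (hf : ∀ i ∈ s, PG (f i)) :
    PG fun x => ∑ i ∈ s, f i x := by
  classical
  induction s using Finset.induction_on with
  | empty => simpa using PG.const 0
  | insert a s ha ih =>
    simp_rw [Finset.sum_insert ha]
    exact (hf a (Finset.mem_insert_self _ _)).add
      (ih fun i hi => hf i (Finset.mem_insert_of_mem hi))

lemma PG.tsq (S : Finset ι) : PG fun x : ι → ℂ => ((tsq S x : ℝ) : ℂ) := by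
  have : ∀ x : ι → ℂ, ((Sph.tsq S x : ℝ) : ℂ) = ∑ i ∈ S, x i * (starRingEnd ℂ) (x i) := by
    intro x
    unfold Sph.tsq
    push_cast
    refine Finset.sum_congr rfl fun i _ => ?_
    rw [Complex.mul_conj, Complex.normSq_eq_norm_sq]
    push_cast
    rfl
  simp_rw [this]
  exact PG.sum _ fun i _ => (PG.coord i).mul (PG.coord i).conj

lemma one_add_pow_le_exp (k : ℕ) {u : ℝ} (hu : 0 ≤ u) :
    (1 + u) ^ k ≤ (2 ^ k * k.factorial * Real.exp (1 / 2)) * Real.exp (1 / 2 * u) := by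
  have h1 := Real.pow_div_factorial_le_exp ((1 + u) / 2) (by linarith) k
  rw [div_le_iff₀ (by positivity), div_pow, div_le_iff₀ (by positivity)] at h1
  calc (1 + u) ^ k ≤ Real.exp ((1 + u) / 2) * k.factorial * 2 ^ k := h1
    _ = _ := by
      rw [mul_assoc (2 ^ k * (k.factorial : ℝ)), ← Real.exp_add]
      have : (1 + u) / 2 = 1 / 2 + 1 / 2 * u := by ring
      rw [this]; ring

end growth

section integrable

variable {n : ℕ}

theorem PG.integrable_W {f : (Fin n × Fin n → ℂ) → ℂ} (hf : PG f) (a : ℂ) (ha : -1 < a.re) :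
    Integrable (fun A => W a A * f A) (G (Fin n × Fin n)) := by
  obtain ⟨C, k, hC, h1⟩ := hf.bound
  have h2 := (integrable_exp_W (n := n) a ha (x := 1 / 2) (by norm_num)).norm.const_mul
    (C * (2 ^ k * k.factorial * Real.exp (1 / 2)))
  refine h2.mono' ((measurable_W a).mul hf.meas).aestronglyMeasurable
    (Filter.Eventually.of_forall fun A => ?_)
  rw [norm_mul, norm_smul, Real.norm_of_nonneg (Real.exp_pos _).le]
  have h3 := one_add_pow_le_exp k (nsq_nonneg A)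
  calc ‖W a A‖ * ‖f A‖ ≤ ‖W a A‖ * (C * (1 + nsq A) ^ k) := by gcongr; exact h1 A
    _ ≤ ‖W a A‖ * (C * ((2 ^ k * k.factorial * Real.exp (1 / 2)) * Real.exp (1 / 2 * nsq A))) := by
        gcongr
    _ = _ := by ring

end integrable

end Sph
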