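import Pool.Agent.Hhelper97.Sph.Adj

/-!
# Polynomial growth on general spaces; matrix-valued functions; pairs
-/

open MeasureTheory Matrix
open scoped ENNReal ComplexConjugate

namespace Sph

section general

variable {Ω : Type*} [MeasurableSpace Ω]

/-- Measurable functions bounded by `C w^k`. -/
structure PGw (w : Ω → ℝ) (f : Ω → ℂ) : Prop where
  meas : Measurable f
  bound : ∃ (C : ℝ) (k : ℕ), 0 ≤ C ∧ ∀ x, ‖f x‖ ≤ C * w x ^ k

variable {w : Ω → ℝ}

lemma PGw.const (c : ℂ) : PGw w (fun _ : Ω => c) :=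
  ⟨measurable_const, ‖c‖, 0, norm_nonneg _, fun x => by simp⟩

lemma PGw.mul (hw : ∀ x, 1 ≤ w x) {f g : Ω → ℂ} (hf : PGw w f) (hg : PGw w g) :
    PGw w fun x => f x * g x := by
  obtain ⟨C, k, hC, h1⟩ := hf.bound
  obtain ⟨D, l, hD, h2⟩ := hg.bound
  refine ⟨hf.meas.mul hg.meas, C * D, k + l, by positivity, fun x => ?_⟩
  have h3 : 0 ≤ w x := by linarith [hw x]
  rw [norm_mul]
  calc ‖f x‖ * ‖g x‖ ≤ (C * w x ^ k) * (D * w x ^ l) := by
        exact mul_le_mul (h1 x) (h2 x) (norm_nonneg _) (by positivity)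
    _ = C * D * w x ^ (k + l) := by rw [pow_add]; ring

lemma PGw.add (hw : ∀ x, 1 ≤ w x) {f g : Ω → ℂ} (hf : PGw w f) (hg : PGw w g) :
    PGw w fun x => f x + g x := by
  obtain ⟨C, k, hC, h1⟩ := hf.bound
  obtain ⟨D, l, hD, h2⟩ := hg.bound
  refine ⟨hf.meas.add hg.meas, C + D, k + l, by positivity, fun x => ?_⟩
  have h3 := hw x
  calc ‖f x + g x‖ ≤ ‖f x‖ + ‖g x‖ := norm_add_le _ _
    _ ≤ C * w x ^ k + D * w x ^ l := add_le_add (h1 x) (h2 x)
    _ ≤ C * w x ^ (k + l) + D * w x ^ (k + l) := by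
        gcongr <;> first | exact h3 | omega
    _ = _ := by ring

lemma PGw.pow (hw : ∀ x, 1 ≤ w x) {f : Ω → ℂ} (hf : PGw w f) (N : ℕ) :
    PGw w fun x => f x ^ N := by
  induction N with
  | zero => simpa using PGw.const 1
  | succ N ih => simpa [pow_succ] using ih.mul hw hf

lemma PGw.conj {f : Ω → ℂ} (hf : PGw w f) : PGw w fun x => conj (f x) := by
  obtain ⟨C, k, hC, h1⟩ := hf.bound
  refine ⟨Complex.continuous_conj.measurable.comp hf.meas, C, k, hC, fun x => ?_⟩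
  simpa using h1 x

lemma PGw.sum (hw : ∀ x, 1 ≤ w x) {κ : Type*} (s : Finset κ) {f : κ → Ω → ℂ}
    (hf : ∀ i ∈ s, PGw w (f i)) : PGw w fun x => ∑ i ∈ s, f i x := by
  classical
  induction s using Finset.induction_on with
  | empty => simpa using PGw.const 0
  | insert a s ha ih =>
    simp_rw [Finset.sum_insert ha]
    exact (hf a (Finset.mem_insert_self _ _)).add hw
      (ih fun i hi => hf i (Finset.mem_insert_of_mem hi))

variable {n : ℕ}

/-- Matrix-valued functions of polynomial growth. -/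
def PGm (w : Ω → ℝ) (M : Ω → Matrix (Fin n) (Fin n) ℂ) : Prop := ∀ i j, PGw w fun x => M x i j

lemma PGm.const (M : Matrix (Fin n) (Fin n) ℂ) : PGm w fun _ => M := fun _ _ => PGw.const _

lemma PGm.mul (hw : ∀ x, 1 ≤ w x) {M M' : Ω → Matrix (Fin n) (Fin n) ℂ} (hM : PGm w M)
    (hM' : PGm w M') : PGm w fun x => M x * M' x := by
  intro i j
  simp_rw [Matrix.mul_apply]
  exact PGw.sum hw _ fun k _ => (hM i k).mul hw (hM' k j)

lemma PGm.conjTranspose {M : Ω → Matrix (Fin n) (Fin n) ℂ} (hM : PGm w M) :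
    PGm w fun x => (M x)ᴴ := by
  intro i j
  simp_rw [Matrix.conjTranspose_apply]
  exact (hM j i).conj

lemma PGm.trace (hw : ∀ x, 1 ≤ w x) {M : Ω → Matrix (Fin n) (Fin n) ℂ} (hM : PGm w M) :
    PGw w fun x => (M x).trace := by
  simp_rw [Matrix.trace, Matrix.diag_apply]
  exact PGw.sum hw _ fun k _ => hM k k

end general

section single

variable {ι : Type*} [Fintype ι]

lemma PGw.toPG {f : (ι → ℂ) → ℂ} (hf : PGw (fun x => 1 + nsq x) f) : PG f :=
  ⟨hf.meas, hf.bound⟩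

lemma PG.toPGw {f : (ι → ℂ) → ℂ} (hf : PG f) : PGw (fun x => 1 + nsq x) f :=
  ⟨hf.meas, hf.bound⟩

/-- Weight for pairs. -/
noncomputable def w2 (p : (ι → ℂ) × (ι → ℂ)) : ℝ := (1 + nsq p.1) * (1 + nsq p.2)

lemma one_le_w2 (p : (ι → ℂ) × (ι → ℂ)) : 1 ≤ w2 p := by
  unfold w2
  nlinarith [nsq_nonneg p.1, nsq_nonneg p.2, mul_nonneg (nsq_nonneg p.1) (nsq_nonneg p.2)]

lemma PG.fst {f : (ι → ℂ) → ℂ} (hf : PG f) : PGw w2 fun p : (ι → ℂ) × (ι → ℂ) => f p.1 := by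
  obtain ⟨C, k, hC, h1⟩ := hf.bound
  refine ⟨hf.meas.comp measurable_fst, C, k, hC, fun p => (h1 _).trans ?_⟩
  have h2 := nsq_nonneg p.1
  have h3 := nsq_nonneg p.2
  unfold w2
  gcongr
  nlinarith [mul_nonneg h2 h3]

lemma PG.snd {f : (ι → ℂ) → ℂ} (hf : PG f) : PGw w2 fun p : (ι → ℂ) × (ι → ℂ) => f p.2 := by
  obtain ⟨C, k, hC, h1⟩ := hf.bound
  refine ⟨hf.meas.comp measurable_snd, C, k, hC, fun p => (h1 _).trans ?_⟩
  have h2 := nsq_nonneg p.1
  have h3 := nsq_nonneg p.2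
  unfold w2
  gcongr
  nlinarith [mul_nonneg h2 h3]

variable {n : ℕ}

lemma PGm_mat : PGm (fun x : Fin n × Fin n → ℂ => 1 + nsq x) fun A => mat A :=
  fun i j => (PG.coord (i, j)).toPGw

lemma PGm_mat_fst : PGm (w2 (ι := Fin n × Fin n)) fun p => mat p.1 :=
  fun i j => (PG.coord (i, j)).fst

lemma PGm_mat_snd : PGm (w2 (ι := Fin n × Fin n)) fun p => mat p.2 :=
  fun i j => (PG.coord (i, j)).snd

theorem integrable_pair {a b : ℂ} (ha : -1 < a.re) (hb : -1 < b.re)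
    {f : (Fin n × Fin n → ℂ) × (Fin n × Fin n → ℂ) → ℂ} (hf : PGw w2 f) :
    Integrable (fun p => W a p.1 * W b p.2 * f p) ((G (Fin n × Fin n)).prod (G (Fin n × Fin n))) := by
  obtain ⟨C, k, hC, h1⟩ := hf.bound
  have hp : ∀ (c : ℂ), -1 < c.re → Integrable (fun A : Fin n × Fin n → ℂ =>
      ‖W c A * ((1 + nsq A : ℝ) : ℂ) ^ k‖) (G (Fin n × Fin n)) := by
    intro c hc
    refine Integrable.norm ?_
    refine PG.integrable_W (f := fun A => ((1 + nsq A : ℝ) : ℂ) ^ k) ?_ c hc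
    refine PG.pow ?_ k
    have : (fun A : Fin n × Fin n → ℂ => ((1 + nsq A : ℝ) : ℂ)) =
        fun A => 1 + ((tsq Finset.univ A : ℝ) : ℂ) := by
      ext A; rw [tsq_univ]; push_cast; rfl
    rw [this]
    exact (PG.const 1).add (PG.tsq _)
  have h2 := ((hp a ha).mul_prod (hp b hb)).const_mul C
  refine h2.mono' (((measurable_W a).comp measurable_fst).mul
    ((measurable_W b).comp measurable_snd) |>.mul hf.meas).aestronglyMeasurable
    (Filter.Eventually.of_forall fun p => ?_)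
  have h3 : ∀ A : Fin n × Fin n → ℂ, ‖((1 + nsq A : ℝ) : ℂ) ^ k‖ = (1 + nsq A) ^ k := by
    intro A
    rw [norm_pow, Complex.norm_real, Real.norm_of_nonneg (by linarith [nsq_nonneg A])]
  rw [norm_mul, norm_mul, norm_mul, norm_mul, h3, h3]
  calc ‖W a p.1‖ * ‖W b p.2‖ * ‖f p‖ ≤ ‖W a p.1‖ * ‖W b p.2‖ * (C * w2 p ^ k) := by
        gcongr; exact h1 p
    _ = _ := by unfold w2; rw [mul_pow]; ring

end single

end Sph
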