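import Pool.Agent.Hhelper97.Sph.Growth2

/-!
# Row moments and the interpolation identity
-/

open MeasureTheory Matrix Polynomial
open scoped ENNReal ComplexConjugate

namespace Sph

variable {n : ℕ}

/-- Squared norm of the part of row `i` in the columns `R`. -/
noncomputable def rsq (R : Finset (Fin n)) (i : Fin n) (A : Fin n × Fin n → ℂ) : ℝ :=
  tsq ({i} ×ˢ R) A

lemma rsq_sc_self (R : Finset (Fin n)) (i : Fin n) (s : ℝ) (A : Fin n × Fin n → ℂ) :
    rsq R i (sc ({i} ×ˢ R) s A) = s ^ 2 * rsq R i A := tsq_sc _ _ _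

lemma rsq_sc_ne (R : Finset (Fin n)) {i j : Fin n} (hij : j ≠ i) (s : ℝ)
    (A : Fin n × Fin n → ℂ) : rsq R j (sc ({i} ×ˢ R) s A) = rsq R j A := by
  unfold rsq tsq
  refine Finset.sum_congr rfl fun p hp => ?_
  rw [sc_apply, if_neg]
  intro h
  rw [Finset.mem_product, Finset.mem_singleton] at h hp
  exact hij (hp.1.symm.trans h.1)

/-- The universal moment polynomials. -/
noncomputable def qL : List (Fin n) → ℂ[X]
  | [] => 1
  | i :: L => (X + C (L.count i : ℂ)) * qL L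

lemma natDegree_qL (L : List (Fin n)) : (qL L).natDegree ≤ L.length := by
  induction L with
  | nil => simp [qL]
  | cons i L ih =>
    rw [qL, List.length_cons]
    refine (natDegree_mul_le).trans ?_
    have : (X + C (L.count i : ℂ) : ℂ[X]).natDegree ≤ 1 := by
      rw [natDegree_X_add_C]
    omega

/-- Product of the row moments. -/
noncomputable def TL (R : Finset (Fin n)) (L : List (Fin n)) (A : Fin n × Fin n → ℂ) : ℂ :=
  (L.map fun i => ((rsq R i A : ℝ) : ℂ)).prod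

lemma PG_TL (R : Finset (Fin n)) (L : List (Fin n)) : PG (TL R L) := by
  induction L with
  | nil =>
    have : TL R [] = fun _ => 1 := by ext A; simp [TL]
    rw [this]
    exact PG.const 1
  | cons i L ih =>
    have : TL R (i :: L) = fun A => ((tsq ({i} ×ˢ R) A : ℝ) : ℂ) * TL R L A := by
      ext A; simp [TL, rsq]
    rw [this]
    exact (PG.tsq _).mul ih

lemma TL_sc (R : Finset (Fin n)) (L : List (Fin n)) (i : Fin n) (s : ℝ)
    (A : Fin n × Fin n → ℂ) :
    TL R L (sc ({i} ×ˢ R) s A) = ((s : ℂ) ^ 2) ^ (L.count i) * TL R L A := by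
  induction L with
  | nil => simp [TL]
  | cons j L ih =>
    have h : ∀ B, TL R (j :: L) B = ((rsq R j B : ℝ) : ℂ) * TL R L B := fun B => by simp [TL]
    rw [h, h, ih]
    by_cases hij : j = i
    · subst hij
      rw [rsq_sc_self, List.count_cons_self, pow_succ]
      push_cast
      ring
    · rw [rsq_sc_ne R hij, List.count_cons_of_ne hij]
      ring

theorem list_moment {b : ℂ} (hb : -1 < b.re) (R : Finset (Fin n))
    (hR : b = 0 ∨ R = Finset.univ) (L : List (Fin n)) :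
    ∫ A, W b A * TL R L A ∂(G (Fin n × Fin n)) = (qL L).eval ((R.card : ℂ) + b) * Z n b := by
  induction L with
  | nil =>
    simp only [TL, List.map_nil, List.prod_nil, mul_one, qL, eval_one, one_mul]
    exact det_moment n b hb
  | cons i L ih =>
    have hW : ∀ s : ℝ, 0 < s → ∀ A : Fin n × Fin n → ℂ,
        W b (sc ({i} ×ˢ R) s A) = (s : ℂ) ^ (2 * b) * W b A := by
      intro s hs A
      rcases hR with h | h
      · subst h
        rw [W_zero, W_zero]; simp
      · subst h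
        rw [W_sc_row _ _ hs, Finset.card_singleton]
        simp
    have hh : ∀ s : ℝ, 0 < s → ∀ A : Fin n × Fin n → ℂ,
        W b (sc ({i} ×ˢ R) s A) * TL R L (sc ({i} ×ˢ R) s A) =
          (s : ℂ) ^ (2 * (b + (L.count i : ℂ))) * (W b A * TL R L A) := by
      intro s hs A
      have hs0 : (s : ℂ) ≠ 0 := by exact_mod_cast hs.ne'
      rw [hW s hs, TL_sc, mul_add, Complex.cpow_add _ _ hs0]
      have : (s : ℂ) ^ (2 * (L.count i : ℂ)) = ((s : ℂ) ^ 2) ^ (L.count i) := by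
        rw [← pow_mul, ← Complex.cpow_natCast]
        push_cast
        rfl
      rw [this]
      ring
    have hi := (PG_TL R L).integrable_W b hb
    have hi' : Integrable (fun A : Fin n × Fin n → ℂ => ((tsq ({i} ×ˢ R) A : ℝ) : ℂ) *
        (W b A * TL R L A)) (G (Fin n × Fin n)) := by
      have := ((PG.tsq ({i} ×ˢ R)).mul (PG_TL R L)).integrable_W b hb
      refine this.congr (Filter.Eventually.of_forall fun A => ?_)
      simp only
      ring
    have h1 := hom_moment ({i} ×ˢ R) (fun A => W b A * TL R L A) (b + (L.count i : ℂ)) hh hi hi'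
    have h2 : ∫ A, W b A * TL R (i :: L) A ∂(G (Fin n × Fin n)) =
        ∫ A, ((tsq ({i} ×ˢ R) A : ℝ) : ℂ) * (W b A * TL R L A) ∂(G (Fin n × Fin n)) := by
      refine integral_congr_ae (Filter.Eventually.of_forall fun A => ?_)
      simp only [TL, List.map_cons, List.prod_cons, rsq]
      ring
    rw [h2, h1, ih, qL, eval_mul, eval_add, eval_X, eval_C, Finset.card_product,
      Finset.card_singleton]
    push_cast
    ring

/-- The universal polynomial for a diagonal matrix. -/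
noncomputable def qD (ξ : Fin n → ℂ) (N : ℕ) : ℂ[X] :=
  ∑ p : Fin N → Fin n, C (∏ k, ξ (p k)) * qL (List.ofFn p)

lemma natDegree_qD (ξ : Fin n → ℂ) (N : ℕ) : (qD ξ N).natDegree ≤ N := by
  unfold qD
  refine natDegree_sum_le_of_forall_le _ _ fun p _ => ?_
  refine natDegree_C_mul_le _ _ |>.trans ?_
  refine (natDegree_qL _).trans ?_
  rw [List.length_ofFn]

theorem diag_moment {b : ℂ} (hb : -1 < b.re) (R : Finset (Fin n))
    (hR : b = 0 ∨ R = Finset.univ) (ξ : Fin n → ℂ) (N : ℕ) :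
    ∫ A, W b A * (∑ i, ξ i * ((rsq R i A : ℝ) : ℂ)) ^ N ∂(G (Fin n × Fin n)) =
      (qD ξ N).eval ((R.card : ℂ) + b) * Z n b := by
  have h1 : ∀ A : Fin n × Fin n → ℂ, W b A * (∑ i, ξ i * ((rsq R i A : ℝ) : ℂ)) ^ N =
      ∑ p : Fin N → Fin n, (∏ k, ξ (p k)) * (W b A * TL R (List.ofFn p) A) := by
    intro A
    rw [Fintype.sum_pow, Finset.mul_sum]
    refine Finset.sum_congr rfl fun p _ => ?_
    rw [Finset.prod_mul_distrib, TL, List.map_ofFn, List.prod_ofFn]
    simp only [Function.comp_apply]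
    ring
  simp_rw [h1]
  rw [integral_finsetSum]
  · simp_rw [integral_const_mul, list_moment hb R hR]
    rw [qD, eval_finsetSum, Finset.sum_mul]
    refine Finset.sum_congr rfl fun p _ => ?_
    rw [eval_mul, eval_C]
    ring
  · intro p _
    exact ((PG_TL R _).integrable_W b hb).const_mul _

/-- Column projection. -/
noncomputable def pr (R : Finset (Fin n)) : Matrix (Fin n) (Fin n) ℂ :=
  Matrix.diagonal fun j => if j ∈ R then 1 else 0

/-- `B` restricted to the columns `R`. -/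
noncomputable def gR (R : Finset (Fin n)) (B : Fin n × Fin n → ℂ) : Matrix (Fin n) (Fin n) ℂ :=
  mat B * pr R

lemma gR_univ (B : Fin n × Fin n → ℂ) : gR Finset.univ B = mat B := by
  unfold gR pr
  simp

lemma gR_apply (R : Finset (Fin n)) (B : Fin n × Fin n → ℂ) (i j : Fin n) :
    gR R B i j = if j ∈ R then B (i, j) else 0 := by
  unfold gR pr
  rw [Matrix.mul_diagonal]
  split_ifs <;> simp [mat]

/-- The quadratic form `tr (Ξ B Π B*)`. -/
noncomputable def TX (R : Finset (Fin n)) (Ξ : Matrix (Fin n) (Fin n) ℂ)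
    (B : Fin n × Fin n → ℂ) : ℂ := (Ξ * (gR R B * (gR R B)ᴴ)).trace

lemma PG_TX (R : Finset (Fin n)) (Ξ : Matrix (Fin n) (Fin n) ℂ) : PG (TX R Ξ) := by
  have hw : ∀ x : Fin n × Fin n → ℂ, 1 ≤ 1 + nsq x := one_le_one_add_nsq
  have h1 : PGm (fun x : Fin n × Fin n → ℂ => 1 + nsq x) (gR R) :=
    PGm_mat.mul hw (PGm.const _)
  exact (((PGm.const Ξ).mul hw (h1.mul hw h1.conjTranspose)).trace hw).toPG

lemma TX_add (R : Finset (Fin n)) (Ξ Ξ' : Matrix (Fin n) (Fin n) ℂ)
    (B : Fin n × Fin n → ℂ) : TX R (Ξ + Ξ') B = TX R Ξ B + TX R Ξ' B := by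
  unfold TX
  rw [Matrix.add_mul, Matrix.trace_add]

lemma TX_smul (R : Finset (Fin n)) (c : ℂ) (Ξ : Matrix (Fin n) (Fin n) ℂ)
    (B : Fin n × Fin n → ℂ) : TX R (c • Ξ) B = c * TX R Ξ B := by
  unfold TX
  rw [Matrix.smul_mul, Matrix.trace_smul, smul_eq_mul]

lemma TX_diag (R : Finset (Fin n)) (U : Matrix (Fin n) (Fin n) ℂ) (ξ : Fin n → ℂ)
    (B : Fin n × Fin n → ℂ) :
    TX R (U * Matrix.diagonal ξ * Uᴴ) B = ∑ i, ξ i * ((rsq R i (lmulL Uᴴ B) : ℝ) : ℂ) := by
  have h1 : Uᴴ * gR R B = gR R (lmulL Uᴴ B) := by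
    unfold gR
    rw [mat_lmulL, Matrix.mul_assoc]
  have h2 : (gR R B)ᴴ * U = (gR R (lmulL Uᴴ B))ᴴ := by
    rw [← h1, Matrix.conjTranspose_mul, Matrix.conjTranspose_conjTranspose]
  have h3 : U * Matrix.diagonal ξ * Uᴴ * (gR R B * (gR R B)ᴴ) =
      U * (Matrix.diagonal ξ * (Uᴴ * gR R B) * (gR R B)ᴴ) := by
    simp only [Matrix.mul_assoc]
  unfold TX
  rw [h3, Matrix.trace_mul_comm, Matrix.mul_assoc, h2, h1, Matrix.trace]
  refine Finset.sum_congr rfl fun i _ => ?_
  rw [Matrix.diag_apply, Matrix.mul_apply, rsq, tsq, Finset.sum_product, Finset.sum_singleton]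
  push_cast
  rw [Finset.mul_sum]
  have h4 : ∀ j, (Matrix.diagonal ξ * gR R (lmulL Uᴴ B)) i j * (gR R (lmulL Uᴴ B))ᴴ j i =
      if j ∈ R then ξ i * ((‖(lmulL Uᴴ B) (i, j)‖ : ℝ) : ℂ) ^ 2 else 0 := by
    intro j
    rw [Matrix.diagonal_mul, Matrix.conjTranspose_apply, gR_apply]
    split_ifs
    · rw [mul_assoc, RCLike.star_def, Complex.mul_conj, Complex.normSq_eq_norm_sq]
      push_cast
      rfl
    · simp
  simp_rw [h4]
  rw [Finset.sum_ite_mem, Finset.univ_inter]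

theorem herm_moment (Ξ : Matrix (Fin n) (Fin n) ℂ) (hΞ : Ξ.IsHermitian) (N : ℕ) :
    ∃ P : ℂ[X], P.natDegree ≤ N ∧ ∀ (b : ℂ) (R : Finset (Fin n)), -1 < b.re →
      (b = 0 ∨ R = Finset.univ) →
      ∫ A, W b A * TX R Ξ A ^ N ∂(G (Fin n × Fin n)) = P.eval ((R.card : ℂ) + b) * Z n b := by
  obtain ⟨U, d, hU1, hU2, hd⟩ := herm_decomp Ξ hΞ
  refine ⟨qD (fun i => (d i : ℂ)) N, natDegree_qD _ _, ?_⟩
  intro b R hb hR
  rw [← diag_moment hb R hR]
  have hU3 : Uᴴ * (Uᴴ)ᴴ = 1 := by rw [Matrix.conjTranspose_conjTranspose, hU2]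
  have hU4 : (Uᴴ)ᴴ * Uᴴ = 1 := by rw [Matrix.conjTranspose_conjTranspose, hU1]
  have h1 := lmul_measurePreserving (n := n) Uᴴ hU4
  have h2 : ∫ A, W b A * (∑ i, (d i : ℂ) * ((rsq R i A : ℝ) : ℂ)) ^ N ∂(G (Fin n × Fin n)) =
      ∫ A, (fun A => W b A * (∑ i, (d i : ℂ) * ((rsq R i A : ℝ) : ℂ)) ^ N) (lmulL Uᴴ A)
        ∂(G (Fin n × Fin n)) := by
    nth_rewrite 1 [← h1.map_eq]
    rw [integral_map h1.measurable.aemeasurable]
    refine ((measurable_W b).mul ?_).aestronglyMeasurable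
    exact ((PG.sum _ fun i _ => (PG.const _).mul (PG.tsq _)).pow N).meas
  rw [h2]
  refine integral_congr_ae (Filter.Eventually.of_forall fun A => ?_)
  simp only
  rw [W_mul_unitary_left b Uᴴ hU3, ← TX_diag, ← hd]

/-- A node of the interpolation: exponent, set of columns, and coefficient. -/
structure Node (n : ℕ) where
  b : ℂ
  R : Finset (Fin n)
  lam : ℂ
  hb : -1 < b.re
  hR : b = 0 ∨ R = Finset.univ

theorem node_TX {κ : Type*} (J : Finset κ) (v : κ → Node n) (N : ℕ)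
    (hJ : ∀ P : ℂ[X], P.natDegree ≤ N →
      ∑ j ∈ J, (v j).lam * P.eval (((v j).R.card : ℂ) + (v j).b) = 0)
    (Ξ : Matrix (Fin n) (Fin n) ℂ) :
    ∑ j ∈ J, (v j).lam * (Z n (v j).b)⁻¹ *
      ∫ B, W (v j).b B * TX (v j).R Ξ B ^ N ∂(G (Fin n × Fin n)) = 0 := by
  -- Hermitian case
  have hherm : ∀ Ξ : Matrix (Fin n) (Fin n) ℂ, Ξ.IsHermitian →
      ∑ j ∈ J, (v j).lam * (Z n (v j).b)⁻¹ *
        ∫ B, W (v j).b B * TX (v j).R Ξ B ^ N ∂(G (Fin n × Fin n)) = 0 := by
    intro Ξ hΞ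
    obtain ⟨P, hP, h⟩ := herm_moment Ξ hΞ N
    rw [← hJ P hP]
    refine Finset.sum_congr rfl fun j _ => ?_
    rw [h _ _ (v j).hb (v j).hR]
    have := Z_ne_zero n (v j).b (v j).hb
    field_simp
  obtain ⟨H, K, hH, hK, rfl⟩ := cartesian Ξ
  -- polynomial dependence
  have hpoly : ∀ j : κ, ∃ P : ℂ[X], ∀ ζ : ℂ,
      ∫ B, W (v j).b B * TX (v j).R (H + ζ • K) B ^ N ∂(G (Fin n × Fin n)) = P.eval ζ := by
    intro j
    obtain ⟨P, hP⟩ := exists_poly (v j).b (v j).hb (PG_TX (v j).R H) (PG_TX (v j).R K)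
      (PG.const 1) N
    refine ⟨P, fun ζ => ?_⟩
    rw [← hP]
    refine integral_congr_ae (Filter.Eventually.of_forall fun A => ?_)
    simp only
    rw [TX_add, TX_smul, mul_one]
  choose P hP using hpoly
  have hz : (∑ j ∈ J, C ((v j).lam * (Z n (v j).b)⁻¹) * P j) = 0 := by
    refine Polynomial.eq_of_infinite_eval_eq _ _ (infinite_reals.mono ?_)
    rintro _ ⟨x, rfl⟩
    simp only [Set.mem_ofPred_eq, eval_finsetSum, eval_mul, eval_C, eval_zero]
    simp_rw [← hP]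
    refine hherm _ ?_
    unfold Matrix.IsHermitian at *
    rw [Matrix.conjTranspose_add, Matrix.conjTranspose_smul, hH, hK]
    simp
  have h := congrArg (Polynomial.eval Complex.I) hz
  simp only [eval_finsetSum, eval_mul, eval_C, eval_zero] at h
  simp_rw [← hP] at h
  exact h

/-- The mixed moments `E_a E_b |tr (A (BΠ)*)|^(2N)`. -/
noncomputable def MR (a b : ℂ) (R : Finset (Fin n)) (N : ℕ) : ℂ :=
  ∫ p : (Fin n × Fin n → ℂ) × (Fin n × Fin n → ℂ), W a p.1 * W b p.2 *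
    (trM (gR R p.2)ᴴ p.1 * conj (trM (gR R p.2)ᴴ p.1)) ^ N
      ∂((G (Fin n × Fin n)).prod (G (Fin n × Fin n)))

lemma PGm_gR_snd (R : Finset (Fin n)) :
    PGm (w2 (ι := Fin n × Fin n)) fun p => gR R p.2 :=
  PGm_mat_snd.mul one_le_w2 (PGm.const _)

lemma PGw_trM_pair {M : (Fin n × Fin n → ℂ) × (Fin n × Fin n → ℂ) → Matrix (Fin n) (Fin n) ℂ}
    (hM : PGm w2 M) : PGw w2 fun p => trM (M p) p.1 :=
  (PGm_mat_fst.mul one_le_w2 hM).trace one_le_w2

theorem MR_eq {a b : ℂ} (ha : -1 < a.re) (hb : -1 < b.re) (R : Finset (Fin n)) (N : ℕ) :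
    MR a b R N = ∫ A, W a A * (conj (trM 1 A) ^ N *
      ∫ B, W b B * TX R (mat A) B ^ N ∂(G (Fin n × Fin n))) ∂(G (Fin n × Fin n)) := by
  have hg := PGm_gR_snd (n := n) R
  have hint1 : Integrable (fun p : (Fin n × Fin n → ℂ) × (Fin n × Fin n → ℂ) =>
      W a p.1 * W b p.2 * (trM (gR R p.2)ᴴ p.1 * conj (trM (gR R p.2)ᴴ p.1)) ^ N)
      ((G (Fin n × Fin n)).prod (G (Fin n × Fin n))) := by
    refine integrable_pair ha hb ?_
    have h1 := PGw_trM_pair hg.conjTranspose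
    exact (h1.mul one_le_w2 h1.conj).pow one_le_w2 N
  have hint2 : Integrable (fun p : (Fin n × Fin n → ℂ) × (Fin n × Fin n → ℂ) =>
      W a p.1 * W b p.2 * (trM (gR R p.2 * (gR R p.2)ᴴ) p.1 ^ N * conj (trM 1 p.1) ^ N))
      ((G (Fin n × Fin n)).prod (G (Fin n × Fin n))) := by
    refine integrable_pair ha hb ?_
    exact ((PGw_trM_pair (hg.mul one_le_w2 hg.conjTranspose)).pow one_le_w2 N).mul one_le_w2
      ((PGw_trM_pair (PGm.const 1)).conj.pow one_le_w2 N)
  have h1 : MR a b R N = ∫ p : (Fin n × Fin n → ℂ) × (Fin n × Fin n → ℂ),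
      W a p.1 * W b p.2 * (trM (gR R p.2 * (gR R p.2)ᴴ) p.1 ^ N * conj (trM 1 p.1) ^ N)
      ∂((G (Fin n × Fin n)).prod (G (Fin n × Fin n))) := by
    unfold MR
    rw [integral_prod_symm _ hint1, integral_prod_symm _ hint2]
    refine integral_congr_ae (Filter.Eventually.of_forall fun B => ?_)
    simp only
    have h2 := Cl_all ha N (gR R B) (gR R B)ᴴ 1
    rw [Matrix.mul_one] at h2
    unfold Phi at h2
    have h3 : ∀ (F : (Fin n × Fin n → ℂ) → ℂ), ∫ A, W a A * W b B * F A ∂(G (Fin n × Fin n)) =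
        W b B * ∫ A, W a A * F A ∂(G (Fin n × Fin n)) := by
      intro F
      rw [← integral_const_mul]
      refine integral_congr_ae (Filter.Eventually.of_forall fun A => ?_)
      simp only
      ring
    rw [h3 (fun A => (trM (gR R B)ᴴ A * conj (trM (gR R B)ᴴ A)) ^ N),
      h3 (fun A => trM (gR R B * (gR R B)ᴴ) A ^ N * conj (trM 1 A) ^ N), h2]
    simp_rw [mul_pow]
  rw [h1, integral_prod _ hint2]
  refine integral_congr_ae (Filter.Eventually.of_forall fun A => ?_)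
  simp only
  rw [← mul_assoc, ← integral_const_mul]
  refine integral_congr_ae (Filter.Eventually.of_forall fun B => ?_)
  simp only [trM, TX]
  ring

theorem MR_integrable {a b : ℂ} (ha : -1 < a.re) (hb : -1 < b.re) (R : Finset (Fin n)) (N : ℕ) :
    Integrable (fun A => W a A * (conj (trM 1 A) ^ N *
      ∫ B, W b B * TX R (mat A) B ^ N ∂(G (Fin n × Fin n)))) (G (Fin n × Fin n)) := by
  have hg := PGm_gR_snd (n := n) R
  have hint2 : Integrable (fun p : (Fin n × Fin n → ℂ) × (Fin n × Fin n → ℂ) =>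
      W a p.1 * W b p.2 * (trM (gR R p.2 * (gR R p.2)ᴴ) p.1 ^ N * conj (trM 1 p.1) ^ N))
      ((G (Fin n × Fin n)).prod (G (Fin n × Fin n))) := by
    refine integrable_pair ha hb ?_
    exact ((PGw_trM_pair (hg.mul one_le_w2 hg.conjTranspose)).pow one_le_w2 N).mul one_le_w2
      ((PGw_trM_pair (PGm.const 1)).conj.pow one_le_w2 N)
  refine hint2.integral_prod_left.congr (Filter.Eventually.of_forall fun A => ?_)
  simp only
  rw [← mul_assoc, ← integral_const_mul]
  refine integral_congr_ae (Filter.Eventually.of_forall fun B => ?_)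
  simp only [trM, TX]
  ring

/-- The interpolation identity for the mixed moments. -/
theorem node_MR {a : ℂ} (ha : -1 < a.re) {κ : Type*} (J : Finset κ) (v : κ → Node n) (N : ℕ)
    (hJ : ∀ P : ℂ[X], P.natDegree ≤ N →
      ∑ j ∈ J, (v j).lam * P.eval (((v j).R.card : ℂ) + (v j).b) = 0) :
    ∑ j ∈ J, (v j).lam * (Z n (v j).b)⁻¹ * MR a (v j).b (v j).R N = 0 := by
  have h1 : ∀ j, (v j).lam * (Z n (v j).b)⁻¹ * MR a (v j).b (v j).R N =
      ∫ A, (v j).lam * (Z n (v j).b)⁻¹ * (W a A * (conj (trM 1 A) ^ N *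
      ∫ B, W (v j).b B * TX (v j).R (mat A) B ^ N ∂(G (Fin n × Fin n)))) ∂(G (Fin n × Fin n)) := by
    intro j
    rw [MR_eq ha (v j).hb, integral_const_mul]
  simp_rw [h1]
  rw [← integral_finsetSum]
  · rw [← integral_zero (Fin n × Fin n → ℂ) ℂ (μ := G (Fin n × Fin n))]
    refine integral_congr_ae (Filter.Eventually.of_forall fun A => ?_)
    have h2 := node_TX J v N hJ (mat A)
    simp only
    have h3 : ∀ j ∈ J, (v j).lam * (Z n (v j).b)⁻¹ * (W a A * (conj (trM 1 A) ^ N *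
        ∫ B, W (v j).b B * TX (v j).R (mat A) B ^ N ∂(G (Fin n × Fin n)))) =
        (W a A * conj (trM 1 A) ^ N) * ((v j).lam * (Z n (v j).b)⁻¹ *
        ∫ B, W (v j).b B * TX (v j).R (mat A) B ^ N ∂(G (Fin n × Fin n))) := by
      intro j _; ring
    rw [Finset.sum_congr rfl h3, ← Finset.mul_sum, h2, mul_zero]
  · intro j _
    exact (MR_integrable ha (v j).hb (v j).R N).const_mul _

end Sph
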