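import Pool.Agent.Hhelper97.Sph.Exact

/-!
# Mehler-type expansion of the two-point function
-/

open MeasureTheory Matrix
open scoped ENNReal ComplexConjugate

namespace Sph

variable {n : ℕ}

/-- The Gaussian law of a pair of matrices. -/
noncomputable abbrev GG (n : ℕ) : Measure ((Fin n × Fin n → ℂ) × (Fin n × Fin n → ℂ)) :=
  (G (Fin n × Fin n)).prod (G (Fin n × Fin n))

lemma mat_smul (c : ℂ) (A : Fin n × Fin n → ℂ) : mat (c • A) = c • mat A := by
  ext i j; rfl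

lemma W_smul_pos (a : ℂ) {s : ℝ} (hs : 0 < s) (A : Fin n × Fin n → ℂ) :
    W a ((s : ℂ) • A) = (s : ℂ) ^ (2 * (n * a)) * W a A := by
  unfold W
  rw [mat_smul, det_smul, Fintype.card_fin, norm_pow_mul_cpow hs]

lemma W_smul_unit (a : ℂ) {ζ : ℂ} (hζ : ‖ζ‖ = 1) (A : Fin n × Fin n → ℂ) :
    W a (ζ • A) = W a A := by
  unfold W
  rw [mat_smul, det_smul, norm_mul, norm_pow, hζ, one_pow, one_mul]

lemma ip_smul_left {ι : Type*} [Fintype ι] (c : ℂ) (x y : ι → ℂ) :
    ip (c • x) y = c * ip x y := by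
  unfold ip
  rw [Finset.mul_sum]
  refine Finset.sum_congr rfl fun i _ => ?_
  rw [Pi.smul_apply, smul_eq_mul, mul_assoc]

lemma norm_ip_le {ι : Type*} [Fintype ι] (x y : ι → ℂ) : 2 * ‖ip x y‖ ≤ nsq x + nsq y := by
  unfold ip nsq
  calc 2 * ‖∑ i, x i * conj (y i)‖ ≤ 2 * ∑ i, ‖x i‖ * ‖y i‖ := by
        gcongr
        refine (norm_sum_le _ _).trans (le_of_eq ?_)
        refine Finset.sum_congr rfl fun i _ => ?_
        rw [norm_mul, RCLike.norm_conj]
    _ ≤ ∑ i, (‖x i‖ ^ 2 + ‖y i‖ ^ 2) := by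
        rw [Finset.mul_sum]
        refine Finset.sum_le_sum fun i _ => ?_
        nlinarith [sq_nonneg (‖x i‖ - ‖y i‖)]
    _ = _ := Finset.sum_add_distrib

lemma PGw_ip : PGw (w2 (ι := Fin n × Fin n)) fun p => ip p.1 p.2 := by
  unfold ip
  exact PGw.sum one_le_w2 _ fun i _ => ((PG.coord i).fst).mul one_le_w2 (PG.coord i).snd.conj

/-- Off-diagonal terms vanish. -/
theorem phase_zero {a b : ℂ} {k l : ℕ} (hkl : k ≠ l) :
    ∫ p, W a p.1 * W b p.2 * (ip p.1 p.2 ^ k * conj (ip p.1 p.2) ^ l) ∂(GG n) = 0 := by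
  set m : ℝ := (k : ℝ) - l with hm
  have hm0 : m ≠ 0 := sub_ne_zero.mpr (by exact_mod_cast hkl)
  set ζ : ℂ := Complex.exp (((Real.pi / m : ℝ) : ℂ) * Complex.I) with hζdef
  have hζ : ‖ζ‖ = 1 := Complex.norm_exp_ofReal_mul_I _
  have hmp1 : MeasurePreserving (fun x : Fin n × Fin n → ℂ => ζ • x)
      (G (Fin n × Fin n)) (G (Fin n × Fin n)) := by
    let L : (Fin n × Fin n → ℂ) →ₗ[ℝ] (Fin n × Fin n → ℂ) :=
      (ζ • (LinearMap.id : (Fin n × Fin n → ℂ) →ₗ[ℂ] (Fin n × Fin n → ℂ))).restrictScalars ℝ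
    exact G_measurePreserving L (fun x => by
      change nsq (ζ • x) = nsq x
      rw [nsq_smul, hζ]; ring)
  have hmp : MeasurePreserving (fun p : (Fin n × Fin n → ℂ) × (Fin n × Fin n → ℂ) =>
      (ζ • p.1, p.2)) (GG n) (GG n) := hmp1.prod (MeasurePreserving.id _)
  set I := ∫ p, W a p.1 * W b p.2 * (ip p.1 p.2 ^ k * conj (ip p.1 p.2) ^ l) ∂(GG n) with hI
  have h1 : I = (ζ ^ k * conj ζ ^ l) * I := by
    have h2 : I = ∫ p, (fun p : (Fin n × Fin n → ℂ) × (Fin n × Fin n → ℂ) => W a p.1 * W b p.2 *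
        (ip p.1 p.2 ^ k * conj (ip p.1 p.2) ^ l)) (ζ • p.1, p.2) ∂(GG n) := by
      rw [hI]
      nth_rewrite 1 [← hmp.map_eq]
      rw [integral_map hmp.measurable.aemeasurable]
      refine Measurable.aestronglyMeasurable ?_
      refine (((measurable_W a).comp measurable_fst).mul
        ((measurable_W b).comp measurable_snd)).mul ?_
      exact ((PGw_ip.pow one_le_w2 k).mul one_le_w2 (PGw_ip.conj.pow one_le_w2 l)).meas
    nth_rewrite 1 [h2]
    rw [hI, ← integral_const_mul]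
    refine integral_congr_ae (Filter.Eventually.of_forall fun p => ?_)
    simp only
    rw [W_smul_unit a hζ, ip_smul_left, map_mul]
    ring
  have h3 : ζ ^ k * conj ζ ^ l = -1 := by
    rw [hζdef, ← Complex.exp_conj, ← Complex.exp_nat_mul, ← Complex.exp_nat_mul, ← Complex.exp_add,
      map_mul, Complex.conj_ofReal, Complex.conj_I]
    rw [← Complex.exp_pi_mul_I]
    congr 1
    have : (k : ℂ) * (((Real.pi / m : ℝ) : ℂ) * Complex.I) +
        (l : ℂ) * (((Real.pi / m : ℝ) : ℂ) * -Complex.I) =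
        (((k : ℝ) - l) * (Real.pi / m) : ℝ) * Complex.I := by push_cast; ring
    rw [this, ← hm]
    congr 2
    field_simp
  rw [h3] at h1
  have h4 : (2 : ℂ) * I = 0 := by linear_combination h1
  simpa using h4

theorem int_gen {a b : ℂ} (ha : -1 < a.re) (hb : -1 < b.re) (ρ : ℂ) (M : ℕ) :
    ∫ p, W a p.1 * W b p.2 * (conj ρ * ip p.1 p.2 + conj (conj ρ * ip p.1 p.2)) ^ M ∂(GG n) =
      ∑ k ∈ Finset.range (M + 1), ((M.choose k : ℂ) * conj ρ ^ k * ρ ^ (M - k)) *
        ∫ p, W a p.1 * W b p.2 * (ip p.1 p.2 ^ k * conj (ip p.1 p.2) ^ (M - k)) ∂(GG n) := by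
  simp_rw [← integral_const_mul]
  rw [← integral_finsetSum]
  · refine integral_congr_ae (Filter.Eventually.of_forall fun p => ?_)
    simp only
    rw [add_pow, Finset.mul_sum]
    refine Finset.sum_congr rfl fun k _ => ?_
    rw [map_mul, Complex.conj_conj, mul_pow, mul_pow]
    ring
  · intro k _
    refine Integrable.const_mul ?_ _
    exact integrable_pair ha hb
      ((PGw_ip.pow one_le_w2 k).mul one_le_w2 (PGw_ip.conj.pow one_le_w2 (M - k)))

/-- Even moments. -/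
theorem int_even {a b : ℂ} (ha : -1 < a.re) (hb : -1 < b.re) (ρ : ℂ) (N : ℕ) :
    ∫ p, W a p.1 * W b p.2 * (conj ρ * ip p.1 p.2 + conj (conj ρ * ip p.1 p.2)) ^ (2 * N) ∂(GG n) =
      ((2 * N).choose N : ℂ) * ((‖ρ‖ ^ 2 : ℝ) : ℂ) ^ N * MM n a b N := by
  rw [int_gen ha hb, Finset.sum_eq_single N]
  · have h1 : 2 * N - N = N := by omega
    rw [h1, MM_eq]
    have h2 : conj ρ ^ N * ρ ^ N = ((‖ρ‖ ^ 2 : ℝ) : ℂ) ^ N := by
      rw [← mul_pow, mul_comm, Complex.mul_conj, Complex.normSq_eq_norm_sq]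
    simp_rw [mul_pow]
    rw [mul_assoc ((2 * N).choose N : ℂ), h2]
  · intro k hk hkN
    rw [phase_zero, mul_zero]
    have := Finset.mem_range.mp hk
    omega
  · intro h
    exact absurd (Finset.mem_range.mpr (by omega)) h

theorem int_odd {a b : ℂ} (ha : -1 < a.re) (hb : -1 < b.re) (ρ : ℂ) {M : ℕ} (hM : ¬ Even M) :
    ∫ p, W a p.1 * W b p.2 * (conj ρ * ip p.1 p.2 + conj (conj ρ * ip p.1 p.2)) ^ M ∂(GG n) = 0 := by
  rw [int_gen ha hb]
  refine Finset.sum_eq_zero fun k hk => ?_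
  have hk' := Finset.mem_range.mp hk
  rw [phase_zero, mul_zero]
  intro h
  exact hM ⟨k, by omega⟩

/-- Series expansion of the exponential moment. -/
theorem hasSum_exp_moment {a b : ℂ} (ha : -1 < a.re) (hb : -1 < b.re) {ρ : ℂ} (hρ : ‖ρ‖ < 1) :
    HasSum (fun N : ℕ => ((‖ρ‖ ^ 2 : ℝ) : ℂ) ^ N / ((N.factorial : ℂ) ^ 2) * MM n a b N)
      (∫ p, W a p.1 * W b p.2 * ((Real.exp (2 * (conj ρ * ip p.1 p.2).re) : ℝ) : ℂ) ∂(GG n)) := by
  have hu : ∀ p : (Fin n × Fin n → ℂ) × (Fin n × Fin n → ℂ),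
      conj ρ * ip p.1 p.2 + conj (conj ρ * ip p.1 p.2) =
        ((2 * (conj ρ * ip p.1 p.2).re : ℝ) : ℂ) := by
    intro p
    rw [Complex.add_conj]
  have hmW : Measurable (fun p : (Fin n × Fin n → ℂ) × (Fin n × Fin n → ℂ) =>
      W a p.1 * W b p.2) :=
    ((measurable_W a).comp measurable_fst).mul ((measurable_W b).comp measurable_snd)
  have hmu : Measurable (fun p : (Fin n × Fin n → ℂ) × (Fin n × Fin n → ℂ) =>
      conj ρ * ip p.1 p.2 + conj (conj ρ * ip p.1 p.2)) :=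
    Continuous.measurable (by fun_prop)
  have hnorm : ∀ p : (Fin n × Fin n → ℂ) × (Fin n × Fin n → ℂ),
      ‖conj ρ * ip p.1 p.2 + conj (conj ρ * ip p.1 p.2)‖ ≤ ‖ρ‖ * (nsq p.1 + nsq p.2) := by
    intro p
    refine (norm_add_le _ _).trans ?_
    rw [RCLike.norm_conj, norm_mul, RCLike.norm_conj]
    have := norm_ip_le p.1 p.2
    nlinarith [norm_nonneg ρ]
  have key := hasSum_integral_of_dominated_convergence (μ := GG n)
    (F := fun (M : ℕ) p => W a p.1 * W b p.2 *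
      ((conj ρ * ip p.1 p.2 + conj (conj ρ * ip p.1 p.2)) ^ M / (M.factorial : ℂ)))
    (f := fun p => W a p.1 * W b p.2 * ((Real.exp (2 * (conj ρ * ip p.1 p.2).re) : ℝ) : ℂ))
    (fun (M : ℕ) p => ‖W a p.1 * W b p.2‖ * ((‖ρ‖ * (nsq p.1 + nsq p.2)) ^ M / (M.factorial : ℝ)))
    ?_ ?_ ?_ ?_ ?_
  · -- conversion of the series
    have h1 : ∀ M : ℕ, ∫ p, W a p.1 * W b p.2 *
        ((conj ρ * ip p.1 p.2 + conj (conj ρ * ip p.1 p.2)) ^ M / (M.factorial : ℂ)) ∂(GG n) =
        (∫ p, W a p.1 * W b p.2 *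
          (conj ρ * ip p.1 p.2 + conj (conj ρ * ip p.1 p.2)) ^ M ∂(GG n)) / (M.factorial : ℂ) := by
      intro M
      rw [← integral_div]
      refine integral_congr_ae (Filter.Eventually.of_forall fun p => ?_)
      simp only
      ring
    have hinj : Function.Injective (fun N : ℕ => 2 * N) := fun x y h => by
      simpa using h
    rw [← hinj.hasSum_iff] at key
    · refine HasSum.congr_fun key fun N => ?_
      rw [Function.comp_apply, h1, int_even ha hb ρ]
      have h3 := Nat.choose_mul_factorial_mul_factorial (show N ≤ 2 * N by omega)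
      have h4 : 2 * N - N = N := by omega
      rw [h4] at h3
      have h5 : (((2 * N).choose N : ℕ) : ℂ) * (N.factorial : ℂ) * (N.factorial : ℂ) =
          ((2 * N).factorial : ℂ) := by exact_mod_cast h3
      have h6 : ((2 * N).factorial : ℂ) ≠ 0 := by exact_mod_cast (Nat.factorial_pos _).ne'
      have h7 : (N.factorial : ℂ) ≠ 0 := by exact_mod_cast (Nat.factorial_pos _).ne'
      rw [div_mul_eq_mul_div, div_eq_div_iff (pow_ne_zero 2 h7) h6, ← h5]
      ring
    · intro M hM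
      rw [h1, int_odd ha hb ρ, zero_div]
      rintro ⟨k, hk⟩
      exact hM ⟨k, by simp only; omega⟩
  · intro M
    exact (hmW.mul ((hmu.pow_const M).div_const _)).aestronglyMeasurable
  · intro M
    refine Filter.Eventually.of_forall fun p => ?_
    rw [norm_mul, norm_div, norm_pow, Complex.norm_natCast]
    gcongr
    exact hnorm p
  · refine Filter.Eventually.of_forall fun p => ?_
    exact (Real.summable_pow_div_factorial _).mul_left _
  · have h2 : ∀ p : (Fin n × Fin n → ℂ) × (Fin n × Fin n → ℂ),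
        ∑' M : ℕ, ‖W a p.1 * W b p.2‖ *
          ((‖ρ‖ * (nsq p.1 + nsq p.2)) ^ M / (M.factorial : ℝ)) =
        ‖Real.exp (‖ρ‖ * nsq p.1) • W a p.1‖ * ‖Real.exp (‖ρ‖ * nsq p.2) • W b p.2‖ := by
      intro p
      rw [tsum_mul_left]
      have : ∑' M : ℕ, (‖ρ‖ * (nsq p.1 + nsq p.2)) ^ M / (M.factorial : ℝ) =
          Real.exp (‖ρ‖ * (nsq p.1 + nsq p.2)) := by
        rw [Real.exp_eq_exp_ℝ, NormedSpace.exp_eq_tsum_div]
      rw [this, norm_mul, norm_smul, norm_smul, Real.norm_of_nonneg (Real.exp_pos _).le,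
        Real.norm_of_nonneg (Real.exp_pos _).le, mul_add, Real.exp_add]
      ring
    simp_rw [h2]
    exact ((integrable_exp_W a ha hρ).norm).mul_prod ((integrable_exp_W b hb hρ).norm)
  · refine Filter.Eventually.of_forall fun p => ?_
    refine HasSum.mul_left _ ?_
    rw [hu p, Complex.ofReal_exp, Complex.exp_eq_exp_ℂ]
    exact NormedSpace.expSeries_div_hasSum_exp _

end Sph
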