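import Pool.Agent.Hhelper97.Sph.Interp

/-!
# Exact mixed moments
-/

open MeasureTheory Matrix Polynomial
open scoped ENNReal ComplexConjugate

namespace Sph

section unit

variable {ι : Type*} [Fintype ι] [DecidableEq ι]

theorem integrable_exp_nsq : Integrable (fun A : ι → ℂ => Real.exp (1 / 2 * nsq A)) (G ι) := by
  by_contra h
  have h1 : ¬ Integrable (fun A : ι → ℂ => ((Real.exp (1 / 2 * nsq A) : ℝ) : ℂ)) (G ι) := by
    intro h2
    exact h (h2.re.congr (Filter.Eventually.of_forall fun A => rfl))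
  have h2 := integral_exp_tsq (Finset.univ : Finset ι) (fun _ => (1 : ℂ)) 0
    (fun s hs A => by simp) (y := -(1 / 2)) (by norm_num)
  rw [neg_neg] at h2
  have h3 : ∀ A : ι → ℂ, Real.exp (1 / 2 * tsq Finset.univ A) • (1 : ℂ) =
      ((Real.exp (1 / 2 * nsq A) : ℝ) : ℂ) := by
    intro A
    rw [tsq_univ]; simp
  simp_rw [h3] at h2
  rw [integral_undef h1] at h2
  simp only [integral_const, probReal_univ, one_smul, mul_one] at h2
  refine (Complex.cpow_ne_zero_iff.mpr (Or.inl ?_)) h2.symm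
  norm_num

theorem PG.integrable {f : (ι → ℂ) → ℂ} (hf : PG f) : Integrable f (G ι) := by
  obtain ⟨C, k, hC, h1⟩ := hf.bound
  have h2 := (integrable_exp_nsq (ι := ι)).const_mul (C * (2 ^ k * k.factorial * Real.exp (1 / 2)))
  refine h2.mono' hf.meas.aestronglyMeasurable (Filter.Eventually.of_forall fun A => ?_)
  have h3 := one_add_pow_le_exp k (nsq_nonneg A)
  calc ‖f A‖ ≤ C * (1 + nsq A) ^ k := h1 A
    _ ≤ C * ((2 ^ k * k.factorial * Real.exp (1 / 2)) * Real.exp (1 / 2 * nsq A)) := by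
        gcongr
    _ = _ := by ring

/-- A unitary matrix rotating a given row vector onto a given axis. -/
theorem exists_unitary' (i0 : ι) (v : ι → ℂ) :
    ∃ U : Matrix ι ι ℂ, U * Uᴴ = 1 ∧ Uᴴ * U = 1 ∧
      v ᵥ* U = Pi.single i0 ((Real.sqrt (nsq v) : ℝ) : ℂ) := by
  by_cases hv : v = 0
  · refine ⟨1, by simp, by simp, ?_⟩
    rw [hv]
    ext j
    simp [nsq]
  let w : EuclideanSpace ℂ ι := WithLp.toLp 2 v
  have hw : w ≠ 0 := by
    intro h
    apply hv
    ext i
    have := congrArg (fun z : EuclideanSpace ℂ ι => z i) h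
    simpa [w] using this
  have hwn : ‖w‖ = Real.sqrt (nsq v) := by
    rw [EuclideanSpace.norm_eq]; rfl
  let u : EuclideanSpace ℂ ι := ((‖w‖ : ℂ))⁻¹ • w
  have hu : ‖u‖ = 1 := by
    rw [norm_smul, norm_inv, Complex.norm_real, norm_norm, inv_mul_cancel₀ (norm_ne_zero_iff.mpr hw)]
  have hon : Orthonormal ℂ (({i0} : Set ι).domRestrict fun _ => u) := by
    constructor
    · intro i; exact hu
    · intro i j hij
      exact absurd (Subsingleton.elim i j) hij
  obtain ⟨b, hb⟩ := hon.exists_orthonormalBasis_extension_of_card_eq (by simp)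
  have hb0 : b i0 = u := hb i0 rfl
  have hin : ∀ x y : EuclideanSpace ℂ ι, inner ℂ x y = ∑ k, y k * conj (x k) := by
    intro x y
    rw [PiLp.inner_apply]
    refine Finset.sum_congr rfl fun k _ => ?_
    rw [RCLike.inner_apply]
  have h2 : (Matrix.of fun k j => conj (b j k) : Matrix ι ι ℂ)ᴴ *
      (Matrix.of fun k j => conj (b j k)) = 1 := by
    ext j l
    rw [Matrix.mul_apply]
    simp only [Matrix.conjTranspose_apply, Matrix.of_apply, RCLike.star_def, Complex.conj_conj]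
    rw [← hin, b.inner_eq_ite, Matrix.one_apply]
    simp only [eq_comm]
  refine ⟨Matrix.of fun k j => conj (b j k), mul_eq_one_comm.mp h2, h2, ?_⟩
  ext j
  have h3 : (v ᵥ* (Matrix.of fun k j => conj (b j k))) j = inner ℂ (b j) w := by
    rw [hin]; rfl
  have h4 : w = (‖w‖ : ℂ) • b i0 := by
    rw [hb0, smul_smul, mul_inv_cancel₀ (by exact_mod_cast norm_ne_zero_iff.mpr hw), one_smul]
  rw [h3, ← hwn, h4, inner_smul_right, b.inner_eq_ite, ← h4, Pi.single_apply]
  split_ifs <;> simp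

/-- Multiplication of a row vector by a matrix, as a real linear map. -/
noncomputable def vmulL (U : Matrix ι ι ℂ) : (ι → ℂ) →ₗ[ℝ] (ι → ℂ) where
  toFun x := x ᵥ* U
  map_add' x y := by rw [add_vecMul]
  map_smul' r x := by rw [smul_vecMul]; rfl

lemma nsq_vmulL (U : Matrix ι ι ℂ) (hU : U * Uᴴ = 1) (x : ι → ℂ) :
    nsq (vmulL U x) = nsq x := by
  have h : ∀ (y : ι → ℂ), (nsq y : ℂ) = y ⬝ᵥ star y := by
    intro y
    rw [nsq_eq_ip]; rfl
  have h1 : (nsq (x ᵥ* U) : ℂ) = (nsq x : ℂ) := by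
    rw [h, h, star_vecMul, ← dotProduct_mulVec, mulVec_mulVec, hU, one_mulVec]
  exact_mod_cast h1

lemma ip_vmulL (U : Matrix ι ι ℂ) (hU : U * Uᴴ = 1) (x y : ι → ℂ) :
    ip (vmulL U x) (vmulL U y) = ip x y := by
  have h : ∀ (x y : ι → ℂ), ip x y = x ⬝ᵥ star y := fun x y => rfl
  change ip (x ᵥ* U) (y ᵥ* U) = ip x y
  rw [h, h, star_vecMul, ← dotProduct_mulVec, mulVec_mulVec, hU, one_mulVec]

/-- Moments of one coordinate. -/
theorem coord_moment (i0 : ι) (N : ℕ) :
    ∫ B, ((tsq {i0} B : ℝ) : ℂ) ^ N ∂(G ι) = N.factorial := by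
  induction N with
  | zero => simp
  | succ N ih =>
    have hh : ∀ s : ℝ, 0 < s → ∀ A : ι → ℂ, ((tsq {i0} (sc {i0} s A) : ℝ) : ℂ) ^ N =
        (s : ℂ) ^ (2 * (N : ℂ)) * ((tsq {i0} A : ℝ) : ℂ) ^ N := by
      intro s hs A
      rw [tsq_sc]
      push_cast
      rw [mul_pow, ← pow_mul, ← Complex.cpow_natCast]
      push_cast
      rfl
    have hI : ∀ k : ℕ, Integrable (fun A : ι → ℂ => ((tsq {i0} A : ℝ) : ℂ) ^ k) (G ι) :=
      fun k => ((PG.tsq {i0}).pow k).integrable
    have h1 := hom_moment {i0} (fun A => ((tsq {i0} A : ℝ) : ℂ) ^ N) N hh (hI N)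
      ((hI (N + 1)).congr (Filter.Eventually.of_forall fun A => by simp only; ring))
    have h2 : ∫ B, ((tsq {i0} B : ℝ) : ℂ) ^ (N + 1) ∂(G ι) =
        ∫ B, ((tsq {i0} B : ℝ) : ℂ) * ((tsq {i0} B : ℝ) : ℂ) ^ N ∂(G ι) := by
      refine integral_congr_ae (Filter.Eventually.of_forall fun A => ?_)
      simp only
      ring
    rw [h2, h1, ih, Finset.card_singleton, Nat.factorial_succ]
    push_cast
    ring

lemma PG_ip (x : ι → ℂ) : PG fun B : ι → ℂ => ip x B := by
  unfold ip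
  exact PG.sum _ fun i _ => (PG.const _).mul (PG.coord i).conj

/-- Moments of a linear functional of a Gaussian vector. -/
theorem ip_moment (x : ι → ℂ) (N : ℕ) :
    ∫ B, (ip x B * conj (ip x B)) ^ N ∂(G ι) = N.factorial * ((nsq x : ℝ) : ℂ) ^ N := by
  by_cases hι : IsEmpty ι
  · have h0 : ∀ B : ι → ℂ, ip x B = 0 := by intro B; simp [ip]
    have h1 : nsq x = 0 := by simp [nsq]
    simp_rw [h0, h1]
    rcases N with _ | N
    · simp
    · simp
  · rw [not_isEmpty_iff] at hι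
    obtain ⟨i0⟩ := hι
    obtain ⟨U, hU1, hU2, hU3⟩ := exists_unitary' i0 x
    have hmp := G_measurePreserving (vmulL U) (nsq_vmulL U hU1)
    have h1 : ∀ B : ι → ℂ, (ip x B * conj (ip x B)) ^ N =
        (fun C => (nsq x : ℂ) ^ N * ((tsq {i0} C : ℝ) : ℂ) ^ N) (vmulL U B) := by
      intro B
      rw [← ip_vmulL U hU1 x B]
      have h2 : vmulL U x = Pi.single i0 ((Real.sqrt (nsq x) : ℝ) : ℂ) := hU3
      rw [h2]
      have h3 : ip (Pi.single i0 ((Real.sqrt (nsq x) : ℝ) : ℂ)) (vmulL U B) =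
          ((Real.sqrt (nsq x) : ℝ) : ℂ) * conj (vmulL U B i0) := by
        unfold ip
        rw [Finset.sum_eq_single i0]
        · rw [Pi.single_eq_same]
        · intro j _ hj
          rw [Pi.single_eq_of_ne hj, zero_mul]
        · intro h; exact absurd (Finset.mem_univ _) h
      rw [h3]
      simp only
      rw [← mul_pow]
      congr 1
      rw [map_mul, Complex.conj_conj, Complex.conj_ofReal, tsq, Finset.sum_singleton]
      have h4 : ((Real.sqrt (nsq x) : ℝ) : ℂ) * ((Real.sqrt (nsq x) : ℝ) : ℂ) = (nsq x : ℂ) := by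
        rw [← Complex.ofReal_mul, Real.mul_self_sqrt (nsq_nonneg x)]
      have h5 : (vmulL U B i0) * conj (vmulL U B i0) = ((‖vmulL U B i0‖ ^ 2 : ℝ) : ℂ) := by
        rw [Complex.mul_conj, Complex.normSq_eq_norm_sq]
      linear_combination (vmulL U B i0) * conj (vmulL U B i0) * h4 + (nsq x : ℂ) * h5
    simp_rw [h1]
    have h6 : ∫ B, (fun C => (nsq x : ℂ) ^ N * ((tsq {i0} C : ℝ) : ℂ) ^ N) (vmulL U B) ∂(G ι) =
        ∫ C, (nsq x : ℂ) ^ N * ((tsq {i0} C : ℝ) : ℂ) ^ N ∂(G ι) := by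
      nth_rewrite 2 [← hmp.map_eq]
      rw [integral_map hmp.measurable.aemeasurable]
      exact ((PG.const _).mul ((PG.tsq {i0}).pow N)).meas.aestronglyMeasurable
    rw [h6, integral_const_mul, coord_moment]
    ring

end unit

section exact

variable {n : ℕ}

/-- Rising factorial. -/
noncomputable def rf (x : ℂ) (N : ℕ) : ℂ := ∏ k ∈ Finset.range N, (x + k)

/-- Moments of the norm of a block of columns under the weight. -/
theorem block_moment {a : ℂ} (ha : -1 < a.re) (R : Finset (Fin n)) (N : ℕ) :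
    ∫ A, W a A * ((tsq (Finset.univ ×ˢ R) A : ℝ) : ℂ) ^ N ∂(G (Fin n × Fin n)) =
      rf (R.card * (n + a)) N * Z n a := by
  induction N with
  | zero => simp [rf, det_moment n a ha]
  | succ N ih =>
    have hh : ∀ s : ℝ, 0 < s → ∀ A : Fin n × Fin n → ℂ,
        W a (sc (Finset.univ ×ˢ R) s A) * ((tsq (Finset.univ ×ˢ R) (sc (Finset.univ ×ˢ R) s A) : ℝ) : ℂ) ^ N =
        (s : ℂ) ^ (2 * ((R.card : ℂ) * a + N)) *
          (W a A * ((tsq (Finset.univ ×ˢ R) A : ℝ) : ℂ) ^ N) := by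
      intro s hs A
      have hs0 : (s : ℂ) ≠ 0 := by exact_mod_cast hs.ne'
      rw [W_sc_col _ _ hs, tsq_sc, mul_add, Complex.cpow_add _ _ hs0]
      have : (s : ℂ) ^ (2 * (N : ℂ)) = ((s : ℂ) ^ 2) ^ N := by
        rw [← pow_mul, ← Complex.cpow_natCast]
        push_cast
        rfl
      rw [this]
      push_cast
      ring
    have hi := ((PG.tsq (Finset.univ ×ˢ R)).pow N).integrable_W a ha
    have hi' : Integrable (fun A : Fin n × Fin n → ℂ => ((tsq (Finset.univ ×ˢ R) A : ℝ) : ℂ) *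
        (W a A * ((tsq (Finset.univ ×ˢ R) A : ℝ) : ℂ) ^ N)) (G (Fin n × Fin n)) := by
      have := ((PG.tsq (Finset.univ ×ˢ R)).pow (N + 1)).integrable_W a ha
      refine this.congr (Filter.Eventually.of_forall fun A => ?_)
      simp only
      ring
    have h1 := hom_moment (Finset.univ ×ˢ R) (fun A => W a A *
      ((tsq (Finset.univ ×ˢ R) A : ℝ) : ℂ) ^ N) ((R.card : ℂ) * a + N) hh hi hi'
    have h2 : ∫ A, W a A * ((tsq (Finset.univ ×ˢ R) A : ℝ) : ℂ) ^ (N + 1) ∂(G (Fin n × Fin n)) =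
        ∫ A, ((tsq (Finset.univ ×ˢ R) A : ℝ) : ℂ) * (W a A *
          ((tsq (Finset.univ ×ˢ R) A : ℝ) : ℂ) ^ N) ∂(G (Fin n × Fin n)) := by
      refine integral_congr_ae (Filter.Eventually.of_forall fun A => ?_)
      simp only
      ring
    rw [h2, h1, ih, Finset.card_product, Finset.card_univ, Fintype.card_fin, rf, rf,
      Finset.prod_range_succ]
    push_cast
    ring

lemma Z_zero (n : ℕ) : Z n 0 = 1 := by
  unfold Z
  refine Finset.prod_eq_one fun j _ => ?_
  rw [add_zero, div_self]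
  apply Complex.Gamma_ne_zero_of_re_pos
  simp only [Complex.add_re, Complex.natCast_re, Complex.one_re]
  positivity

theorem MR_zero {a : ℂ} (ha : -1 < a.re) (R : Finset (Fin n)) (N : ℕ) :
    MR a 0 R N = N.factorial * rf (R.card * (n + a)) N * Z n a := by
  have hint1 : Integrable (fun p : (Fin n × Fin n → ℂ) × (Fin n × Fin n → ℂ) =>
      W a p.1 * W 0 p.2 * (trM (gR R p.2)ᴴ p.1 * conj (trM (gR R p.2)ᴴ p.1)) ^ N)
      ((G (Fin n × Fin n)).prod (G (Fin n × Fin n))) := by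
    refine integrable_pair ha (by simp) ?_
    have h1 := PGw_trM_pair (PGm_gR_snd (n := n) R).conjTranspose
    exact (h1.mul one_le_w2 h1.conj).pow one_le_w2 N
  unfold MR
  rw [integral_prod _ hint1]
  simp only
  have h1 : ∀ A : Fin n × Fin n → ℂ, ∫ B, W a A * W 0 B *
      (trM (gR R B)ᴴ A * conj (trM (gR R B)ᴴ A)) ^ N ∂(G (Fin n × Fin n)) =
      N.factorial * (W a A * ((tsq (Finset.univ ×ˢ R) A : ℝ) : ℂ) ^ N) := by
    intro A
    set x : Fin n × Fin n → ℂ := fun p => if p.2 ∈ R then A p else 0 with hx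
    have h2 : ∀ B, trM (gR R B)ᴴ A = ip x B := by
      intro B
      rw [trM_eq, ip, Fintype.sum_prod_type]
      refine Finset.sum_congr rfl fun i _ => Finset.sum_congr rfl fun j _ => ?_
      rw [Matrix.conjTranspose_apply, gR_apply, hx]
      by_cases hj : j ∈ R <;> simp [hj]
    have h3 : nsq x = tsq (Finset.univ ×ˢ R) A := by
      rw [tsq_eq_ite, nsq]
      refine Finset.sum_congr rfl fun p _ => ?_
      simp only [hx, Finset.mem_product, Finset.mem_univ, true_and]
      split_ifs <;> simp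
    simp_rw [h2, W_zero, mul_one]
    rw [integral_const_mul, ip_moment, h3]
    ring
  simp_rw [h1]
  rw [integral_const_mul, block_moment ha]
  ring

end exact

end Sph
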