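import Pool.Agent.Hhelper97.Sph.Scale

/-!
# Pairs of Gaussian vectors: rotation invariance and the exponential tilt
-/

open MeasureTheory
open scoped ENNReal ComplexConjugate

namespace Sph

variable {ι : Type*} [Fintype ι]

theorem GG_eq {κ : Type*} [Fintype κ] : (G ι).prod (G κ) =
    ((volume : Measure (ι → ℂ)).prod (volume : Measure (κ → ℂ))).withDensity
      fun p => ENNReal.ofReal (gd p.1 * gd p.2) := by
  rw [G_eq, G_eq, prod_withDensity (by fun_prop) (by fun_prop)]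
  congr 1
  ext p
  rw [ENNReal.ofReal_mul (gd_nonneg _)]

/-- The Hermitian pairing `∑ x_i conj (y_i)`. -/
noncomputable def ip (x y : ι → ℂ) : ℂ := ∑ i, x i * conj (y i)

@[fun_prop]
lemma continuous_ip : Continuous fun p : (ι → ℂ) × (ι → ℂ) => ip p.1 p.2 := by
  unfold ip; fun_prop

lemma nsq_eq_ip (x : ι → ℂ) : (nsq x : ℂ) = ip x x := by
  unfold nsq ip
  push_cast
  refine Finset.sum_congr rfl fun i _ => ?_
  rw [Complex.mul_conj, Complex.normSq_eq_norm_sq]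
  push_cast
  rfl

lemma nsq_lin (a b : ℂ) (x y : ι → ℂ) :
    nsq (a • x + b • y) = ‖a‖ ^ 2 * nsq x + ‖b‖ ^ 2 * nsq y + 2 * (a * conj b * ip x y).re := by
  unfold nsq ip
  rw [Finset.mul_sum, Finset.mul_sum, Finset.mul_sum, Complex.re_sum, Finset.mul_sum,
    ← Finset.sum_add_distrib, ← Finset.sum_add_distrib]
  refine Finset.sum_congr rfl fun i _ => ?_
  simp only [Pi.add_apply, Pi.smul_apply, smul_eq_mul]
  rw [← Complex.normSq_eq_norm_sq, ← Complex.normSq_eq_norm_sq, ← Complex.normSq_eq_norm_sq,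
    ← Complex.normSq_eq_norm_sq, ← Complex.normSq_eq_norm_sq, Complex.normSq_add, map_mul, map_mul]
  congr 3
  rw [map_mul]
  ring

/-- The rotation of a pair of vectors. -/
noncomputable def rotL (ρ : ℂ) (σ : ℝ) : ((ι → ℂ) × (ι → ℂ)) →ₗ[ℝ] ((ι → ℂ) × (ι → ℂ)) where
  toFun p := (ρ • p.1 + (σ : ℂ) • p.2, (-(σ : ℂ)) • p.1 + conj ρ • p.2)
  map_add' p q := by
    ext i <;> simp <;> ring
  map_smul' r p := by
    ext i <;> simp <;> ring

theorem nsq_rotL (ρ : ℂ) (σ : ℝ) (h : ‖ρ‖ ^ 2 + σ ^ 2 = 1) (p : (ι → ℂ) × (ι → ℂ)) :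
    nsq (rotL ρ σ p).1 + nsq (rotL ρ σ p).2 = nsq p.1 + nsq p.2 := by
  change nsq (ρ • p.1 + (σ : ℂ) • p.2) + nsq ((-(σ : ℂ)) • p.1 + conj ρ • p.2) = _
  rw [nsq_lin, nsq_lin]
  simp only [Complex.conj_ofReal, Complex.conj_conj, norm_neg, Complex.norm_real, Real.norm_eq_abs,
    sq_abs, RCLike.norm_conj]
  have h1 : (ρ * (σ : ℂ) * ip p.1 p.2).re + (-(σ : ℂ) * ρ * ip p.1 p.2).re = 0 := by
    rw [← Complex.add_re]
    have : ρ * (σ : ℂ) * ip p.1 p.2 + -(σ : ℂ) * ρ * ip p.1 p.2 = 0 := by ring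
    rw [this, Complex.zero_re]
  linear_combination (nsq p.1 + nsq p.2) * h + 2 * h1

theorem rot_measurePreserving (ρ : ℂ) (σ : ℝ) (h : ‖ρ‖ ^ 2 + σ ^ 2 = 1) :
    MeasurePreserving (rotL (ι := ι) ρ σ) ((G ι).prod (G ι)) ((G ι).prod (G ι)) := by
  have hdet : LinearMap.det (rotL (ι := ι) ρ σ) ≠ 0 := by
    intro h0
    have hinj : Function.Injective (rotL (ι := ι) ρ σ) := by
      rw [← LinearMap.ker_eq_bot, LinearMap.ker_eq_bot']
      intro x hx
      have h1 := nsq_rotL ρ σ h x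
      rw [hx] at h1
      have h2 : nsq x.1 + nsq x.2 = 0 := by rw [← h1]; simp [nsq]
      have h3 : nsq x.1 = 0 := le_antisymm (by linarith [nsq_nonneg x.2]) (nsq_nonneg _)
      have h4 : nsq x.2 = 0 := le_antisymm (by linarith [nsq_nonneg x.1]) (nsq_nonneg _)
      unfold nsq at h3 h4
      rw [Finset.sum_eq_zero_iff_of_nonneg (fun i _ => by positivity)] at h3 h4
      ext i
      · simpa using h3 i (Finset.mem_univ i)
      · simpa using h4 i (Finset.mem_univ i)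
    have := LinearMap.bot_lt_ker_of_det_eq_zero h0
    rw [LinearMap.ker_eq_bot.mpr hinj] at this
    exact lt_irrefl _ this
  rw [GG_eq]
  have : ((volume : Measure (ι → ℂ)).prod (volume : Measure (ι → ℂ))).IsAddHaarMeasure :=
    Measure.prod.instIsAddHaarMeasure _ _
  refine measurePreserving_of_linear _ _ (by fun_prop) ?_ _ hdet ?_
  · rw [← GG_eq]; infer_instance
  · intro p
    have h1 := nsq_rotL ρ σ h p
    congr 1
    unfold gd
    rw [div_mul_div_comm, div_mul_div_comm, ← Real.exp_add, ← Real.exp_add]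
    congr 2
    linarith

/-- The law of `ρ B + σ C` is Gaussian. -/
theorem lin_measurePreserving (ρ : ℂ) (σ : ℝ) (h : ‖ρ‖ ^ 2 + σ ^ 2 = 1) :
    MeasurePreserving (fun p : (ι → ℂ) × (ι → ℂ) => ρ • p.1 + (σ : ℂ) • p.2)
      ((G ι).prod (G ι)) (G ι) :=
  measurePreserving_fst.comp (rot_measurePreserving ρ σ h)

lemma nsq_smul (a : ℂ) (x : ι → ℂ) : nsq (a • x) = ‖a‖ ^ 2 * nsq x := by
  unfold nsq
  rw [Finset.mul_sum]
  refine Finset.sum_congr rfl fun i _ => ?_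
  rw [Pi.smul_apply, smul_eq_mul, norm_mul, mul_pow]

theorem lintegral_comp_smul_vol (r : ℝ) (hr : 0 < r) (f : (ι → ℂ) → ℝ≥0∞) (hf : Measurable f) :
    ∫⁻ x, f ((r : ℂ)⁻¹ • x) = ENNReal.ofReal ((r ^ 2) ^ Fintype.card ι) * ∫⁻ x, f x := by
  have h1 : Measurable fun x : ι → ℂ => r⁻¹ • x := by fun_prop
  have h2 : ∀ x : ι → ℂ, (r : ℂ)⁻¹ • x = r⁻¹ • x := by
    intro x; ext i
    simp
  simp_rw [h2]
  rw [← lintegral_map hf h1, Measure.map_addHaar_smul _ (inv_ne_zero hr.ne'),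
    lintegral_smul_measure]
  have h3 : Module.finrank ℝ (ι → ℂ) = 2 * Fintype.card ι := by
    rw [Module.finrank_pi_fintype]
    simp [Complex.finrank_real_complex, mul_comm]
  rw [h3, inv_pow, inv_inv, abs_of_pos (by positivity), pow_mul, smul_eq_mul]

/-- Exponential tilt: law of `(σ⁻¹ (ρ B + σ C), σ⁻¹ B)`. -/
theorem map_tilt (ρ : ℂ) (σ : ℝ) (hσ : 0 < σ) (h : ‖ρ‖ ^ 2 + σ ^ 2 = 1) :
    Measure.map (fun p : (ι → ℂ) × (ι → ℂ) =>
        ((σ : ℂ)⁻¹ • (ρ • p.1 + (σ : ℂ) • p.2), (σ : ℂ)⁻¹ • p.1)) ((G ι).prod (G ι)) =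
      ((G ι).prod (G ι)).withDensity fun p =>
        ENNReal.ofReal ((σ ^ 2) ^ Fintype.card ι * Real.exp (2 * (conj ρ * ip p.1 p.2).re)) := by
  have hσ0 : (σ : ℂ) ≠ 0 := by exact_mod_cast hσ.ne'
  have hT : Measurable (fun p : (ι → ℂ) × (ι → ℂ) =>
        ((σ : ℂ)⁻¹ • (ρ • p.1 + (σ : ℂ) • p.2), (σ : ℂ)⁻¹ • p.1)) :=
    Continuous.measurable (by fun_prop)
  refine Measure.ext_of_lintegral _ fun φ hφ => ?_
  have hK : Measurable (fun p : (ι → ℂ) × (ι → ℂ) =>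
      ENNReal.ofReal ((σ ^ 2) ^ Fintype.card ι * Real.exp (2 * (conj ρ * ip p.1 p.2).re))) := by
    refine ENNReal.measurable_ofReal.comp (Continuous.measurable ?_)
    fun_prop
  rw [lintegral_map hφ hT, lintegral_withDensity_eq_lintegral_mul _ hK hφ, GG_eq,
    lintegral_withDensity_eq_lintegral_mul _ (by fun_prop) (g := fun p : (ι → ℂ) × (ι → ℂ) =>
      φ ((σ : ℂ)⁻¹ • (ρ • p.1 + (σ : ℂ) • p.2), (σ : ℂ)⁻¹ • p.1)) (hφ.comp hT),
    lintegral_withDensity_eq_lintegral_mul _ (by fun_prop) (hK.mul hφ)]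
  simp only [Pi.mul_apply]
  -- auxiliary function
  obtain ⟨F, hF⟩ : ∃ F : (ι → ℂ) → (ι → ℂ) → ℝ≥0∞, F = fun y x =>
    ENNReal.ofReal (gd ((σ : ℂ) • y) * gd (x - ρ • y)) * φ (x, y) := ⟨_, rfl⟩
  have hFm : Measurable (Function.uncurry F) := by
    rw [hF]
    refine Measurable.mul ?_ (hφ.comp measurable_swap)
    refine ENNReal.measurable_ofReal.comp (Continuous.measurable ?_)
    fun_prop
  have hpt : ∀ B C : ι → ℂ, ENNReal.ofReal (gd B * gd C) *
      φ ((σ : ℂ)⁻¹ • (ρ • B + (σ : ℂ) • C), (σ : ℂ)⁻¹ • B) =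
      F ((σ : ℂ)⁻¹ • B) (C + (σ : ℂ)⁻¹ • ρ • B) := by
    intro B C
    rw [hF]
    congr 2
    · congr 1
      · rw [smul_smul, mul_inv_cancel₀ hσ0, one_smul]
      · congr 1
        rw [smul_comm ρ]; abel
    · rw [Prod.mk.injEq]
      refine ⟨?_, rfl⟩
      rw [smul_add, smul_smul (σ : ℂ)⁻¹ (σ : ℂ), inv_mul_cancel₀ hσ0, one_smul, add_comm]
  rw [lintegral_prod _ ?_, lintegral_prod_symm _ ?_]
  · simp_rw [hpt]
    have h1 : ∀ B : ι → ℂ, ∫⁻ C, F ((σ : ℂ)⁻¹ • B) (C + (σ : ℂ)⁻¹ • ρ • B) =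
        (fun y => ∫⁻ C, F y C) ((σ : ℂ)⁻¹ • B) := fun B =>
      lintegral_add_right_eq_self (fun C => F ((σ : ℂ)⁻¹ • B) C) _
    simp_rw [h1]
    rw [lintegral_comp_smul_vol σ hσ (fun y => ∫⁻ C, F y C) hFm.lintegral_prod_right,
      ← lintegral_const_mul _ hFm.lintegral_prod_right]
    refine lintegral_congr fun y => ?_
    have h5 : Measurable (F y) := hFm.of_uncurry_left
    rw [← lintegral_const_mul _ h5]
    refine lintegral_congr fun x => ?_
    rw [hF]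
    simp only
    rw [← mul_assoc, ← mul_assoc, ← ENNReal.ofReal_mul (by positivity),
      ← ENNReal.ofReal_mul (mul_nonneg (gd_nonneg _) (gd_nonneg _))]
    congr 2
    have h2 : nsq ((σ : ℂ) • y) + nsq (x - ρ • y) =
        nsq x + nsq y - 2 * (conj ρ * ip x y).re := by
      have h3 := nsq_lin 1 (-ρ) x y
      rw [one_smul, neg_smul, ← sub_eq_add_neg] at h3
      rw [h3, nsq_smul, norm_neg, Complex.norm_real, Real.norm_eq_abs, sq_abs]
      simp only [norm_one, one_pow, one_mul, map_neg, neg_mul, Complex.neg_re]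
      linear_combination (nsq y) * h
    unfold gd
    rw [div_mul_div_comm, div_mul_div_comm, ← Real.exp_add, ← Real.exp_add]
    have h4 : -nsq ((σ : ℂ) • y) + -nsq (x - ρ • y) =
        (-nsq x + -nsq y) + 2 * (conj ρ * ip x y).re := by linarith
    rw [h4, Real.exp_add]
    ring
  · exact ((by fun_prop : Measurable fun p : (ι → ℂ) × (ι → ℂ) =>
      ENNReal.ofReal (gd p.1 * gd p.2)).mul (hK.mul hφ)).aemeasurable
  · exact ((by fun_prop : Measurable fun p : (ι → ℂ) × (ι → ℂ) =>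
      ENNReal.ofReal (gd p.1 * gd p.2)).mul (hφ.comp hT)).aemeasurable

end Sph
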