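import Pool.Agent.Hhelper97.Sph.Chaos
import Pool.Agent.Hhelper97.Sph.Extract

/-!
# Positivity and Cauchy-Schwarz for the coefficients
-/

open MeasureTheory Matrix Finset Filter Topology
open scoped ENNReal ComplexConjugate

namespace Sph

variable {n : ℕ}

/-- The two-point function as a function of `t`. -/
noncomputable def Ph (n : ℕ) (a b : ℂ) (t : ℝ) : ℂ :=
  TP n a b ((Real.sqrt t : ℝ) : ℂ) (Real.sqrt (1 - t))

theorem hasSum_Ph {a b : ℂ} (ha : -1 < a.re) (hb : -1 < b.re) (t : ℝ) (ht0 : 0 ≤ t)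
    (ht : t < 1) : HasSum (fun N : ℕ => cc n a b N * (t : ℂ) ^ N) (Ph n a b t) := by
  have h1 : ‖((Real.sqrt t : ℝ) : ℂ)‖ ^ 2 = t := by
    rw [Complex.norm_real, Real.norm_eq_abs, sq_abs, Real.sq_sqrt ht0]
  have h2 := hasSum_TP (n := n) (ρ := ((Real.sqrt t : ℝ) : ℂ)) ha hb
    (σ := Real.sqrt (1 - t)) (Real.sqrt_pos.mpr (by linarith)) (by
      rw [h1, Real.sq_sqrt (by linarith)]; ring)
  rw [h1] at h2
  exact h2

/-- Finite differences of the smoothed weights. -/
noncomputable def UU (a : ℂ) (N : ℕ) (h : ℝ) (D : Fin n × Fin n → ℂ) : ℂ :=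
  ∑ i ∈ range (N + 1), ((dl N i : ℝ) : ℂ) * U a (Real.sqrt (i * h)) D

lemma conj_U (a : ℂ) (c : ℝ) (D : Fin n × Fin n → ℂ) : conj (U a c D) = U (conj a) c D := by
  unfold U
  rw [← integral_conj]
  simp_rw [star_W]

lemma conj_UU (a : ℂ) (N : ℕ) (h : ℝ) (D : Fin n × Fin n → ℂ) :
    conj (UU a N h D) = UU (conj a) N h D := by
  unfold UU
  rw [map_sum]
  refine Finset.sum_congr rfl fun i _ => ?_
  rw [map_mul, Complex.conj_ofReal, conj_U]

theorem UU_mul {a b : ℂ} (ha : -1 < a.re) (hb : -1 < b.re) (N : ℕ) {h : ℝ} (hh : 0 < h)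
    (hN : N * h < 1) :
    Integrable (fun D : Fin n × Fin n → ℂ => UU a N h D * UU b N h D) (G (Fin n × Fin n)) ∧
    ∫ D : Fin n × Fin n → ℂ, UU a N h D * UU b N h D ∂(G (Fin n × Fin n)) =
      Sd (Ph n a b) N h := by
  have hc : ∀ i ∈ range (N + 1), Real.sqrt ((i : ℝ) * h) < 1 := by
    intro i hi
    have hi' : (i : ℝ) ≤ N := by
      have := Finset.mem_range.mp hi
      exact_mod_cast Nat.lt_succ_iff.mp this
    rw [Real.sqrt_lt' one_pos]
    nlinarith
  have hexp : ∀ D : Fin n × Fin n → ℂ, UU a N h D * UU b N h D =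
      ∑ i ∈ range (N + 1), ∑ j ∈ range (N + 1), ((dl N i * dl N j : ℝ) : ℂ) *
        (U a (Real.sqrt (i * h)) D * U b (Real.sqrt (j * h)) D) := by
    intro D
    unfold UU
    rw [Finset.sum_mul_sum]
    refine Finset.sum_congr rfl fun i _ => Finset.sum_congr rfl fun j _ => ?_
    push_cast
    ring
  have hint : ∀ i ∈ range (N + 1), ∀ j ∈ range (N + 1),
      Integrable (fun D : Fin n × Fin n → ℂ => ((dl N i * dl N j : ℝ) : ℂ) *
        (U a (Real.sqrt (i * h)) D * U b (Real.sqrt (j * h)) D)) (G (Fin n × Fin n)) :=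
    fun i hi j hj => ((U_mul ha hb (Real.sqrt_nonneg _) (hc i hi) (Real.sqrt_nonneg _)
      (hc j hj)).1).const_mul _
  simp_rw [hexp]
  constructor
  · exact integrable_finsetSum _ fun i hi => integrable_finsetSum _ fun j hj => hint i hi j hj
  · rw [integral_finsetSum _ fun i hi => integrable_finsetSum _ fun j hj => hint i hi j hj]
    unfold Sd
    refine Finset.sum_congr rfl fun i hi => ?_
    rw [integral_finsetSum _ fun j hj => hint i hi j hj]
    refine Finset.sum_congr rfl fun j hj => ?_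
    rw [integral_const_mul, (U_mul ha hb (Real.sqrt_nonneg _) (hc i hi) (Real.sqrt_nonneg _)
      (hc j hj)).2]
    congr 1
    unfold Ph
    have h1 : Real.sqrt ((i : ℝ) * h) * Real.sqrt ((j : ℝ) * h) =
        Real.sqrt ((i : ℝ) * j * h ^ 2) := by
      rw [← Real.sqrt_mul (by positivity)]
      congr 1
      ring
    have h2 : Real.sqrt ((i : ℝ) * h) ^ 2 * Real.sqrt ((j : ℝ) * h) ^ 2 =
        (i : ℝ) * j * h ^ 2 := by
      rw [Real.sq_sqrt (by positivity), Real.sq_sqrt (by positivity)]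
      ring
    rw [h1, h2]

lemma mul_h_lt (N : ℕ) : ∀ᶠ h : ℝ in 𝓝[>] 0, (N : ℝ) * h < 1 := by
  have hlim : Tendsto (fun h : ℝ => (N : ℝ) * h) (𝓝[>] 0) (𝓝 0) := by
    have : Tendsto (fun h : ℝ => (N : ℝ) * h) (𝓝 0) (𝓝 ((N : ℝ) * 0)) :=
      (Continuous.tendsto (by fun_prop) 0)
    simpa using this.mono_left nhdsWithin_le_nhds
  exact hlim.eventually (gt_mem_nhds one_pos)

/-- The squared norm integral. -/
theorem UU_sq {a : ℂ} (ha : -1 < a.re) (N : ℕ) {h : ℝ} (hh : 0 < h) (hN : N * h < 1) :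
    Integrable (fun D : Fin n × Fin n → ℂ => ‖UU a N h D‖ ^ 2) (G (Fin n × Fin n)) ∧
    Sd (Ph n a (conj a)) N h =
      ((∫ D : Fin n × Fin n → ℂ, ‖UU a N h D‖ ^ 2 ∂(G (Fin n × Fin n)) : ℝ) : ℂ) := by
  have ha' : -1 < (conj a).re := by simpa using ha
  obtain ⟨h1, h2⟩ := UU_mul (n := n) ha ha' N hh hN
  have h3 : ∀ D : Fin n × Fin n → ℂ, UU a N h D * UU (conj a) N h D =
      ((‖UU a N h D‖ ^ 2 : ℝ) : ℂ) := by
    intro D
    rw [← conj_UU, Complex.mul_conj, Complex.normSq_eq_norm_sq]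
  simp_rw [h3] at h1 h2
  constructor
  · exact h1.re.congr (Eventually.of_forall fun D => by simp only [RCLike.re_to_complex, Complex.ofReal_re])
  · rw [← h2]
    exact integral_ofReal

/-- The diagonal coefficients are nonnegative reals. -/
theorem cc_nonneg {a : ℂ} (ha : -1 < a.re) (N : ℕ) :
    ∃ r : ℝ, 0 ≤ r ∧ cc n a (conj a) N = (r : ℂ) := by
  have ha' : -1 < (conj a).re := by simpa using ha
  have hlim := coeff_limit (hasSum_Ph (n := n) ha ha') N
  have hcl : IsClosed {z : ℂ | 0 ≤ z.re ∧ z.im = 0} :=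
    (isClosed_le continuous_const Complex.continuous_re).inter
      (isClosed_eq Complex.continuous_im continuous_const)
  have hev : ∀ᶠ h : ℝ in 𝓝[>] 0, Sd (Ph n a (conj a)) N h / (h : ℂ) ^ (2 * N) ∈
      {z : ℂ | 0 ≤ z.re ∧ z.im = 0} := by
    filter_upwards [self_mem_nhdsWithin, mul_h_lt N] with h hh hN
    have hh' : (0 : ℝ) < h := hh
    rw [(UU_sq (n := n) ha N hh' hN).2, ← Complex.ofReal_pow, ← Complex.ofReal_div]
    refine ⟨?_, Complex.ofReal_im _⟩
    rw [Complex.ofReal_re]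
    exact div_nonneg (integral_nonneg fun D => by positivity) (by positivity)
  have hmem := hcl.mem_of_tendsto hlim hev
  have hf : (0 : ℝ) < (N.factorial : ℝ) ^ 2 := by
    have := Nat.factorial_pos N
    positivity
  have h1 : ((N.factorial : ℂ) ^ 2) = (((N.factorial : ℝ) ^ 2 : ℝ) : ℂ) := by push_cast; rfl
  rw [h1] at hmem
  obtain ⟨h2, h3⟩ := hmem
  rw [Complex.re_mul_ofReal] at h2
  rw [Complex.im_mul_ofReal] at h3
  refine ⟨(cc n a (conj a) N).re, nonneg_of_mul_nonneg_left h2 hf, ?_⟩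
  apply Complex.ext
  · simp
  · simpa [hf.ne'] using h3

/-- Cauchy-Schwarz for the coefficients, in the form of the arithmetic-geometric inequality. -/
theorem cc_amgm {a b : ℂ} (ha : -1 < a.re) (hb : -1 < b.re) {x y : ℝ} (hx : 0 < x) (hy : 0 < y)
    (N : ℕ) :
    ‖cc n a b N‖ / (x * y) ≤
      (‖cc n a (conj a) N‖ / x ^ 2 + ‖cc n b (conj b) N‖ / y ^ 2) / 2 := by
  have ha' : -1 < (conj a).re := by simpa using ha
  have hb' : -1 < (conj b).re := by simpa using hb
  have hl1 := (coeff_limit (hasSum_Ph (n := n) ha hb) N).norm.div_const (x * y)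
  have hl2 := (coeff_limit (hasSum_Ph (n := n) ha ha') N).norm.div_const (x ^ 2)
  have hl3 := (coeff_limit (hasSum_Ph (n := n) hb hb') N).norm.div_const (y ^ 2)
  have hl4 := (hl2.add hl3).div_const 2
  have hle : ∀ᶠ h : ℝ in 𝓝[>] 0, ‖Sd (Ph n a b) N h / (h : ℂ) ^ (2 * N)‖ / (x * y) ≤
      (‖Sd (Ph n a (conj a)) N h / (h : ℂ) ^ (2 * N)‖ / x ^ 2 +
        ‖Sd (Ph n b (conj b)) N h / (h : ℂ) ^ (2 * N)‖ / y ^ 2) / 2 := by
    filter_upwards [self_mem_nhdsWithin, mul_h_lt N] with h hh hN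
    have hh' : (0 : ℝ) < h := hh
    obtain ⟨h1, h2⟩ := UU_mul (n := n) ha hb N hh' hN
    obtain ⟨h3, h4⟩ := UU_sq (n := n) ha N hh' hN
    obtain ⟨h5, h6⟩ := UU_sq (n := n) hb N hh' hN
    have h7 : ‖Sd (Ph n a b) N h‖ / (x * y) ≤
        ((∫ D : Fin n × Fin n → ℂ, ‖UU a N h D‖ ^ 2 ∂(G (Fin n × Fin n))) / x ^ 2 +
        (∫ D : Fin n × Fin n → ℂ, ‖UU b N h D‖ ^ 2 ∂(G (Fin n × Fin n))) / y ^ 2) / 2 := by
      rw [← h2]
      calc ‖∫ D : Fin n × Fin n → ℂ, UU a N h D * UU b N h D ∂(G (Fin n × Fin n))‖ / (x * y)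
          ≤ (∫ D : Fin n × Fin n → ℂ, ‖UU a N h D * UU b N h D‖ ∂(G (Fin n × Fin n))) / (x * y) := by
            gcongr
            exact norm_integral_le_integral_norm _
        _ = ∫ D : Fin n × Fin n → ℂ, ‖UU a N h D * UU b N h D‖ / (x * y) ∂(G (Fin n × Fin n)) := by
            rw [integral_div]
        _ ≤ ∫ D : Fin n × Fin n → ℂ, (‖UU a N h D‖ ^ 2 / x ^ 2 + ‖UU b N h D‖ ^ 2 / y ^ 2) / 2
              ∂(G (Fin n × Fin n)) := by
            refine integral_mono (h1.norm.div_const _)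
              (((h3.div_const _).add (h5.div_const _)).div_const _) fun D => ?_
            simp only
            rw [norm_mul]
            have h8 := sq_nonneg (‖UU a N h D‖ / x - ‖UU b N h D‖ / y)
            have h9 : ‖UU a N h D‖ * ‖UU b N h D‖ / (x * y) =
                (‖UU a N h D‖ / x) * (‖UU b N h D‖ / y) := by
              rw [div_mul_div_comm]
            rw [h9, ← div_pow, ← div_pow]
            nlinarith
        _ = _ := by
            rw [integral_div, integral_add (h3.div_const _) (h5.div_const _), integral_div,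
              integral_div]
    have h10 : 0 ≤ ∫ D : Fin n × Fin n → ℂ, ‖UU a N h D‖ ^ 2 ∂(G (Fin n × Fin n)) :=
      integral_nonneg fun D => by positivity
    have h11 : 0 ≤ ∫ D : Fin n × Fin n → ℂ, ‖UU b N h D‖ ^ 2 ∂(G (Fin n × Fin n)) :=
      integral_nonneg fun D => by positivity
    have h12 : (0 : ℝ) < h ^ (2 * N) := by positivity
    rw [h4, h6, norm_div, norm_div, norm_div, norm_pow, Complex.norm_real, Complex.norm_real,
      Complex.norm_real, Real.norm_of_nonneg hh'.le, Real.norm_of_nonneg h10,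
      Real.norm_of_nonneg h11, div_right_comm, div_right_comm _ _ (x ^ 2),
      div_right_comm _ _ (y ^ 2), ← add_div, div_right_comm _ _ (2 : ℝ)]
    exact div_le_div_of_nonneg_right h7 h12.le
  have hfin := le_of_tendsto_of_tendsto hl1 hl4 hle
  have hf : (0 : ℝ) < (N.factorial : ℝ) ^ 2 := by
    have := Nat.factorial_pos N
    positivity
  rw [norm_mul, norm_mul, norm_mul, norm_pow, Complex.norm_natCast] at hfin
  have h13 : ‖cc n a b N‖ * (N.factorial : ℝ) ^ 2 / (x * y) =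
      ‖cc n a b N‖ / (x * y) * (N.factorial : ℝ) ^ 2 := by ring
  have h14 : (‖cc n a (conj a) N‖ * (N.factorial : ℝ) ^ 2 / x ^ 2 +
      ‖cc n b (conj b) N‖ * (N.factorial : ℝ) ^ 2 / y ^ 2) / 2 =
      (‖cc n a (conj a) N‖ / x ^ 2 + ‖cc n b (conj b) N‖ / y ^ 2) / 2 *
        (N.factorial : ℝ) ^ 2 := by ring
  rw [h13, h14] at hfin
  exact le_of_mul_le_mul_right hfin hf

end Sph
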