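import Pool.Agent.Hhelper97.Sph.Gauss

/-!
# Scaling of Gaussian vectors
-/

open MeasureTheory
open scoped ENNReal

namespace Sph

variable {ι : Type*} [Fintype ι]

/-- Coordinatewise scaling. -/
noncomputable def scaleL (s : ι → ℝ) : (ι → ℂ) →ₗ[ℝ] (ι → ℂ) :=
  LinearMap.pi fun i => (s i • (LinearMap.id : ℂ →ₗ[ℝ] ℂ)).comp (LinearMap.proj i)

lemma scaleL_apply (s : ι → ℝ) (x : ι → ℂ) (i : ι) : scaleL s x i = s i * x i := by
  simp [scaleL]

lemma det_scaleL (s : ι → ℝ) : LinearMap.det (scaleL s) = ∏ i, s i ^ 2 := by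
  unfold scaleL
  rw [LinearMap.det_pi]
  refine Finset.prod_congr rfl fun i _ => ?_
  rw [LinearMap.det_smul, LinearMap.det_id, mul_one, Complex.finrank_real_complex]

/-- Partial squared norm. -/
noncomputable def tsq (S : Finset ι) (x : ι → ℂ) : ℝ := ∑ i ∈ S, ‖x i‖ ^ 2

lemma tsq_nonneg (S : Finset ι) (x : ι → ℂ) : 0 ≤ tsq S x :=
  Finset.sum_nonneg fun i _ => by positivity

lemma tsq_le (S : Finset ι) (x : ι → ℂ) : tsq S x ≤ nsq x :=
  Finset.sum_le_sum_of_subset_of_nonneg (Finset.subset_univ S) fun i _ _ => by positivity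

lemma tsq_univ (x : ι → ℂ) : tsq Finset.univ x = nsq x := rfl

@[fun_prop]
lemma continuous_tsq (S : Finset ι) : Continuous (tsq S : (ι → ℂ) → ℝ) := by
  unfold tsq; fun_prop

@[fun_prop]
lemma measurable_tsq (S : Finset ι) : Measurable (tsq S : (ι → ℂ) → ℝ) :=
  (continuous_tsq S).measurable

variable [DecidableEq ι]

/-- Scaling the coordinates in `S` by `s`. -/
noncomputable def sc (S : Finset ι) (s : ℝ) : (ι → ℂ) →ₗ[ℝ] (ι → ℂ) :=
  scaleL fun i => if i ∈ S then s else 1

lemma sc_apply (S : Finset ι) (s : ℝ) (x : ι → ℂ) (i : ι) :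
    sc S s x i = if i ∈ S then s * x i else x i := by
  rw [sc, scaleL_apply]; split_ifs <;> simp

lemma det_sc (S : Finset ι) (s : ℝ) : LinearMap.det (sc S s) = (s ^ 2) ^ S.card := by
  rw [sc, det_scaleL]
  simp_rw [ite_pow, one_pow]
  rw [Finset.prod_ite_mem, Finset.univ_inter, Finset.prod_const]

lemma tsq_eq_ite (S : Finset ι) (x : ι → ℂ) :
    tsq S x = ∑ i, if i ∈ S then ‖x i‖ ^ 2 else 0 := by
  rw [tsq, Finset.sum_ite_mem, Finset.univ_inter]

lemma nsq_sc (S : Finset ι) (s : ℝ) (x : ι → ℂ) :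
    nsq (sc S s x) = nsq x + (s ^ 2 - 1) * tsq S x := by
  rw [tsq_eq_ite, nsq, nsq, Finset.mul_sum, ← Finset.sum_add_distrib]
  refine Finset.sum_congr rfl fun i _ => ?_
  rw [sc_apply]
  split_ifs
  · rw [norm_mul, mul_pow, Complex.norm_real, Real.norm_eq_abs, sq_abs]; ring
  · ring

lemma tsq_sc (S : Finset ι) (s : ℝ) (x : ι → ℂ) :
    tsq S (sc S s x) = s ^ 2 * tsq S x := by
  unfold tsq
  rw [Finset.mul_sum]
  refine Finset.sum_congr rfl fun i hi => ?_
  rw [sc_apply, if_pos hi, norm_mul, mul_pow, Complex.norm_real, Real.norm_eq_abs, sq_abs]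

theorem integral_comp_linear {E F : Type*} [NormedAddCommGroup E] [NormedSpace ℝ E]
    [FiniteDimensional ℝ E] [MeasurableSpace E] [BorelSpace E] (μ : Measure E)
    [μ.IsAddHaarMeasure] [NormedAddCommGroup F] [NormedSpace ℝ F]
    (L : E →ₗ[ℝ] E) (hdet : LinearMap.det L ≠ 0) (f : E → F) :
    ∫ x, f (L x) ∂μ = |(LinearMap.det L)⁻¹| • ∫ x, f x ∂μ := by
  let e : E ≃ₗ[ℝ] E := LinearMap.equivOfDetNeZero L hdet
  have he : ∀ x, e x = L x := fun x => rfl
  have h1 : MeasurableEmbedding (L : E → E) := by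
    have := e.toContinuousLinearEquiv.toHomeomorph.measurableEmbedding
    exact this
  rw [← h1.integral_map, Measure.map_linearMap_addHaar_eq_smul_addHaar μ hdet,
    integral_smul_measure, ENNReal.toReal_ofReal (abs_nonneg _)]

theorem integral_scale {F : Type*} [NormedAddCommGroup F] [NormedSpace ℝ F]
    (S : Finset ι) {s : ℝ} (hs : 0 < s) (h : (ι → ℂ) → F) :
    ∫ A, h (sc S s A) ∂(G ι) =
      ((s ^ 2) ^ S.card)⁻¹ • ∫ A, Real.exp ((1 - (s ^ 2)⁻¹) * tsq S A) • h A ∂(G ι) := by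
  rw [integral_G, integral_G]
  have h1 : ∀ A : ι → ℂ, gd A • h (sc S s A) =
      (fun B => gd B • Real.exp ((1 - (s ^ 2)⁻¹) * tsq S B) • h B) (sc S s A) := by
    intro A
    simp only [smul_smul]
    congr 1
    rw [gd, gd, tsq_sc, nsq_sc, div_mul_eq_mul_div, ← Real.exp_add]
    congr 2
    have : s ^ 2 ≠ 0 := by positivity
    field_simp
    ring
  simp_rw [h1]
  have hd : LinearMap.det (sc S s) ≠ 0 := by rw [det_sc]; positivity
  rw [integral_comp_linear volume (sc S s) hd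
    (fun B => gd B • Real.exp ((1 - (s ^ 2)⁻¹) * tsq S B) • h B), det_sc]
  congr 1
  rw [abs_of_pos (by positivity)]

/-- Laplace transform of the partial squared norm against a homogeneous function. -/
theorem integral_exp_tsq (S : Finset ι) (h : (ι → ℂ) → ℂ) (c : ℂ)
    (hh : ∀ s : ℝ, 0 < s → ∀ A, h (sc S s A) = (s : ℂ) ^ (2 * c) * h A) {y : ℝ} (hy : -1 < y) :
    ∫ A, Real.exp (-y * tsq S A) • h A ∂(G ι) =
      ((1 + y : ℝ) : ℂ) ^ (-(S.card + c)) * ∫ A, h A ∂(G ι) := by
  have hy' : 0 < 1 + y := by linarith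
  set s : ℝ := (Real.sqrt (1 + y))⁻¹ with hsdef
  have hspos : 0 < s := by positivity
  have hs2 : s ^ 2 = (1 + y)⁻¹ := by
    rw [hsdef, inv_pow, Real.sq_sqrt hy'.le]
  have h1 := integral_scale S hspos h
  have h2 : ∫ A, h (sc S s A) ∂(G ι) = (s : ℂ) ^ (2 * c) * ∫ A, h A ∂(G ι) := by
    rw [← integral_const_mul]
    exact integral_congr_ae (Filter.Eventually.of_forall fun A => hh s hspos A)
  have h3 : (1 : ℝ) - (s ^ 2)⁻¹ = -y := by rw [hs2, inv_inv]; ring
  rw [h3] at h1
  rw [h2] at h1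
  have h4 : ∫ A, Real.exp (-y * tsq S A) • h A ∂(G ι) =
      ((s ^ 2) ^ S.card : ℝ) • ((s : ℂ) ^ (2 * c) * ∫ A, h A ∂(G ι)) := by
    rw [h1, smul_smul, mul_inv_cancel₀ (by positivity), one_smul]
  rw [h4, Complex.real_smul, ← mul_assoc]
  congr 1
  have h5 : (s : ℂ) ^ (2 * c) = ((1 + y : ℝ) : ℂ) ^ (-c) := by
    rw [Complex.cpow_def_of_ne_zero (by exact_mod_cast hspos.ne'),
      Complex.cpow_def_of_ne_zero (by exact_mod_cast hy'.ne'), ← Complex.ofReal_log hspos.le,
      ← Complex.ofReal_log hy'.le, hsdef, Real.log_inv, Real.log_sqrt hy'.le]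
    congr 1
    push_cast
    ring
  rw [h5, hs2, neg_add, Complex.cpow_add _ _ (by exact_mod_cast hy'.ne')]
  congr 1
  rw [Complex.cpow_neg, Complex.cpow_natCast]
  push_cast
  rw [inv_pow]

open Filter Topology in
/-- First moment of the partial squared norm against a homogeneous function. -/
theorem hom_moment (S : Finset ι) (h : (ι → ℂ) → ℂ) (c : ℂ)
    (hh : ∀ s : ℝ, 0 < s → ∀ A, h (sc S s A) = (s : ℂ) ^ (2 * c) * h A)
    (hi : Integrable h (G ι)) (hi' : Integrable (fun A => (tsq S A : ℂ) * h A) (G ι)) :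
    ∫ A, (tsq S A : ℂ) * h A ∂(G ι) = (S.card + c) * ∫ A, h A ∂(G ι) := by
  set κ : ℂ := S.card + c with hκ
  -- limit of the left difference quotient
  have hL : Tendsto (fun y : ℝ => ∫ A, (y⁻¹ • (Real.exp (-(0 + y) * tsq S A) -
      Real.exp (-0 * tsq S A))) • h A ∂(G ι)) (𝓝[>] 0) (𝓝 (∫ A, (-tsq S A) • h A ∂(G ι))) := by
    refine tendsto_integral_filter_of_dominated_convergence
      (fun A => ‖(tsq S A : ℂ) * h A‖) ?_ ?_ hi'.norm ?_
    · refine Filter.Eventually.of_forall fun y => ?_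
      have hme : Measurable (fun A : ι → ℂ => y⁻¹ • (Real.exp (-(0 + y) * tsq S A) -
        Real.exp (-0 * tsq S A))) := by fun_prop
      exact AEStronglyMeasurable.smul hme.aestronglyMeasurable hi.aestronglyMeasurable
    · filter_upwards [self_mem_nhdsWithin] with y hy
      refine Filter.Eventually.of_forall fun A => ?_
      have hy' : (0 : ℝ) < y := hy
      have hT := tsq_nonneg S A
      rw [norm_smul, norm_mul, Complex.norm_real]
      refine mul_le_mul_of_nonneg_right ?_ (norm_nonneg _)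
      rw [smul_eq_mul, norm_mul, norm_inv, Real.norm_of_nonneg hy'.le, Real.norm_of_nonneg hT,
        zero_add, neg_zero, zero_mul, Real.exp_zero]
      rw [inv_mul_le_iff₀ hy', Real.norm_eq_abs, abs_sub_comm, abs_of_nonneg]
      · have := Real.add_one_le_exp (-y * tsq S A)
        linarith
      · rw [sub_nonneg]
        apply Real.exp_le_one_iff.mpr
        nlinarith
    · refine Filter.Eventually.of_forall fun A => ?_
      have h1 : HasDerivAt (fun y : ℝ => Real.exp (-y * tsq S A)) (-tsq S A) 0 := by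
        have h2 : HasDerivAt (fun y : ℝ => -y * tsq S A) (-1 * tsq S A) 0 :=
          ((hasDerivAt_id (0 : ℝ)).neg).mul_const _
        have h3 := h2.exp
        simpa using h3
      exact (h1.tendsto_slope_zero_right).smul_const (h A)
  have hR : Tendsto (fun y : ℝ => (y⁻¹ • (((1 + (0 + y) : ℝ) : ℂ) ^ (-κ) -
      ((1 + (0 : ℝ) : ℝ) : ℂ) ^ (-κ))) * ∫ A, h A ∂(G ι)) (𝓝[>] 0)
      (𝓝 (-κ * ∫ A, h A ∂(G ι))) := by
    have h1 : HasDerivAt (fun y : ℝ => ((1 + y : ℝ) : ℂ) ^ (-κ)) (-κ) 0 := by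
      have h2 : HasDerivAt (fun z : ℂ => 1 + z) 1 ((0 : ℝ) : ℂ) :=
        (hasDerivAt_id _).const_add 1
      have h3 := (h2.cpow_const (c := -κ) (by simp)).comp_ofReal
      simp only [Complex.ofReal_zero, add_zero, Complex.one_cpow, mul_one] at h3
      convert h3 using 1
      ext y
      push_cast
      rfl
    exact (h1.tendsto_slope_zero_right).mul_const _
  have hEq : ∀ᶠ y : ℝ in 𝓝[>] 0, ∫ A, (y⁻¹ • (Real.exp (-(0 + y) * tsq S A) -
      Real.exp (-0 * tsq S A))) • h A ∂(G ι) = (y⁻¹ • (((1 + (0 + y) : ℝ) : ℂ) ^ (-κ) -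
      ((1 + (0 : ℝ) : ℝ) : ℂ) ^ (-κ))) * ∫ A, h A ∂(G ι) := by
    filter_upwards [self_mem_nhdsWithin] with y hy
    have hy' : (0 : ℝ) < y := hy
    have h1 := integral_exp_tsq S h c hh (y := y) (by linarith)
    simp only [zero_add, neg_zero, zero_mul, Real.exp_zero, add_zero, Complex.ofReal_one,
      Complex.one_cpow]
    simp_rw [smul_assoc]
    rw [integral_smul, smul_mul_assoc]
    congr 1
    rw [sub_mul, one_mul, ← h1, ← integral_sub ?_ hi]
    · refine integral_congr_ae (Filter.Eventually.of_forall fun A => ?_)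
      simp [sub_smul]
    · refine hi.mono ?_ ?_
      · have hme : Measurable (fun A : ι → ℂ => Real.exp (-y * tsq S A)) := by fun_prop
        exact AEStronglyMeasurable.smul hme.aestronglyMeasurable hi.aestronglyMeasurable
      · refine Filter.Eventually.of_forall fun A => ?_
        rw [norm_smul, Real.norm_of_nonneg (Real.exp_pos _).le]
        have hT := tsq_nonneg S A
        have : Real.exp (-y * tsq S A) ≤ 1 := Real.exp_le_one_iff.mpr (by nlinarith)
        exact mul_le_of_le_one_left (norm_nonneg _) this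
  have hlim := tendsto_nhds_unique (hL.congr' hEq) hR
  have h5 : ∫ A, (-tsq S A) • h A ∂(G ι) = -∫ A, (tsq S A : ℂ) * h A ∂(G ι) := by
    rw [← integral_neg]
    refine integral_congr_ae (Filter.Eventually.of_forall fun A => ?_)
    simp
  rw [h5, neg_mul, neg_inj] at hlim
  exact hlim

end Sph
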