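import Pool.Agent.Hhelper97.Sph.Mehler

/-!
# Power series of the two-point function
-/

open MeasureTheory Matrix Finset
open scoped ENNReal ComplexConjugate

namespace Sph

lemma rf_eq (x : ℂ) (N : ℕ) : rf x N = (ascPochhammer ℂ N).eval x := by
  induction N with
  | zero => simp [rf]
  | succ N ih =>
    rw [ascPochhammer_succ_eval, ← ih, rf, rf, Finset.prod_range_succ]

lemma rf_div (x : ℂ) (N : ℕ) : rf x N / (N.factorial : ℂ) = Ring.multichoose x N := by
  have h := Ring.factorial_nsmul_multichoose_eq_ascPochhammer x N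
  rw [Polynomial.ascPochhammer_smeval_eq_eval, ← rf_eq, nsmul_eq_mul] at h
  rw [← h]
  have : (N.factorial : ℂ) ≠ 0 := by exact_mod_cast (Nat.factorial_pos _).ne'
  field_simp

lemma rf_vandermonde (u v : ℂ) (N : ℕ) :
    ∑ ij ∈ antidiagonal N, (rf u ij.1 / (ij.1.factorial : ℂ)) * (rf v ij.2 / (ij.2.factorial : ℂ)) =
      rf (u + v) N / (N.factorial : ℂ) := by
  have h1 : ∀ (x : ℂ) (k : ℕ), rf x k / (k.factorial : ℂ) = (-1) ^ k * Ring.choose (-x) k := by
    intro x k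
    rw [rf_div, Ring.choose_neg', Units.smul_def, Int.negOnePow_def]
    simp only [zpow_natCast, Units.val_pow_eq_pow_val, Units.val_neg, Units.val_one, zsmul_eq_mul,
      Int.cast_pow, Int.cast_neg, Int.cast_one]
    rw [← mul_assoc, ← mul_pow]
    simp
  simp_rw [h1]
  rw [neg_add, Ring.add_choose_eq N (Commute.all _ _), Finset.mul_sum]
  refine Finset.sum_congr rfl fun ij hij => ?_
  rw [← HasAntidiagonal.mem_antidiagonal.mp hij, pow_add]
  ring

lemma hasSum_rf (x t : ℂ) (ht : ‖t‖ < 1) :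
    HasSum (fun N : ℕ => rf x N / (N.factorial : ℂ) * t ^ N) ((1 - t) ^ (-x)) := by
  have h := Complex.one_div_one_sub_cpow_hasFPowerSeriesOnBall_zero x
  have h2 := h.hasSum (y := t) (by
    rw [Metric.mem_eball, edist_zero_right, ← ofReal_norm, ENNReal.ofReal_lt_one]
    exact ht)
  simp only [zero_add, one_div, ← Complex.cpow_neg] at h2
  refine h2.congr_fun fun N => ?_
  rw [rf_div, Ring.multichoose_eq]
  simp [FormalMultilinearSeries.ofScalars, mul_comm]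

variable {n : ℕ}

/-- The (unnormalised) two-point function. -/
noncomputable def TP (n : ℕ) (a b ρ : ℂ) (σ : ℝ) : ℂ :=
  ∫ p, W a (ρ • p.1 + (σ : ℂ) • p.2) * W b p.1 ∂(GG n)

theorem TP_eq (a b ρ : ℂ) {σ : ℝ} (hσ : 0 < σ) (h : ‖ρ‖ ^ 2 + σ ^ 2 = 1) :
    TP n a b ρ σ = ((σ ^ 2 : ℝ) : ℂ) ^ ((n : ℂ) * (n + a + b)) *
      ∫ p, W a p.1 * W b p.2 * ((Real.exp (2 * (conj ρ * ip p.1 p.2).re) : ℝ) : ℂ) ∂(GG n) := by
  have hσ0 : (σ : ℂ) ≠ 0 := by exact_mod_cast hσ.ne'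
  have hT : Measurable (fun p : (Fin n × Fin n → ℂ) × (Fin n × Fin n → ℂ) =>
        ((σ : ℂ)⁻¹ • (ρ • p.1 + (σ : ℂ) • p.2), (σ : ℂ)⁻¹ • p.1)) :=
    Continuous.measurable (by fun_prop)
  have hF : Measurable (fun q : (Fin n × Fin n → ℂ) × (Fin n × Fin n → ℂ) =>
      W a ((σ : ℂ) • q.1) * W b ((σ : ℂ) • q.2)) :=
    ((measurable_W a).comp (Continuous.measurable (by fun_prop))).mul
      ((measurable_W b).comp (Continuous.measurable (by fun_prop)))
  have hK : Measurable (fun p : (Fin n × Fin n → ℂ) × (Fin n × Fin n → ℂ) =>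
      ENNReal.ofReal ((σ ^ 2) ^ Fintype.card (Fin n × Fin n) *
        Real.exp (2 * (conj ρ * ip p.1 p.2).re))) := by
    refine ENNReal.measurable_ofReal.comp (Continuous.measurable ?_)
    fun_prop
  have h1 : TP n a b ρ σ = ∫ q, W a ((σ : ℂ) • q.1) * W b ((σ : ℂ) • q.2)
      ∂(Measure.map (fun p : (Fin n × Fin n → ℂ) × (Fin n × Fin n → ℂ) =>
        ((σ : ℂ)⁻¹ • (ρ • p.1 + (σ : ℂ) • p.2), (σ : ℂ)⁻¹ • p.1)) (GG n)) := by
    rw [integral_map hT.aemeasurable hF.aestronglyMeasurable]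
    unfold TP
    refine integral_congr_ae (Filter.Eventually.of_forall fun p => ?_)
    simp only
    rw [smul_smul, smul_smul, mul_inv_cancel₀ hσ0, one_smul, one_smul]
  rw [h1, map_tilt ρ σ hσ h, integral_withDensity_eq_integral_toReal_smul hK
    (Filter.Eventually.of_forall fun x => ENNReal.ofReal_lt_top), ← integral_const_mul]
  refine integral_congr_ae (Filter.Eventually.of_forall fun p => ?_)
  simp only
  rw [ENNReal.toReal_ofReal (by positivity), W_smul_pos a hσ, W_smul_pos b hσ, Complex.real_smul,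
    Fintype.card_prod, Fintype.card_fin]
  have h2 : ((σ ^ 2 : ℝ) : ℂ) ^ ((n : ℂ) * (n + a + b)) =
      (((σ ^ 2) ^ (n * n) : ℝ) : ℂ) * ((σ : ℂ) ^ (2 * (n * a)) * (σ : ℂ) ^ (2 * (n * b))) := by
    have h3 : ((σ ^ 2 : ℝ) : ℂ) ≠ 0 := by exact_mod_cast (pow_pos hσ 2).ne'
    have h4 : (((σ ^ 2) ^ (n * n) : ℝ) : ℂ) = (σ : ℂ) ^ (2 * ((n : ℂ) * n)) := by
      rw [← pow_mul, Complex.ofReal_pow, ← Complex.cpow_natCast]
      push_cast
      rfl
    rw [h4, ← Complex.cpow_add _ _ hσ0, ← Complex.cpow_add _ _ hσ0,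
      Complex.cpow_def_of_ne_zero h3, Complex.cpow_def_of_ne_zero hσ0,
      ← Complex.ofReal_log (pow_nonneg hσ.le 2), ← Complex.ofReal_log hσ.le, Real.log_pow]
    congr 1
    push_cast
    ring
  rw [h2]
  push_cast
  ring

/-- Coefficients of the two-point function. -/
noncomputable def cc (n : ℕ) (a b : ℂ) (N : ℕ) : ℂ :=
  ∑ ij ∈ antidiagonal N, (rf (-((n : ℂ) * (n + a + b))) ij.1 / (ij.1.factorial : ℂ)) *
    (MM n a b ij.2 / ((ij.2.factorial : ℂ) ^ 2))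

theorem hasSum_TP {a b ρ : ℂ} (ha : -1 < a.re) (hb : -1 < b.re) {σ : ℝ} (hσ : 0 < σ)
    (h : ‖ρ‖ ^ 2 + σ ^ 2 = 1) :
    HasSum (fun N : ℕ => cc n a b N * ((‖ρ‖ ^ 2 : ℝ) : ℂ) ^ N) (TP n a b ρ σ) := by
  have hρ1 : ‖ρ‖ < 1 := by nlinarith [norm_nonneg ρ]
  have hρ2 : ‖ρ‖ ^ 2 < 1 := by nlinarith [norm_nonneg ρ]
  set t : ℂ := ((‖ρ‖ ^ 2 : ℝ) : ℂ) with ht
  have htn : ‖t‖ < 1 := by
    rw [ht, Complex.norm_real, Real.norm_of_nonneg (by positivity)]; exact hρ2
  have h1 := hasSum_rf (-((n : ℂ) * (n + a + b))) t htn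
  have h2 := hasSum_exp_moment (n := n) ha hb hρ1
  rw [← ht] at h2
  have h3 : (1 - t) = ((σ ^ 2 : ℝ) : ℂ) := by
    rw [ht, ← Complex.ofReal_one, ← Complex.ofReal_sub]
    congr 1
    linarith
  rw [neg_neg, h3] at h1
  rw [TP_eq a b ρ hσ h, ← h1.tsum_eq, ← h2.tsum_eq,
    tsum_mul_tsum_eq_tsum_sum_antidiagonal_of_summable_norm h1.summable.norm h2.summable.norm]
  have h4 := (summable_norm_sum_mul_antidiagonal_of_summable_norm h1.summable.norm
    h2.summable.norm).of_norm.hasSum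
  refine h4.congr_fun fun N => ?_
  rw [cc, Finset.sum_mul]
  refine Finset.sum_congr rfl fun ij hij => ?_
  rw [← HasAntidiagonal.mem_antidiagonal.mp hij, pow_add]
  ring

/-- The coefficients of order at most `n` are those of `(1 - t)^(-ab)`. -/
theorem cc_exact {a b : ℂ} (ha : -1 < a.re) (hb : -1 < b.re) {N : ℕ} (hN : N ≤ n) :
    cc n a b N = Z n a * Z n b * (rf (a * b) N / (N.factorial : ℂ)) := by
  have h1 : a * b = -((n : ℂ) * (n + a + b)) + (n + a) * (n + b) := by ring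
  rw [h1, ← rf_vandermonde, Finset.mul_sum, cc]
  refine Finset.sum_congr rfl fun ij hij => ?_
  have h2 := HasAntidiagonal.mem_antidiagonal.mp hij
  rw [MM_exact ha hb ij.2 (by omega)]
  have : (ij.2.factorial : ℂ) ≠ 0 := by exact_mod_cast (Nat.factorial_pos _).ne'
  field_simp

end Sph
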