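import Pool.Agent.Hhelper97.Sph.Positivity
import Pool.Agent.Hhelper97.Sph.GammaRatio

/-!
# Bounds for all coefficients
-/

open MeasureTheory Matrix Finset Filter Topology Polynomial
open scoped ENNReal ComplexConjugate

namespace Sph

section bw

/-- Bernstein-Walsh inequality for the unit disc. -/
theorem bw {P : ℂ[X]} {N : ℕ} (hP : P.natDegree ≤ N) {M : ℝ}
    (h : ∀ u : ℂ, ‖u‖ = 1 → ‖P.eval u‖ ≤ M) (u : ℂ) : ‖P.eval u‖ ≤ M * (max 1 ‖u‖) ^ N := by
  have hM : 0 ≤ M := (norm_nonneg _).trans (h 1 (by simp))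
  have hmax : ∀ (Q : ℂ[X]), (∀ u : ℂ, ‖u‖ = 1 → ‖Q.eval u‖ ≤ M) →
      ∀ u : ℂ, ‖u‖ ≤ 1 → ‖Q.eval u‖ ≤ M := by
    intro Q hQ u hu
    refine Complex.norm_le_of_forall_mem_frontier_norm_le (U := Metric.ball (0 : ℂ) 1)
      Metric.isBounded_ball (f := fun z => Q.eval z) ?_ ?_ ?_
    · exact (Polynomial.differentiable Q).diffContOnCl
    · intro z hz
      rw [frontier_ball (0 : ℂ) one_ne_zero] at hz
      exact hQ z (by simpa using hz)
    · rw [closure_ball (0 : ℂ) one_ne_zero]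
      simpa using hu
  rcases le_total ‖u‖ 1 with hu | hu
  · rw [max_eq_left hu, one_pow, mul_one]
    exact hmax P h u hu
  · rw [max_eq_right hu]
    have hu0 : u ≠ 0 := by
      intro h0
      rw [h0, norm_zero] at hu
      linarith
    have hrefl : ∀ v : ℂ, v ≠ 0 → (reflect N P).eval v⁻¹ * v ^ N = P.eval v := by
      intro v hv
      let _ : Invertible v := invertibleOfNonzero hv
      have := eval₂_reflect_mul_pow (RingHom.id ℂ) v N P hP
      rw [invOf_eq_inv] at this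
      exact this
    have h1 : ∀ v : ℂ, ‖v‖ = 1 → ‖(reflect N P).eval v‖ ≤ M := by
      intro v hv
      have hv0 : v ≠ 0 := by
        intro h0
        rw [h0, norm_zero] at hv
        linarith
      have h2 := hrefl v⁻¹ (inv_ne_zero hv0)
      rw [inv_inv] at h2
      have h3 := congrArg norm h2
      rw [norm_mul, norm_pow, norm_inv, hv, inv_one, one_pow, mul_one] at h3
      rw [h3]
      exact h _ (by rw [norm_inv, hv, inv_one])
    rw [← hrefl u hu0, norm_mul, norm_pow]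
    gcongr
    refine hmax _ h1 _ ?_
    rw [norm_inv]
    exact inv_le_one_of_one_le₀ hu

end bw

lemma mp_integral {α β : Type*} [MeasurableSpace α] [MeasurableSpace β] {μ : Measure α}
    {ν : Measure β} {f : α → β} (hf : MeasurePreserving f μ ν) {g : β → ℝ}
    (hg : AEStronglyMeasurable g ν) : ∫ x, (g ∘ f) x ∂μ = ∫ y, g y ∂ν := by
  rw [← hf.map_eq] at hg ⊢
  rw [integral_map hf.measurable.aemeasurable hg]
  rfl

variable {n : ℕ}

/-- Second moments of the weight. -/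
theorem W_sq {a : ℂ} (ha : -(1 / 2) < a.re) :
    Integrable (fun A : Fin n × Fin n → ℂ => ‖W a A‖ ^ 2) (G (Fin n × Fin n)) ∧
    ∫ A : Fin n × Fin n → ℂ, ‖W a A‖ ^ 2 ∂(G (Fin n × Fin n)) =
      ‖Z n ((2 * a.re : ℝ) : ℂ)‖ := by
  have ha2 : -1 < ((2 * a.re : ℝ) : ℂ).re := by rw [Complex.ofReal_re]; linarith
  have hae : ∀ᵐ A ∂(G (Fin n × Fin n)), W ((2 * a.re : ℝ) : ℂ) A = ((‖W a A‖ ^ 2 : ℝ) : ℂ) := by
    filter_upwards [ae_det_ne_zero n] with A hA
    have hpos := norm_pos_iff.mpr hA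
    unfold W
    rw [Complex.norm_cpow_eq_rpow_re_of_pos hpos, ← Real.rpow_natCast, ← Real.rpow_mul hpos.le,
      Complex.ofReal_cpow hpos.le]
    congr 1
    simp only [Complex.mul_re, Complex.re_ofNat, Complex.im_ofNat, zero_mul, sub_zero,
      Nat.cast_ofNat]
    push_cast
    ring
  have h1 := (integrable_W n _ ha2).congr hae
  have h2 : Integrable (fun A : Fin n × Fin n → ℂ => ‖W a A‖ ^ 2) (G (Fin n × Fin n)) :=
    h1.re.congr (Eventually.of_forall fun A => by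
      simp only [RCLike.re_to_complex, Complex.ofReal_re])
  refine ⟨h2, ?_⟩
  rw [← det_moment n _ ha2, integral_congr_ae hae]
  have h3 : ∫ A : Fin n × Fin n → ℂ, ((‖W a A‖ ^ 2 : ℝ) : ℂ) ∂(G (Fin n × Fin n)) =
      ((∫ A : Fin n × Fin n → ℂ, ‖W a A‖ ^ 2 ∂(G (Fin n × Fin n)) : ℝ) : ℂ) := integral_ofReal
  rw [h3, Complex.norm_real, Real.norm_of_nonneg]
  exact integral_nonneg fun A => by positivity

theorem Ph_le {a : ℂ} (ha : -(1 / 2) < a.re) {t : ℝ} (ht0 : 0 ≤ t) (ht : t < 1) :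
    ‖Ph n a (conj a) t‖ ≤ ‖Z n ((2 * a.re : ℝ) : ℂ)‖ := by
  obtain ⟨h1, h2⟩ := W_sq (n := n) ha
  have hn1 : ‖((Real.sqrt t : ℝ) : ℂ)‖ ^ 2 + Real.sqrt (1 - t) ^ 2 = 1 := by
    rw [Complex.norm_real, Real.norm_eq_abs, sq_abs, Real.sq_sqrt ht0,
      Real.sq_sqrt (by linarith)]
    ring
  have hmp1 := lin_measurePreserving (ι := Fin n × Fin n) ((Real.sqrt t : ℝ) : ℂ)
    (Real.sqrt (1 - t)) hn1
  have hmp2 : MeasurePreserving (Prod.fst : (Fin n × Fin n → ℂ) × (Fin n × Fin n → ℂ) →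
      (Fin n × Fin n → ℂ)) (GG n) (G (Fin n × Fin n)) := measurePreserving_fst
  have hi1 := (hmp1.integrable_comp h1.aestronglyMeasurable).mpr h1
  have hi2 := (hmp2.integrable_comp h1.aestronglyMeasurable).mpr h1
  have he1 : ∫ p, ((fun A => ‖W a A‖ ^ 2) ∘ (fun p : (Fin n × Fin n → ℂ) × (Fin n × Fin n → ℂ) =>
      ((Real.sqrt t : ℝ) : ℂ) • p.1 + ((Real.sqrt (1 - t) : ℝ) : ℂ) • p.2)) p ∂(GG n) =
      ∫ A : Fin n × Fin n → ℂ, ‖W a A‖ ^ 2 ∂(G (Fin n × Fin n)) :=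
    mp_integral hmp1 h1.aestronglyMeasurable
  have he2 : ∫ p, ((fun A => ‖W a A‖ ^ 2) ∘ (Prod.fst : (Fin n × Fin n → ℂ) ×
      (Fin n × Fin n → ℂ) → (Fin n × Fin n → ℂ))) p ∂(GG n) =
      ∫ A : Fin n × Fin n → ℂ, ‖W a A‖ ^ 2 ∂(G (Fin n × Fin n)) :=
    mp_integral hmp2 h1.aestronglyMeasurable
  have ha1 : -1 < a.re := by linarith
  have ha1' : -1 < (conj a).re := by simpa using ha1
  have hint := integrable_TP (n := n) ha1 ha1' (Real.sqrt_pos.mpr (by linarith : 0 < 1 - t)) hn1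
  rw [← h2]
  unfold Ph TP
  calc ‖∫ p, W a (((Real.sqrt t : ℝ) : ℂ) • p.1 + ((Real.sqrt (1 - t) : ℝ) : ℂ) • p.2) *
        W (conj a) p.1 ∂(GG n)‖
      ≤ ∫ p, ‖W a (((Real.sqrt t : ℝ) : ℂ) • p.1 + ((Real.sqrt (1 - t) : ℝ) : ℂ) • p.2) *
        W (conj a) p.1‖ ∂(GG n) := norm_integral_le_integral_norm _
    _ ≤ ∫ p, (((fun A => ‖W a A‖ ^ 2) ∘ (fun p : (Fin n × Fin n → ℂ) × (Fin n × Fin n → ℂ) =>
      ((Real.sqrt t : ℝ) : ℂ) • p.1 + ((Real.sqrt (1 - t) : ℝ) : ℂ) • p.2)) p +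
        ((fun A => ‖W a A‖ ^ 2) ∘ (Prod.fst : (Fin n × Fin n → ℂ) ×
      (Fin n × Fin n → ℂ) → (Fin n × Fin n → ℂ))) p) / 2 ∂(GG n) := by
        refine integral_mono hint.norm ((hi1.add hi2).div_const 2) fun p => ?_
        simp only [Function.comp_apply, Pi.add_apply]
        rw [norm_mul, ← star_W, RCLike.norm_conj]
        nlinarith [sq_nonneg (‖W a (((Real.sqrt t : ℝ) : ℂ) • p.1 +
          ((Real.sqrt (1 - t) : ℝ) : ℂ) • p.2)‖ - ‖W a p.1‖)]
    _ = _ := by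
        rw [integral_div, integral_add hi1 hi2, he1, he2]
        ring

theorem cc_diag_le {a : ℂ} (ha : -(1 / 2) < a.re) (N : ℕ) :
    ‖cc n a (conj a) N‖ ≤ ‖Z n ((2 * a.re : ℝ) : ℂ)‖ := by
  have ha1 : -1 < a.re := by linarith
  have ha1' : -1 < (conj a).re := by simpa using ha1
  choose r hr0 hr using fun M => cc_nonneg (n := n) ha1 M
  have hle : ∀ t : ℝ, 0 ≤ t → t < 1 → r N * t ^ N ≤ ‖Z n ((2 * a.re : ℝ) : ℂ)‖ := by
    intro t ht0 ht
    have h1 := hasSum_Ph (n := n) ha1 ha1' t ht0 ht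
    have h2 : HasSum (fun M : ℕ => r M * t ^ M) (Ph n a (conj a) t).re := by
      have h3 := Complex.hasSum_re h1
      refine h3.congr_fun fun M => ?_
      rw [hr, ← Complex.ofReal_pow, ← Complex.ofReal_mul, Complex.ofReal_re]
    have h4 := le_hasSum h2 N fun j _ => mul_nonneg (hr0 j) (pow_nonneg ht0 j)
    exact h4.trans ((Complex.re_le_norm _).trans (Ph_le ha ht0 ht))
  rw [hr, Complex.norm_real, Real.norm_of_nonneg (hr0 N)]
  have hlim : Tendsto (fun t : ℝ => r N * t ^ N) (𝓝[<] 1) (𝓝 (r N)) := by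
    have : Tendsto (fun t : ℝ => r N * t ^ N) (𝓝 1) (𝓝 (r N * 1 ^ N)) :=
      Continuous.tendsto (by fun_prop) 1
    simpa using this.mono_left nhdsWithin_le_nhds
  refine le_of_tendsto hlim ?_
  have h5 : ∀ᶠ t : ℝ in 𝓝[<] 1, 0 < t :=
    (lt_mem_nhds one_pos).filter_mono nhdsWithin_le_nhds
  filter_upwards [self_mem_nhdsWithin, h5] with t ht ht0
  exact hle t ht0.le ht

/-- Polynomial (in `n`) bound for the coefficients to the right of `-1/4`. -/
theorem cc_le {a b : ℂ} (ha : -(1 / 4) ≤ a.re) (hb : -(1 / 4) ≤ b.re) {S : ℝ}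
    (haS : ‖a‖ ^ 2 ≤ S) (hbS : ‖b‖ ^ 2 ≤ S) (N : ℕ) :
    ‖cc n a b N‖ ≤ ‖Z n a‖ * ‖Z n b‖ * Real.exp (4 * S * (1 + Real.log n)) := by
  have hza : 0 < ‖Z n a‖ := norm_pos_iff.mpr (Z_ne_zero n a (by linarith))
  have hzb : 0 < ‖Z n b‖ := norm_pos_iff.mpr (Z_ne_zero n b (by linarith))
  have hlog : 0 ≤ 1 + Real.log n := by
    have := Real.log_natCast_nonneg n
    linarith
  have h1 := cc_amgm (n := n) (a := a) (b := b) (by linarith) (by linarith) hza hzb N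
  have h2 : ‖cc n a (conj a) N‖ / ‖Z n a‖ ^ 2 ≤ Real.exp (4 * S * (1 + Real.log n)) := by
    calc ‖cc n a (conj a) N‖ / ‖Z n a‖ ^ 2 ≤ ‖Z n ((2 * a.re : ℝ) : ℂ)‖ / ‖Z n a‖ ^ 2 := by
          gcongr
          exact cc_diag_le (by linarith) N
      _ ≤ Real.exp (4 * ‖a‖ ^ 2 * (1 + Real.log n)) := Z_ratio_le ha n
      _ ≤ _ := by gcongr
  have h3 : ‖cc n b (conj b) N‖ / ‖Z n b‖ ^ 2 ≤ Real.exp (4 * S * (1 + Real.log n)) := by
    calc ‖cc n b (conj b) N‖ / ‖Z n b‖ ^ 2 ≤ ‖Z n ((2 * b.re : ℝ) : ℂ)‖ / ‖Z n b‖ ^ 2 := by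
          gcongr
          exact cc_diag_le (by linarith) N
      _ ≤ Real.exp (4 * ‖b‖ ^ 2 * (1 + Real.log n)) := Z_ratio_le hb n
      _ ≤ _ := by gcongr
  have h4 : ‖cc n a b N‖ / (‖Z n a‖ * ‖Z n b‖) ≤ Real.exp (4 * S * (1 + Real.log n)) := by
    linarith
  rw [div_le_iff₀ (by positivity)] at h4
  linarith

/-- The coefficients are, up to normalisation, polynomials of degree at most `N`. -/
theorem cc_poly {b : ℂ} (hb : -1 < b.re) (N : ℕ) :
    ∃ Q : ℂ[X], Q.natDegree ≤ N ∧ ∀ a : ℂ, -1 < a.re → cc n a b N = Z n a * Q.eval a := by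
  choose Q hQ1 hQ2 using fun j => MM_poly (n := n) hb j
  obtain ⟨R, hR⟩ : ∃ R : ℕ → ℂ[X], ∀ i, (R i).natDegree ≤ i ∧
      ∀ a, (R i).eval a = rf (-((n : ℂ) * (n + a + b))) i := by
    refine ⟨fun i => ∏ k ∈ range i, (C (-(n : ℂ)) * X + C (-((n : ℂ) * (n + b)) + k)), fun i =>
      ⟨?_, fun a => ?_⟩⟩
    · refine (natDegree_prod_le _ _).trans ?_
      refine (Finset.sum_le_card_nsmul _ _ 1 fun k _ => ?_).trans (by simp)
      refine (natDegree_add_le _ _).trans ?_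
      rw [natDegree_C]
      refine max_le ?_ (by omega)
      exact (natDegree_C_mul_le _ _).trans natDegree_X_le
    · rw [eval_prod, rf]
      refine Finset.prod_congr rfl fun k _ => ?_
      simp only [eval_add, eval_mul, eval_C, eval_X]
      ring
  refine ⟨∑ ij ∈ antidiagonal N, C ((ij.1.factorial : ℂ)⁻¹ * ((ij.2.factorial : ℂ) ^ 2)⁻¹) *
    (R ij.1 * Q ij.2), ?_, ?_⟩
  · refine natDegree_sum_le_of_forall_le _ _ fun ij hij => ?_
    refine (natDegree_C_mul_le _ _).trans ?_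
    refine natDegree_mul_le.trans ?_
    have h1 := HasAntidiagonal.mem_antidiagonal.mp hij
    have h2 := (hR ij.1).1
    have h3 := hQ1 ij.2
    omega
  · intro a ha
    rw [cc, eval_finsetSum, Finset.mul_sum]
    refine Finset.sum_congr rfl fun ij _ => ?_
    rw [MM_symm, hQ2 ij.2 a ha, eval_mul, eval_mul, eval_C, (hR ij.1).2]
    ring

lemma cc_symm (a b : ℂ) (N : ℕ) : cc n a b N = cc n b a N := by
  unfold cc
  refine Finset.sum_congr rfl fun ij _ => ?_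
  rw [MM_symm, add_right_comm]

/-- The coefficient bound in the whole strip. -/
theorem cc_strip {q : ℝ} (A : ℝ) (hq : 1 < q) :
    ∃ κ : ℝ, 0 ≤ κ ∧ ∀ (n : ℕ) (a : ℂ), |a.re| < 1 → ‖a‖ ≤ A → ∀ N : ℕ,
      ‖cc n a (-a) N‖ ≤ ‖Z n a‖ * ‖Z n (-a)‖ * Real.exp (κ * (1 + Real.log n)) * q ^ N := by
  -- choice of the disc
  obtain ⟨R, hR1, hR2⟩ : ∃ R : ℝ, 1 ≤ R ∧ (3 + A ^ 2) / (2 * (q - 1)) ≤ R :=
    ⟨max 1 ((3 + A ^ 2) / (2 * (q - 1))), le_max_left _ _, le_max_right _ _⟩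
  have hq1 : 0 < q - 1 := by linarith
  rw [div_le_iff₀ (by linarith)] at hR2
  set S : ℝ := max ((2 * R + 1 / 4) ^ 2) (A ^ 2) with hS
  refine ⟨4 * S, by positivity, ?_⟩
  -- the half strip
  have key : ∀ (n : ℕ) (a : ℂ), -1 < a.re → a.re ≤ 0 → ‖a‖ ≤ A → ∀ N : ℕ,
      ‖cc n a (-a) N‖ ≤ ‖Z n a‖ * ‖Z n (-a)‖ * Real.exp (4 * S * (1 + Real.log n)) * q ^ N := by
    intro n a ha1 ha0 haA N
    have hb : -1 < (-a).re := by rw [Complex.neg_re]; linarith
    have hb4 : -(1 / 4) ≤ (-a).re := by rw [Complex.neg_re]; linarith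
    obtain ⟨Q, hQ1, hQ2⟩ := cc_poly (n := n) hb N
    set P : ℂ[X] := Q.comp (C ((R + 1 / 4 : ℝ) : ℂ) * X + C (R : ℂ)) with hP
    have hPdeg : P.natDegree ≤ N := by
      rw [hP]
      refine natDegree_comp_le.trans ?_
      have h1 : (C ((R + 1 / 4 : ℝ) : ℂ) * X + C (R : ℂ) : ℂ[X]).natDegree ≤ 1 := by
        refine (natDegree_add_le _ _).trans ?_
        rw [natDegree_C]
        refine max_le ?_ (by omega)
        exact (natDegree_C_mul_le _ _).trans natDegree_X_le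
      calc Q.natDegree * _ ≤ Q.natDegree * 1 := Nat.mul_le_mul_left _ h1
        _ ≤ N := by omega
    have hPev : ∀ u, P.eval u = Q.eval (((R + 1 / 4 : ℝ) : ℂ) * u + R) := by
      intro u
      rw [hP, eval_comp, eval_add, eval_mul, eval_C, eval_X, eval_C]
    have hPb : ∀ u : ℂ, ‖u‖ = 1 → ‖P.eval u‖ ≤
        ‖Z n (-a)‖ * Real.exp (4 * S * (1 + Real.log n)) := by
      intro u hu
      rw [hPev]
      set a' : ℂ := ((R + 1 / 4 : ℝ) : ℂ) * u + R with ha'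
      have hure : |u.re| ≤ 1 := by rw [← hu]; exact Complex.abs_re_le_norm u
      have hre : -(1 / 4) ≤ a'.re := by
        rw [ha', Complex.add_re, Complex.re_ofReal_mul, Complex.ofReal_re]
        have := (abs_le.mp hure).1
        nlinarith
      have hnorm : ‖a'‖ ≤ 2 * R + 1 / 4 := by
        rw [ha']
        refine (norm_add_le _ _).trans ?_
        rw [norm_mul, hu, Complex.norm_real, Complex.norm_real, Real.norm_of_nonneg (by linarith),
          Real.norm_of_nonneg (by linarith)]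
        linarith
      have hZ : 0 < ‖Z n a'‖ := norm_pos_iff.mpr (Z_ne_zero n a' (by linarith))
      have h2 := cc_le (n := n) (a := a') (b := -a) hre hb4 (S := S)
        ((pow_le_pow_left₀ (norm_nonneg _) hnorm 2).trans (le_max_left _ _))
        ((pow_le_pow_left₀ (norm_nonneg _) (by rw [norm_neg]; exact haA) 2).trans
          (le_max_right _ _)) N
      rw [hQ2 a' (by linarith), norm_mul, mul_assoc] at h2
      exact le_of_mul_le_mul_left h2 hZ
    have h3 := bw hPdeg hPb ((a - R) / ((R + 1 / 4 : ℝ) : ℂ))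
    have hRc : ((R + 1 / 4 : ℝ) : ℂ) ≠ 0 := by
      have : (R + 1 / 4 : ℝ) ≠ 0 := by linarith
      exact_mod_cast this
    rw [hPev, mul_div_cancel₀ _ hRc, sub_add_cancel] at h3
    have h4 : max 1 ‖(a - R) / ((R + 1 / 4 : ℝ) : ℂ)‖ ≤ q := by
      refine max_le hq.le ?_
      rw [norm_div, Complex.norm_real, Real.norm_of_nonneg (by linarith), div_le_iff₀ (by linarith)]
      have h5 : ‖a - R‖ ^ 2 ≤ (q * (R + 1 / 4)) ^ 2 := by
        have h6 : ‖a - R‖ ^ 2 = (R - a.re) ^ 2 + a.im ^ 2 := by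
          rw [← Complex.normSq_eq_norm_sq, Complex.normSq_apply]
          simp only [Complex.sub_re, Complex.ofReal_re, Complex.sub_im, Complex.ofReal_im, sub_zero]
          ring
        have h7 : a.im ^ 2 ≤ A ^ 2 := by
          have := Complex.abs_im_le_norm a
          rw [← sq_abs]
          exact pow_le_pow_left₀ (abs_nonneg _) (this.trans haA) 2
        have h8 : (R - a.re) ^ 2 ≤ (R + 1) ^ 2 := by
          apply pow_le_pow_left₀ <;> linarith
        rw [h6]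
        have h9 : (1 + 2 * (q - 1)) * R ^ 2 ≤ (q * (R + 1 / 4)) ^ 2 := by
          have : (1 + 2 * (q - 1)) ≤ q ^ 2 := by nlinarith
          nlinarith [mul_pos (by linarith : 0 < R) (by linarith : 0 < q), sq_nonneg q, sq_nonneg R]
        nlinarith [sq_nonneg A]
      exact le_of_sq_le_sq h5 (by positivity)
    have h10 : ‖Q.eval a‖ ≤ ‖Z n (-a)‖ * Real.exp (4 * S * (1 + Real.log n)) * q ^ N :=
      h3.trans (by gcongr)
    rw [hQ2 a ha1, norm_mul]
    calc ‖Z n a‖ * ‖Q.eval a‖ ≤ ‖Z n a‖ *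
          (‖Z n (-a)‖ * Real.exp (4 * S * (1 + Real.log n)) * q ^ N) := by gcongr
      _ = _ := by ring
  intro n a ha haA N
  obtain ⟨h1, h2⟩ := abs_lt.mp ha
  rcases le_total a.re 0 with h | h
  · exact key n a h1 h haA N
  · have h3 := key n (-a) (by rw [Complex.neg_re]; linarith) (by rw [Complex.neg_re]; linarith)
      (by rw [norm_neg]; exact haA) N
    rw [neg_neg] at h3
    rw [cc_symm, mul_comm ‖Z n a‖]
    exact h3

end Sph
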