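import Pool.Agent.Hhelper97.Sph.Tail

/-!
# Uniform convergence of the normalised two-point function
-/

open MeasureTheory Matrix Finset Filter Topology
open scoped ENNReal ComplexConjugate

namespace Sph

lemma norm_rf_le {x : ℂ} {S : ℝ} (hx : ‖x‖ ≤ S) (N : ℕ) : ‖rf x N‖ ≤ ‖rf (S : ℂ) N‖ := by
  unfold rf
  rw [norm_prod, norm_prod]
  refine Finset.prod_le_prod (fun _ _ => norm_nonneg _) fun k _ => ?_
  have hS : 0 ≤ S := (norm_nonneg _).trans hx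
  have h1 : ‖(S : ℂ) + k‖ = S + k := by
    rw [← Complex.ofReal_natCast, ← Complex.ofReal_add, Complex.norm_real,
      Real.norm_of_nonneg (by positivity)]
  rw [h1]
  refine (norm_add_le _ _).trans ?_
  rw [Complex.norm_natCast]
  linarith

lemma exp_log_pow_tendsto (κ : ℝ) (hκ : 0 ≤ κ) {p : ℝ} (hp0 : 0 ≤ p) (hp : p < 1) :
    Tendsto (fun n : ℕ => Real.exp (κ * (1 + Real.log n)) * p ^ (n + 1)) atTop (𝓝 0) := by
  obtain ⟨k, hk⟩ := exists_nat_ge κ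
  have h1 := tendsto_pow_const_mul_const_pow_of_abs_lt_one k (r := p) (by
    rw [abs_of_nonneg hp0]; exact hp)
  have h2 : Tendsto (fun n : ℕ => Real.exp κ * p * ((n : ℝ) ^ k * p ^ n)) atTop (𝓝 0) := by
    simpa using h1.const_mul (Real.exp κ * p)
  refine squeeze_zero' (Eventually.of_forall fun n => by positivity) ?_ h2
  filter_upwards [eventually_ge_atTop 1] with n hn
  have hn1 : (1 : ℝ) ≤ n := by exact_mod_cast hn
  have h3 : Real.exp (κ * (1 + Real.log n)) ≤ Real.exp κ * (n : ℝ) ^ k := by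
    rw [mul_add, mul_one, Real.exp_add]
    gcongr
    rw [← Real.rpow_natCast, Real.rpow_def_of_pos (by linarith)]
    rw [Real.exp_le_exp, mul_comm]
    gcongr
  calc Real.exp (κ * (1 + Real.log n)) * p ^ (n + 1)
      ≤ (Real.exp κ * (n : ℝ) ^ k) * p ^ (n + 1) := by gcongr
    _ = _ := by rw [pow_succ]; ring

/-- The normalised two-point function converges to `(1 - t)^(a²)`, uniformly. -/
theorem unif_conv (A : ℝ) {t₀ : ℝ} (ht₀ : t₀ < 1) {ε : ℝ} (hε : 0 < ε) :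
    ∀ᶠ n : ℕ in atTop, ∀ a : ℂ, |a.re| < 1 → ‖a‖ ≤ A → ∀ t : ℝ, 0 ≤ t → t ≤ t₀ →
      ‖Ph n a (-a) t / (Z n a * Z n (-a)) - (1 - t : ℂ) ^ (a ^ 2)‖ < ε := by
  -- replace `t₀` by a positive number
  obtain ⟨t₁, ht₁0, ht₁1, ht₁⟩ : ∃ t₁ : ℝ, 0 < t₁ ∧ t₁ < 1 ∧ t₀ ≤ t₁ :=
    ⟨max t₀ (1 / 2), by positivity, max_lt ht₀ (by norm_num), le_max_left _ _⟩
  obtain ⟨q, hq1, hq2⟩ : ∃ q : ℝ, 1 < q ∧ q * t₁ < 1 := by
    refine ⟨(1 + 1 / t₁) / 2, ?_, ?_⟩
    · have : 1 < 1 / t₁ := by rw [lt_div_iff₀ ht₁0]; linarith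
      linarith
    · have : (1 + 1 / t₁) / 2 * t₁ = (t₁ + 1) / 2 := by field_simp
      rw [this]; linarith
  obtain ⟨κ, hκ0, hκ⟩ := cc_strip A hq1
  set p : ℝ := q * t₁ with hp
  have hp0 : 0 ≤ p := by positivity
  -- the majorising series of binomial type
  have hs : Summable fun N : ℕ => ‖rf ((A ^ 2 : ℝ) : ℂ) N / (N.factorial : ℂ)‖ * t₁ ^ N := by
    have h1 := (hasSum_rf ((A ^ 2 : ℝ) : ℂ) (t₁ : ℂ) (by
      rw [Complex.norm_real, Real.norm_of_nonneg ht₁0.le]; exact ht₁1)).summable.norm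
    refine h1.congr fun N => ?_
    rw [norm_mul, norm_pow, Complex.norm_real, Real.norm_of_nonneg ht₁0.le]
  have hlim1 := (exp_log_pow_tendsto κ hκ0 hp0 hq2).mul_const (1 - p)⁻¹
  rw [zero_mul] at hlim1
  have hlim2 := (tendsto_sum_nat_add fun N : ℕ =>
    ‖rf ((A ^ 2 : ℝ) : ℂ) N / (N.factorial : ℂ)‖ * t₁ ^ N).comp (tendsto_add_atTop_nat 1)
  have hlim := hlim1.add hlim2
  rw [add_zero] at hlim
  filter_upwards [hlim.eventually (gt_mem_nhds hε)] with n hn a ha haA t ht0 ht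
  refine lt_of_le_of_lt ?_ hn
  obtain ⟨ha1, ha2⟩ := abs_lt.mp ha
  have hb1 : -1 < (-a).re := by rw [Complex.neg_re]; linarith
  have htt : t ≤ t₁ := ht.trans ht₁
  have hZa := Z_ne_zero n a ha1
  have hZb := Z_ne_zero n (-a) hb1
  have hZ : Z n a * Z n (-a) ≠ 0 := mul_ne_zero hZa hZb
  have h1 := (hasSum_Ph (n := n) ha1 hb1 t ht0 (by linarith)).div_const (Z n a * Z n (-a))
  have h2 := hasSum_rf (-(a ^ 2)) (t : ℂ) (by
    rw [Complex.norm_real, Real.norm_of_nonneg ht0]; linarith)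
  rw [neg_neg] at h2
  have h3 := h1.sub h2
  have h4 := (hasSum_nat_add_iff' (n + 1)).mpr h3
  have hzero : ∑ i ∈ range (n + 1), (cc n a (-a) i * (t : ℂ) ^ i / (Z n a * Z n (-a)) -
      rf (-(a ^ 2)) i / (i.factorial : ℂ) * (t : ℂ) ^ i) = 0 := by
    refine Finset.sum_eq_zero fun i hi => ?_
    have hi' := Finset.mem_range.mp hi
    rw [cc_exact ha1 hb1 (by omega : i ≤ n)]
    have : a * -a = -(a ^ 2) := by ring
    rw [this]
    field_simp
    ring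
  rw [hzero, sub_zero] at h4
  rw [← h4.tsum_eq]
  have hg1 : HasSum (fun N : ℕ => Real.exp (κ * (1 + Real.log n)) * p ^ (n + 1) * p ^ N)
      (Real.exp (κ * (1 + Real.log n)) * p ^ (n + 1) * (1 - p)⁻¹) :=
    (hasSum_geometric_of_lt_one hp0 hq2).mul_left _
  have hg2 : HasSum (fun N : ℕ => ‖rf ((A ^ 2 : ℝ) : ℂ) (N + (n + 1)) /
      ((N + (n + 1)).factorial : ℂ)‖ * t₁ ^ (N + (n + 1)))
      (∑' N : ℕ, ‖rf ((A ^ 2 : ℝ) : ℂ) (N + (n + 1)) /
      ((N + (n + 1)).factorial : ℂ)‖ * t₁ ^ (N + (n + 1))) :=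
    ((summable_nat_add_iff (n + 1)).mpr hs).hasSum
  refine tsum_of_norm_bounded (hg1.add hg2) fun N => ?_
  refine (norm_sub_le _ _).trans (add_le_add ?_ ?_)
  · rw [norm_div, norm_mul, norm_mul, norm_pow, Complex.norm_real, Real.norm_of_nonneg ht0]
    have hZpos : 0 < ‖Z n a‖ * ‖Z n (-a)‖ :=
      mul_pos (norm_pos_iff.mpr hZa) (norm_pos_iff.mpr hZb)
    rw [div_le_iff₀ hZpos]
    calc ‖cc n a (-a) (N + (n + 1))‖ * t ^ (N + (n + 1))
        ≤ (‖Z n a‖ * ‖Z n (-a)‖ * Real.exp (κ * (1 + Real.log n)) * q ^ (N + (n + 1))) *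
          t₁ ^ (N + (n + 1)) := by
          gcongr
          exact hκ n a ha haA _
      _ = _ := by rw [hp]; ring
  · rw [norm_mul, norm_pow, Complex.norm_real, Real.norm_of_nonneg ht0, norm_div, norm_div]
    gcongr
    refine norm_rf_le ?_ _
    rw [norm_neg, norm_pow]
    exact pow_le_pow_left₀ (norm_nonneg _) haA 2

end Sph
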