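import Pool.Agent.Hhelper97.Sph.Pair

/-!
# Unitary invariance and the law of the determinant
-/

open MeasureTheory Matrix
open scoped ENNReal ComplexConjugate

namespace Sph

lemma nsq_vecMul {m n : ℕ} (U : Matrix (Fin m) (Fin n) ℂ) (hU : U * Uᴴ = 1) (x : Fin m → ℂ) :
    nsq (x ᵥ* U) = nsq x := by
  have h : ∀ {k : ℕ} (y : Fin k → ℂ), (nsq y : ℂ) = y ⬝ᵥ star y := by
    intro k y
    rw [nsq_eq_ip]; rfl
  have h1 : (nsq (x ᵥ* U) : ℂ) = (nsq x : ℂ) := by
    rw [h, h, star_vecMul, ← dotProduct_mulVec, mulVec_mulVec, hU, one_mulVec]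
  exact_mod_cast h1

/-- Right multiplication by a matrix. -/
noncomputable def rmulL {m n : ℕ} (U : Matrix (Fin n) (Fin n) ℂ) :
    (Fin m × Fin n → ℂ) →ₗ[ℝ] (Fin m × Fin n → ℂ) where
  toFun A p := ((fun k => A (p.1, k)) ᵥ* U) p.2
  map_add' A B := by
    ext p
    have : (fun k => (A + B) (p.1, k)) = (fun k => A (p.1, k)) + fun k => B (p.1, k) := rfl
    rw [this, add_vecMul]; rfl
  map_smul' r A := by
    ext p
    have : (fun k => (r • A) (p.1, k)) = r • fun k => A (p.1, k) := rfl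
    rw [this, smul_vecMul]; rfl

lemma rmulL_apply {m n : ℕ} (U : Matrix (Fin n) (Fin n) ℂ) (A : Fin m × Fin n → ℂ)
    (p : Fin m × Fin n) : rmulL U A p = ((fun k => A (p.1, k)) ᵥ* U) p.2 := rfl

lemma nsq_rmulL {m n : ℕ} (U : Matrix (Fin n) (Fin n) ℂ) (hU : U * Uᴴ = 1)
    (A : Fin m × Fin n → ℂ) : nsq (rmulL U A) = nsq A := by
  have h : ∀ B : Fin m × Fin n → ℂ, nsq B = ∑ i, nsq fun k => B (i, k) := by
    intro B
    unfold nsq
    rw [Fintype.sum_prod_type]
  rw [h, h]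
  refine Finset.sum_congr rfl fun i _ => ?_
  exact nsq_vecMul U hU fun k => A (i, k)

theorem rmul_measurePreserving {m n : ℕ} (U : Matrix (Fin n) (Fin n) ℂ) (hU : U * Uᴴ = 1) :
    MeasurePreserving (rmulL (m := m) U) (G (Fin m × Fin n)) (G (Fin m × Fin n)) :=
  G_measurePreserving _ (nsq_rmulL U hU)

/-- Left multiplication by a matrix. -/
noncomputable def lmulL {m n : ℕ} (U : Matrix (Fin m) (Fin m) ℂ) :
    (Fin m × Fin n → ℂ) →ₗ[ℝ] (Fin m × Fin n → ℂ) where
  toFun A p := (U *ᵥ (fun k => A (k, p.2))) p.1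
  map_add' A B := by
    ext p
    have : (fun k => (A + B) (k, p.2)) = (fun k => A (k, p.2)) + fun k => B (k, p.2) := rfl
    rw [this, mulVec_add]; rfl
  map_smul' r A := by
    ext p
    have : (fun k => (r • A) (k, p.2)) = r • fun k => A (k, p.2) := rfl
    rw [this, mulVec_smul]; rfl

lemma nsq_lmulL {m n : ℕ} (U : Matrix (Fin m) (Fin m) ℂ) (hU : Uᴴ * U = 1)
    (A : Fin m × Fin n → ℂ) : nsq (lmulL U A) = nsq A := by
  have h : ∀ B : Fin m × Fin n → ℂ, nsq B = ∑ j, nsq fun k => B (k, j) := by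
    intro B
    unfold nsq
    rw [Fintype.sum_prod_type_right]
  rw [h, h]
  refine Finset.sum_congr rfl fun j _ => ?_
  have h2 : (Uᵀ) * (Uᵀ)ᴴ = 1 := by
    have : (Uᵀ)ᴴ = (Uᴴ)ᵀ := rfl
    rw [this, ← transpose_mul, hU, transpose_one]
  have h3 := nsq_vecMul Uᵀ h2 fun k => A (k, j)
  rw [vecMul_transpose] at h3
  exact h3

theorem lmul_measurePreserving {m n : ℕ} (U : Matrix (Fin m) (Fin m) ℂ) (hU : Uᴴ * U = 1) :
    MeasurePreserving (lmulL (n := n) U) (G (Fin m × Fin n)) (G (Fin m × Fin n)) :=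
  G_measurePreserving _ (nsq_lmulL U hU)

lemma mat_rmulL {n : ℕ} (U : Matrix (Fin n) (Fin n) ℂ) (A : Fin n × Fin n → ℂ) :
    mat (rmulL U A) = mat A * U := by
  ext i j
  rfl

lemma mat_lmulL {n : ℕ} (U : Matrix (Fin n) (Fin n) ℂ) (A : Fin n × Fin n → ℂ) :
    mat (lmulL U A) = U * mat A := by
  ext i j
  rfl

/-- A unitary matrix rotating a given row vector onto the first axis. -/
theorem exists_unitary {n : ℕ} (v : Fin (n + 1) → ℂ) :
    ∃ U : Matrix (Fin (n + 1)) (Fin (n + 1)) ℂ, U * Uᴴ = 1 ∧ Uᴴ * U = 1 ∧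
      v ᵥ* U = Pi.single 0 ((Real.sqrt (nsq v) : ℝ) : ℂ) := by
  classical
  by_cases hv : v = 0
  · refine ⟨1, by simp, by simp, ?_⟩
    rw [hv]
    ext j
    simp [nsq]
  let w : EuclideanSpace ℂ (Fin (n + 1)) := WithLp.toLp 2 v
  have hw : w ≠ 0 := by
    intro h
    apply hv
    ext i
    have := congrArg (fun z : EuclideanSpace ℂ (Fin (n + 1)) => z i) h
    simpa [w] using this
  have hwn : ‖w‖ = Real.sqrt (nsq v) := by
    rw [EuclideanSpace.norm_eq]; rfl
  let u : EuclideanSpace ℂ (Fin (n + 1)) := ((‖w‖ : ℂ))⁻¹ • w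
  have hu : ‖u‖ = 1 := by
    rw [norm_smul, norm_inv, Complex.norm_real, norm_norm, inv_mul_cancel₀ (norm_ne_zero_iff.mpr hw)]
  have hon : Orthonormal ℂ (({0} : Set (Fin (n + 1))).domRestrict fun _ => u) := by
    constructor
    · intro i; exact hu
    · intro i j hij
      exact absurd (Subsingleton.elim i j) hij
  obtain ⟨b, hb⟩ := hon.exists_orthonormalBasis_extension_of_card_eq (by simp)
  have hb0 : b 0 = u := hb 0 rfl
  have hin : ∀ x y : EuclideanSpace ℂ (Fin (n + 1)), inner ℂ x y = ∑ k, y k * conj (x k) := by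
    intro x y
    rw [PiLp.inner_apply]
    refine Finset.sum_congr rfl fun k _ => ?_
    rw [RCLike.inner_apply]
  have h2 : (Matrix.of fun k j => conj (b j k) : Matrix (Fin (n + 1)) (Fin (n + 1)) ℂ)ᴴ *
      (Matrix.of fun k j => conj (b j k)) = 1 := by
    ext j l
    rw [Matrix.mul_apply]
    simp only [Matrix.conjTranspose_apply, Matrix.of_apply, RCLike.star_def, Complex.conj_conj]
    rw [← hin, b.inner_eq_ite, Matrix.one_apply]
    simp only [eq_comm]
  refine ⟨Matrix.of fun k j => conj (b j k), mul_eq_one_comm.mp h2, h2, ?_⟩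
  ext j
  have h3 : (v ᵥ* (Matrix.of fun k j => conj (b j k))) j = inner ℂ (b j) w := by
    rw [hin]; rfl
  have h4 : w = (‖w‖ : ℂ) • b 0 := by
    rw [hb0, smul_smul, mul_inv_cancel₀ (by exact_mod_cast norm_ne_zero_iff.mpr hw), one_smul]
  rw [h3, ← hwn, h4, inner_smul_right, b.inner_eq_ite, ← h4, Pi.single_apply]
  split_ifs <;> simp

end Sph
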