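import Pool.Agent.Hhelper97.Sph.Det

/-!
# Moments of the norm of a Gaussian vector
-/

open MeasureTheory Matrix
open scoped ENNReal ComplexConjugate

namespace Sph

theorem exists_polar (m : ℕ) (hm : 0 < m) :
    ∃ C : ℝ, ∀ h : ℝ → ℂ, ∫ v : Fin m → ℂ, h (Real.sqrt (nsq v)) ∂(G (Fin m)) =
      C • ∫ y in Set.Ioi (0 : ℝ), (y ^ (2 * m - 1) * Real.exp (-y ^ 2)) • h y := by
  let e : (Fin m → ℂ) ≃L[ℝ] EuclideanSpace ℂ (Fin m) :=
    (PiLp.continuousLinearEquiv 2 ℝ (fun _ : Fin m => ℂ)).symm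
  have : Nonempty (Fin m) := ⟨⟨0, hm⟩⟩
  let μ : Measure (EuclideanSpace ℂ (Fin m)) := Measure.map e volume
  have hμ : μ.IsAddHaarMeasure := e.isAddHaarMeasure_map volume
  have hfr : Module.finrank ℝ (EuclideanSpace ℂ (Fin m)) = 2 * m := by
    rw [← e.toLinearEquiv.finrank_eq, Module.finrank_pi_fintype]
    simp [Complex.finrank_real_complex, mul_comm]
  have hem : MeasurableEmbedding e := e.toHomeomorph.measurableEmbedding
  have hnorm : ∀ v : Fin m → ℂ, ‖e v‖ = Real.sqrt (nsq v) := by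
    intro v
    rw [EuclideanSpace.norm_eq]; rfl
  have : Nontrivial (EuclideanSpace ℂ (Fin m)) := by
    apply Module.nontrivial_of_finrank_pos (R := ℝ)
    rw [hfr]; omega
  refine ⟨(2 * m : ℕ) * μ.real (Metric.ball 0 1) * (Real.pi ^ m)⁻¹, fun h => ?_⟩
  have h1 : ∫ v : Fin m → ℂ, h (Real.sqrt (nsq v)) ∂(G (Fin m)) =
      ∫ w, (fun y : ℝ => (Real.exp (-y ^ 2) / Real.pi ^ m) • h y) ‖w‖ ∂μ := by
    rw [integral_G, hem.integral_map]
    refine integral_congr_ae (Filter.Eventually.of_forall fun v => ?_)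
    simp only [hnorm, gd, Fintype.card_fin, Real.sq_sqrt (nsq_nonneg v)]
  rw [h1, integral_fun_norm_addHaar μ (fun y : ℝ => (Real.exp (-y ^ 2) / Real.pi ^ m) • h y), hfr]
  have h2 : ∫ y in Set.Ioi (0 : ℝ), y ^ (2 * m - 1) • ((Real.exp (-y ^ 2) / Real.pi ^ m) • h y) =
      (Real.pi ^ m)⁻¹ • ∫ y in Set.Ioi (0 : ℝ), (y ^ (2 * m - 1) * Real.exp (-y ^ 2)) • h y := by
    rw [← integral_smul]
    refine integral_congr_ae (Filter.Eventually.of_forall fun y => ?_)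
    simp only [smul_smul]
    congr 1
    ring
  rw [h2, ← Nat.cast_smul_eq_nsmul ℝ, smul_smul, smul_smul, mul_assoc]

theorem radial_integral (m : ℕ) (hm : 0 < m) (a : ℂ) (ha : -(m : ℝ) < a.re) :
    ∫ y in Set.Ioi (0 : ℝ), (y ^ (2 * m - 1) * Real.exp (-y ^ 2)) • ((y : ℂ) ^ (2 * a)) =
      Complex.Gamma (m + a) / 2 := by
  have hre : 0 < (m + a : ℂ).re := by simp; linarith
  rw [Complex.Gamma_eq_integral hre, Complex.GammaIntegral,
    ← integral_comp_rpow_Ioi_of_pos (g := fun x : ℝ => ((Real.exp (-x) : ℝ) : ℂ) *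
      (x : ℂ) ^ ((m + a : ℂ) - 1)) (p := 2) two_pos]
  rw [eq_div_iff two_ne_zero, mul_comm, ← integral_const_mul]
  refine setIntegral_congr_fun measurableSet_Ioi fun y hy => ?_
  have hy0 : (0 : ℝ) < y := hy
  have hyc : (y : ℂ) ≠ 0 := by exact_mod_cast hy0.ne'
  have h1 : ((y ^ (2 : ℝ) : ℝ) : ℂ) ^ ((m + a : ℂ) - 1) = (y : ℂ) ^ (2 * ((m + a : ℂ) - 1)) := by
    rw [Complex.ofReal_cpow hy0.le, Complex.cpow_def_of_ne_zero, Complex.cpow_def_of_ne_zero hyc,
      Complex.cpow_def_of_ne_zero hyc]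
    · rw [Complex.log_exp]
      · congr 1; push_cast; ring
      · rw [← Complex.ofReal_log hy0.le, ← Complex.ofReal_mul, Complex.ofReal_im]
        linarith [Real.pi_pos]
      · rw [← Complex.ofReal_log hy0.le, ← Complex.ofReal_mul, Complex.ofReal_im]
        exact Real.pi_pos.le
    · rw [← Complex.ofReal_cpow hy0.le]
      exact Complex.ofReal_ne_zero.mpr (Real.rpow_pos_of_pos hy0 _).ne'
  rw [h1]
  have h2 : (y : ℂ) ^ (2 * a) * (y : ℂ) ^ (2 * m - 1) =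
      (y : ℂ) * (y : ℂ) ^ (2 * ((m + a : ℂ) - 1)) := by
    have h3 : (y : ℂ) ^ (2 * m - 1) = (y : ℂ) ^ ((2 * m - 1 : ℕ) : ℂ) := by
      rw [Complex.cpow_natCast]
    have h4 : (y : ℂ) = (y : ℂ) ^ (1 : ℂ) := (Complex.cpow_one _).symm
    rw [h3, ← Complex.cpow_add _ _ hyc]
    nth_rewrite 2 [h4]
    rw [← Complex.cpow_add _ _ hyc]
    congr 1
    rw [Nat.cast_sub (by omega)]
    push_cast
    ring
  have h5 : y ^ ((2 : ℝ) - 1) = y := by norm_num
  have h6 : y ^ (2 : ℝ) = y ^ (2 : ℕ) := by norm_cast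
  rw [h5, h6, Complex.real_smul, Complex.real_smul]
  push_cast
  linear_combination (2 * Complex.exp (-(y : ℂ) ^ 2)) * h2

/-- Moments of the norm of a Gaussian vector. -/
theorem vec_moment (m : ℕ) (hm : 0 < m) (a : ℂ) (ha : -(m : ℝ) < a.re) :
    ∫ v : Fin m → ℂ, ((Real.sqrt (nsq v) : ℝ) : ℂ) ^ (2 * a) ∂(G (Fin m)) =
      Complex.Gamma (m + a) / Complex.Gamma m := by
  obtain ⟨C, hC⟩ := exists_polar m hm
  have h0 := hC (fun y => (y : ℂ) ^ (2 * (0 : ℂ)))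
  have h1 := hC (fun y => (y : ℂ) ^ (2 * a))
  rw [radial_integral m hm 0 (by simpa using hm), add_zero] at h0
  rw [radial_integral m hm a ha] at h1
  rw [h1]
  simp only [mul_zero, Complex.cpow_zero, integral_const, probReal_univ, one_smul,
    Complex.real_smul] at h0 ⊢
  have hG : Complex.Gamma m ≠ 0 := by
    apply Complex.Gamma_ne_zero_of_re_pos; simpa using hm
  field_simp
  linear_combination (-Complex.Gamma (m + a)) * 2 * h0

end Sph
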